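import Pool.Agent.H623.TG.A

/-! Truncated graph, part B: the constant. -/

set_option autoImplicit false

namespace Pool.Agent.H623.TG

open Finset Filter Topology
open Pool.Agent.H499R2.CO (Tz)
open Pool.Agent.R344.SP (od od_succ od_le)

theorem sum_split (K : ℕ) (F : ℕ → ℝ) : ∑ r ∈ range (2 ^ (K + 1)), F r = ∑ r ∈ range (2 ^ K), (F r + F (r + 2 ^ K)) := by
  rw [pow_succ, mul_two, sum_range_add, ← sum_add_distrib]
  apply sum_congr rfl
  intro r _
  rw [add_comm (2 ^ K) r]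

theorem od_shift (k K : ℕ) (hk : k ≤ K) (r : ℤ) : od 1 k (r + 2 ^ K) = od 1 k r := by
  obtain ⟨j, rfl⟩ := Nat.exists_eq_add_of_le hk
  have := (shift (d := 1) (by norm_num) k r (2 ^ j)).2
  rw [← pow_add] at this
  exact this

theorem kap_anti : Antitone kap := by
  apply antitone_nat_of_succ_le
  intro K
  rw [kap_res (d := 1) (by norm_num), kap_res (d := 1) (by norm_num)]
  rw [sum_split K (fun r => mn (fun k => od 1 k (r : ℤ)) (K + 1))]
  rw [div_le_div_iff₀ (by positivity) (by positivity)]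
  have h : ∑ r ∈ range (2 ^ K), (mn (fun k => od 1 k (r : ℤ)) (K + 1) + mn (fun k => od 1 k ((r + 2 ^ K : ℕ) : ℤ)) (K + 1))
      ≤ ∑ r ∈ range (2 ^ K), (2 * mn (fun k => od 1 k (r : ℤ)) K) := by
    apply sum_le_sum
    intro r _
    have h1 := mn_anti (fun k => od 1 k (r : ℤ)) K
    have h2 := mn_anti (fun k => od 1 k ((r + 2 ^ K : ℕ) : ℤ)) K
    have h3 : mn (fun k => od 1 k ((r + 2 ^ K : ℕ) : ℤ)) K = mn (fun k => od 1 k (r : ℤ)) K := by
      apply mn_congr
      intro k hk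
      push_cast
      exact od_shift k K hk r
    rw [h3] at h2
    linarith
  rw [← mul_sum] at h
  calc _ ≤ (2 * ∑ r ∈ range (2 ^ K), mn (fun k => od 1 k (r : ℤ)) K) * 2 ^ K :=
        mul_le_mul_of_nonneg_right h (by positivity)
    _ = _ := by rw [pow_succ]; ring

theorem kap_one : kap 1 = 2 / 3 := by
  rw [kap_res (d := 1) (by norm_num)]
  rw [pow_one, sum_range_succ, sum_range_one]
  have e0 : od 1 1 ((0 : ℕ) : ℤ) = 0 := by unfold od; simp
  have e1 : od 1 1 ((1 : ℕ) : ℤ) = 1 := by unfold od; simp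
  unfold mn mn
  rw [e0, e1]
  norm_num

/-- the potential -/
noncomputable def Ph (K : ℕ) (r : ℤ) : ℝ :=
  mn (fun k => od 1 k r) K - 3 ^ od 1 K r / 2 ^ K * mn (fun k => od 1 k r) K ^ 2

theorem Ph_step (K : ℕ) (hK : 1 ≤ K) (r : ℤ) : 2 * Ph K r ≤ Ph (K + 1) r + Ph (K + 1) (r + 2 ^ K) := by
  set m := mn (fun k => od 1 k r) K with hm
  set o := od 1 K r with ho
  set x : ℝ := 3 ^ o / 2 ^ K with hx
  have hx0 : 0 < x := by positivity
  have hm0 : 0 < m := mn_pos _ _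
  have hm1 : m ≤ 2 ^ (K - 1) / 3 ^ o := mn_le (fun k => od 1 k r) K K hK le_rfl
  have e2 : (2 : ℝ) ^ K = 2 * 2 ^ (K - 1) := by
    obtain ⟨j, rfl⟩ : ∃ j, K = j + 1 := ⟨K - 1, by omega⟩
    rw [Nat.add_sub_cancel, pow_succ]; ring
  have hm2 : 2 * x * m ≤ 1 := by
    rw [hx, e2]
    rw [le_div_iff₀ (by positivity)] at hm1
    have h2 : (0 : ℝ) < 2 ^ (K - 1) := by positivity
    have : 2 * (3 ^ o / (2 * 2 ^ (K - 1))) * m = (m * 3 ^ o) / 2 ^ (K - 1) := by field_simp
    rw [this, div_le_one h2]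
    exact hm1
  have hmK : mn (fun k => od 1 k (r + 2 ^ K)) K = m := by
    rw [hm]
    exact mn_congr K fun k hk => od_shift k K hk r
  have hoK : od 1 K (r + 2 ^ K) = o := od_shift K K le_rfl r
  have hT := (shift (d := 1) (by norm_num) K r 1).1
  rw [mul_one, mul_one] at hT
  -- value for an even child and for an odd child
  have hev : ∀ z : ℤ, mn (fun k => od 1 k z) K = m → od 1 K z = o → (Tz 1)^[K] z % 2 = 0 →
      Ph (K + 1) z = m - x / 2 * m ^ 2 := by
    intro z h1 h2 h3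
    have h4 : od 1 (K + 1) z = o := by rw [od_succ, h2, h3]; simp
    have h5 : mn (fun k => od 1 k z) (K + 1) = m := by
      unfold mn
      rw [h1, h4]
      apply min_eq_left
      rw [le_div_iff₀ (by positivity)]
      have : x * 2 ^ K = 3 ^ o := by rw [hx]; field_simp
      rw [← this]
      have h2 : (0 : ℝ) < 2 ^ K := by positivity
      nlinarith
    unfold Ph
    rw [h5, h4, pow_succ, hx]
    ring
  have hodd : ∀ z : ℤ, mn (fun k => od 1 k z) K = m → od 1 K z = o → (Tz 1)^[K] z % 2 = 1 →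
      m - 3 * x / 2 * m ^ 2 ≤ Ph (K + 1) z := by
    intro z h1 h2 h3
    have h4 : od 1 (K + 1) z = o + 1 := by rw [od_succ, h2, h3]; simp
    have h6 : (2 : ℝ) ^ K / 3 ^ (o + 1) = 1 / (3 * x) := by
      rw [hx, pow_succ]; field_simp
    have h5 : mn (fun k => od 1 k z) (K + 1) = min m (1 / (3 * x)) := by
      unfold mn
      rw [h1, h4, h6]
    have h7 : (3 : ℝ) ^ (o + 1) / 2 ^ (K + 1) = 3 * x / 2 := by
      rw [hx, pow_succ, pow_succ]; field_simp
    unfold Ph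
    rw [h5, h4, h7]
    rcases le_total m (1 / (3 * x)) with h | h
    · rw [min_eq_left h]
    · rw [min_eq_right h]
      have h8 : 1 / (3 * x) - 3 * x / 2 * (1 / (3 * x)) ^ 2 - (m - 3 * x / 2 * m ^ 2)
          = 3 * x / 2 * (m - 1 / (3 * x)) ^ 2 := by field_simp; ring
      have h9 : 0 ≤ 3 * x / 2 * (m - 1 / (3 * x)) ^ 2 := by positivity
      linarith
  have hP : Ph K r = m - x * m ^ 2 := rfl
  rw [hP]
  rcases Int.emod_two_eq_zero_or_one ((Tz 1)^[K] r) with hp | hp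
  · have h1 := hev r rfl rfl hp
    have hodd3 : (3 : ℤ) ^ od 1 K r % 2 = 1 := Int.odd_iff.1 (Odd.pow (by decide))
    have h2 := hodd (r + 2 ^ K) hmK hoK (by rw [hT]; omega)
    rw [h1]; linarith
  · have hodd3 : (3 : ℤ) ^ od 1 K r % 2 = 1 := Int.odd_iff.1 (Odd.pow (by decide))
    have h1 := hodd r rfl rfl hp
    have h2 := hev (r + 2 ^ K) hmK hoK (by rw [hT]; omega)
    rw [h2]; linarith

theorem Ph_sum : ∀ K : ℕ, 1 ≤ K → 2 ^ K / 3 ≤ ∑ r ∈ range (2 ^ K), Ph K (r : ℤ) := by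
  intro K hK
  induction K, hK using Nat.le_induction with
  | base =>
    rw [pow_one, pow_one, sum_range_succ, sum_range_one]
    have e0 : od 1 1 ((0 : ℕ) : ℤ) = 0 := by unfold od; simp
    have e1 : od 1 1 ((1 : ℕ) : ℤ) = 1 := by unfold od; simp
    unfold Ph mn mn
    rw [e0, e1]
    norm_num
  | succ K hK ih =>
    rw [sum_split K (fun r => Ph (K + 1) (r : ℤ))]
    have : ∑ r ∈ range (2 ^ K), 2 * Ph K (r : ℤ) ≤ ∑ r ∈ range (2 ^ K), (Ph (K + 1) (r : ℤ) + Ph (K + 1) ((r + 2 ^ K : ℕ) : ℤ)) := by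
      apply sum_le_sum
      intro r _
      push_cast
      exact Ph_step K hK r
    rw [← mul_sum] at this
    refine le_trans ?_ this
    rw [pow_succ]
    linarith

theorem kap_ge : ∀ K : ℕ, 1 / 3 ≤ kap K := by
  intro K
  rcases Nat.eq_zero_or_pos K with rfl | hK
  · exact le_trans (by rw [kap_one]; norm_num) (kap_anti (Nat.zero_le 1))
  · rw [kap_res (d := 1) (by norm_num), le_div_iff₀ (by positivity)]
    have h := Ph_sum K hK
    have h2 : ∑ r ∈ range (2 ^ K), Ph K (r : ℤ) ≤ ∑ r ∈ range (2 ^ K), mn (fun k => od 1 k (r : ℤ)) K := by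
      apply sum_le_sum
      intro r _
      unfold Ph
      have := mn_pos (fun k => od 1 k (r : ℤ)) K
      have h3 : 0 ≤ 3 ^ od 1 K (r : ℤ) / 2 ^ K * mn (fun k => od 1 k (r : ℤ)) K ^ 2 := by positivity
      linarith
    linarith

theorem kap_lim : ∃ κ : ℝ, Tendsto kap atTop (𝓝 κ) ∧ 1 / 3 ≤ κ ∧ κ ≤ 2 / 3 ∧ ∀ K, κ ≤ kap K := by
  have hlim := tendsto_atTop_ciInf kap_anti ⟨1 / 3, by rintro _ ⟨K, rfl⟩; exact kap_ge K⟩
  refine ⟨_, hlim, ge_of_tendsto' hlim kap_ge, ?_, fun K => ?_⟩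
  · refine le_of_tendsto hlim ?_
    filter_upwards [eventually_ge_atTop 1] with K hK
    have := kap_anti hK
    rw [kap_one] at this
    exact this
  · exact ciInf_le ⟨1 / 3, by rintro _ ⟨K, rfl⟩; exact kap_ge K⟩ K

end Pool.Agent.H623.TG
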