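import Pool.Agent.H623.TG.I

/-! Truncated graph, part J: the number of the giant components. -/

set_option autoImplicit false

namespace Pool.Agent.H623.TG

open Finset Filter Topology
open Pool.Agent.H499R2.CO (Tz)
open Pool.Agent.H499R2.ND (Inv HD Td HD_ncard dens_side class_pos HD_unique)
open Pool.Agent.W41

/-- Among the integers of sign `s` the set `S` has natural density `δ`. -/
def HasD (s : ℤ) (S : Set ℤ) (δ : ℝ) : Prop :=
  Tendsto (fun N : ℕ => ({n : ℤ | 0 < s * n ∧ s * n ≤ N ∧ n ∈ S}.ncard : ℝ) / N) atTop (𝓝 δ)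

theorem dens_ex {s : ℤ} (hs : s = 1 ∨ s = -1) {S : Set ℤ} (hS : Invt S) : ∃ δ : ℝ, HD s S δ ∧ HasD s S δ := by
  obtain ⟨δ, -, -, h⟩ := dens_side (d := 1) odd_one (by norm_num) hs (inv_Td hS)
  exact ⟨δ, h, HD_ncard hs h⟩

theorem HasD_HD {s : ℤ} (hs : s = 1 ∨ s = -1) {S : Set ℤ} (hS : Invt S) {δ : ℝ} (h : HasD s S δ) : HD s S δ := by
  obtain ⟨δ', h1, h2⟩ := dens_ex hs hS
  have : δ = δ' := tendsto_nhds_unique h h2
  rw [this]; exact h1

/-- a class contains an integer prime to `3` -/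
theorem cop_mem : ∀ (b : ℕ) (x : ℤ), x.natAbs ≤ b → x ≠ 0 → ∃ y ∈ Cls x, ¬ (3 : ℤ) ∣ y
  | 0, x, hb, hx => by omega
  | b + 1, x, hb, hx => by
    by_cases h : x % 2 = 0
    · obtain ⟨y, hy, hy3⟩ := cop_mem b (x / 2) (by omega) (by omega)
      refine ⟨y, ?_, hy3⟩
      have : x / 2 ∈ Cls x := ⟨1, 0, by rw [Function.iterate_one, C_even h]; rfl⟩
      exact Cls_trans this hy
    · refine ⟨C x, ⟨1, 0, rfl⟩, ?_⟩
      rw [C_odd h]
      omega

theorem cls_pos {s : ℤ} (hs : s = 1 ∨ s = -1) {x : ℤ} (hx : 0 < s * x) {δ : ℝ} (h : HD s (Cls x) δ) : 0 < δ := by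
  obtain ⟨y, hy, hy3⟩ := cop_mem x.natAbs x le_rfl (by rintro rfl; simp at hx)
  exact class_pos (d := 1) odd_one (by norm_num) hs (inv_Td (Cls_inv x)) hy (Cls_sign hs hx hy) hy3 h

theorem sign_side {x : ℤ} (hx : x ≠ 0) : (x.sign = 1 ∨ x.sign = -1) ∧ 0 < x.sign * x := by
  rcases lt_or_gt_of_ne hx with h | h
  · rw [Int.sign_eq_neg_one_of_neg h]; exact ⟨Or.inr rfl, by omega⟩
  · rw [Int.sign_eq_one_of_pos h]; exact ⟨Or.inl rfl, by omega⟩

/-- the densities of the classes -/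
theorem dens_fun : ∃ δ : ℤ → ℝ, ∀ x : ℤ, x ≠ 0 → 0 < δ x ∧ HD x.sign (Cls x) (δ x) ∧ HasD x.sign (Cls x) (δ x) := by
  have h : ∀ x : ℤ, ∃ δ : ℝ, x ≠ 0 → 0 < δ ∧ HD x.sign (Cls x) δ ∧ HasD x.sign (Cls x) δ := by
    intro x
    by_cases hx : x = 0
    · exact ⟨0, fun h => absurd hx h⟩
    · obtain ⟨h1, h2⟩ := sign_side hx
      obtain ⟨δ, h3, h4⟩ := dens_ex h1 (Cls_inv x)
      exact ⟨δ, fun _ => ⟨cls_pos h1 h2 h3, h3, h4⟩⟩
  choose δ hδ using h
  exact ⟨δ, hδ⟩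

/-- the components with at least `ε N` elements -/
def Giants (ε : ℝ) (N : ℕ) : Set (Set ℤ) := {A | ∃ x : ℤ, |x| ≤ N ∧ A = Comp N x ∧ ε * N ≤ A.ncard}

theorem Giants_fin (ε : ℝ) (N : ℕ) : (Giants ε N).Finite := by
  apply ((Set.finite_Icc (-(N : ℤ)) N).image (Comp N)).subset
  rintro A ⟨x, hx, rfl, _⟩
  rw [abs_le] at hx
  exact ⟨x, hx, rfl⟩

theorem Comp_zero (N : ℕ) : (Comp N 0).ncard ≤ 1 := by
  have : Comp N 0 ⊆ {0} := by
    intro y hy
    obtain ⟨i, j, h, _, _⟩ := mem_Comp.1 hy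
    rw [C_iter_zero] at h
    by_contra hne
    obtain ⟨h1, h2⟩ := sign_side (x := y) hne
    have := C_iter_sign h1 h2 j
    rw [← h] at this
    simp at this
  exact (Set.ncard_le_ncard this (Set.finite_singleton _)).trans (by simp)

/-- every giant component contains a small nonzero integer -/
theorem core {ε : ℝ} (hε : 0 < ε) : ∃ M N0 : ℕ, ∀ N : ℕ, N0 ≤ N → ∀ x : ℤ, ε * N ≤ (Comp N x).ncard →
    ∃ z ∈ Comp N x, z ≠ 0 ∧ |z| ≤ M := by
  obtain ⟨M, N0, H⟩ := tight (show 0 < ε / 2 by positivity)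
  obtain ⟨n1, hn1⟩ := exists_nat_ge (((M : ℝ) + 2) / ε)
  refine ⟨M, max N0 (max n1 1), fun N hN x hx => ?_⟩
  have c1 : N0 ≤ N := (le_max_left _ _).trans hN
  have c2 : n1 ≤ N := (le_max_left _ _).trans ((le_max_right _ _).trans hN)
  have c3 : 1 ≤ N := (le_max_right _ _).trans ((le_max_right _ _).trans hN)
  have hNR : (0 : ℝ) < N := by exact_mod_cast c3
  have h1 : (M : ℝ) + 2 ≤ ε * N := by
    have : (n1 : ℝ) ≤ N := by exact_mod_cast c2
    rw [div_le_iff₀ hε] at hn1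
    nlinarith
  have hbig : M < (Comp N x).ncard := by
    have : (M : ℝ) < (Comp N x).ncard := by linarith
    exact_mod_cast this
  have hne : (Comp N x).Nonempty := by
    rw [Set.nonempty_iff_ne_empty]
    intro h
    rw [h, Set.ncard_empty] at hbig
    omega
  obtain ⟨y0, hy0⟩ := hne
  by_contra hcon
  push Not at hcon
  have h0 : (0 : ℤ) ∉ Comp N x := by
    intro h
    have := Comp_zero N
    rw [Comp_eq h] at this
    have h2 : ((Comp N x).ncard : ℝ) ≤ 1 := by exact_mod_cast this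
    have : (0 : ℝ) ≤ M := Nat.cast_nonneg M
    linarith
  have hall : ∀ z ∈ Comp N x, (M : ℤ) < |z| := fun z hz => hcon z hz (by rintro rfl; exact h0 hz)
  have hsub : Comp N x ⊆ Odd' N M := by
    intro y hy
    refine ⟨hy.1, by rw [Comp_eq hy]; exact hbig, by rw [Comp_eq hy]; exact hall⟩
  have h2 := Set.ncard_le_ncard hsub (Odd'_fin N M)
  have h3 := H N c1
  have h4 : ((Comp N x).ncard : ℝ) ≤ (Odd' N M).ncard := by exact_mod_cast h2
  nlinarith

/-- for large `N` the relations between the small integers are those of their classes -/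
theorem Mt_small (M : ℕ) : ∃ N0 : ℕ, ∀ N : ℕ, N0 ≤ N → ∀ z w : ℤ, |z| ≤ M → |w| ≤ M → w ∈ Cls z → Mt N z w := by
  have h : ∀ p : ℤ × ℤ, ∃ n : ℕ, p.2 ∈ Cls p.1 → ∀ N ≥ n, Mt N p.1 p.2 := by
    intro p
    by_cases h : p.2 ∈ Cls p.1
    · obtain ⟨n, hn⟩ := Mt_large h
      exact ⟨n, fun _ => hn⟩
    · exact ⟨0, fun h' => absurd h' h⟩
  choose n hn using h
  refine ⟨(Icc (-(M : ℤ)) M ×ˢ Icc (-(M : ℤ)) M).sup n, fun N hN z w hz hw h => ?_⟩
  apply hn (z, w) h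
  refine le_trans ?_ hN
  rw [abs_le] at hz hw
  exact Finset.le_sup (f := n) (mem_product.2 ⟨mem_Icc.2 hz, mem_Icc.2 hw⟩)

theorem image_ncard {α β γ : Type*} (R : Set α) (f : α → β) (g : α → γ)
    (h : ∀ a ∈ R, ∀ b ∈ R, (f a = f b ↔ g a = g b)) : (f '' R).ncard = (g '' R).ncard := by
  classical
  have hch : ∀ y : f '' R, ∃ a ∈ R, f a = y := fun y => y.2
  choose c hc1 hc2 using hch
  refine Set.ncard_congr (fun y hy => g (c ⟨y, hy⟩)) ?_ ?_ ?_
  · intro y hy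
    exact ⟨_, hc1 ⟨y, hy⟩, rfl⟩
  · intro y y' hy hy' heq
    have h1 := (h _ (hc1 ⟨y, hy⟩) _ (hc1 ⟨y', hy'⟩)).2 heq
    rw [hc2, hc2] at h1
    exact h1
  · rintro z ⟨a, ha, rfl⟩
    refine ⟨f a, ⟨a, ha, rfl⟩, ?_⟩
    apply (h _ (hc1 _) _ ha).1
    rw [hc2]

section
variable {κ : ℝ} (hκ : Tendsto kap atTop (𝓝 κ)) {δ : ℤ → ℝ} (hδ : ∀ x : ℤ, x ≠ 0 → 0 < δ x ∧ HD x.sign (Cls x) (δ x) ∧ HasD x.sign (Cls x) (δ x))
include hκ hδ

theorem size' (x : ℤ) (hx : x ≠ 0) : Tendsto (fun N : ℕ => ((Comp N x).ncard : ℝ) / N) atTop (𝓝 (κ * δ x)) := by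
  obtain ⟨h1, h2⟩ := sign_side hx
  exact size h1 hκ h2 (hδ x hx).2.1

theorem ev_ge {x : ℤ} (hx : x ≠ 0) {ε : ℝ} (h : ε < κ * δ x) : ∀ᶠ N : ℕ in atTop, ε * N ≤ (Comp N x).ncard := by
  filter_upwards [(size' hκ hδ x hx).eventually (lt_mem_nhds h), eventually_ge_atTop 1] with N h1 h2
  have hNR : (0 : ℝ) < N := by exact_mod_cast h2
  rw [lt_div_iff₀ hNR] at h1
  exact h1.le

theorem ev_lt {x : ℤ} (hx : x ≠ 0) {ε : ℝ} (h : κ * δ x < ε) : ∀ᶠ N : ℕ in atTop, ((Comp N x).ncard : ℝ) < ε * N := by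
  filter_upwards [(size' hκ hδ x hx).eventually (gt_mem_nhds h), eventually_ge_atTop 1] with N h1 h2
  have hNR : (0 : ℝ) < N := by exact_mod_cast h2
  rwa [div_lt_iff₀ hNR] at h1

theorem delta_cls {x y : ℤ} (hx : x ≠ 0) (h : y ∈ Cls x) : y ≠ 0 ∧ δ y = δ x := by
  obtain ⟨h1, h2⟩ := sign_side hx
  have h3 := Cls_sign h1 h2 h
  have hy : y ≠ 0 := by rintro rfl; simp at h3
  refine ⟨hy, ?_⟩
  have h4 := (hδ x hx).2.1
  have h5 := (hδ y hy).2.1
  rw [Cls_eq h] at h5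
  have h6 : y.sign = x.sign := by
    rcases h1 with h1 | h1
    · rw [h1] at h3 ⊢
      exact Int.sign_eq_one_of_pos (by omega)
    · rw [h1] at h3 ⊢
      exact Int.sign_eq_neg_one_of_neg (by omega)
  rw [h6] at h5
  exact HD_unique h5 h4

/-- THE NUMBER OF THE GIANT COMPONENTS -/
theorem count {ε : ℝ} (hε : 0 < ε) (hgen : ∀ x : ℤ, x ≠ 0 → κ * δ x ≠ ε) :
    {A : Set ℤ | ∃ x : ℤ, x ≠ 0 ∧ A = Cls x ∧ ε < κ * δ x}.Finite ∧
    ∀ᶠ N : ℕ in atTop, (Giants ε N).ncard = {A : Set ℤ | ∃ x : ℤ, x ≠ 0 ∧ A = Cls x ∧ ε < κ * δ x}.ncard := by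
  obtain ⟨M, N0, H⟩ := core hε
  set R : Set ℤ := {z | z ≠ 0 ∧ |z| ≤ M ∧ ε < κ * δ z} with hR
  have hRfin : R.Finite := by
    apply (Set.finite_Icc (-(M : ℤ)) M).subset
    rintro z ⟨_, h, _⟩
    rwa [abs_le] at h
  have hcls : {A : Set ℤ | ∃ x : ℤ, x ≠ 0 ∧ A = Cls x ∧ ε < κ * δ x} = Cls '' R := by
    ext A
    constructor
    · rintro ⟨x, hx, rfl, h⟩
      obtain ⟨N, h1, h2⟩ := ((ev_ge hκ hδ hx h).and (eventually_ge_atTop N0)).exists
      obtain ⟨z, hz, hz0, hzM⟩ := H N h2 x h1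
      have hzc := Mt_Cls (mem_Comp.1 hz)
      refine ⟨z, ⟨hz0, hzM, ?_⟩, Cls_eq hzc⟩
      rw [(delta_cls hκ hδ hx hzc).2]; exact h
    · rintro ⟨z, ⟨hz0, _, h⟩, rfl⟩
      exact ⟨z, hz0, rfl, h⟩
  refine ⟨by rw [hcls]; exact hRfin.image _, ?_⟩
  obtain ⟨N1, H1⟩ := Mt_small M
  have hev : ∀ᶠ N : ℕ in atTop, ∀ z ∈ Icc (-(M : ℤ)) M, z ≠ 0 → ((ε < κ * δ z → ε * N ≤ (Comp N z).ncard) ∧
      (κ * δ z < ε → ((Comp N z).ncard : ℝ) < ε * N)) := by
    rw [Finset.eventually_all]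
    intro z _
    by_cases hz : z = 0
    · exact Eventually.of_forall fun N h => absurd hz h
    · rcases lt_trichotomy (κ * δ z) ε with h | h | h
      · filter_upwards [ev_lt hκ hδ hz h] with N hN _
        exact ⟨fun h' => absurd h' (not_lt.2 h.le), fun _ => hN⟩
      · exact absurd h (hgen z hz)
      · filter_upwards [ev_ge hκ hδ hz h] with N hN _
        exact ⟨fun _ => hN, fun h' => absurd h' (not_lt.2 h.le)⟩
  filter_upwards [hev, eventually_ge_atTop (max N0 (max N1 M))] with N h1 h2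
  have c0 : N0 ≤ N := (le_max_left _ _).trans h2
  have c1 : N1 ≤ N := (le_max_left _ _).trans ((le_max_right _ _).trans h2)
  have c2 : M ≤ N := (le_max_right _ _).trans ((le_max_right _ _).trans h2)
  have hG : Giants ε N = Comp N '' R := by
    ext A
    constructor
    · rintro ⟨x, hx, rfl, h⟩
      obtain ⟨z, hz, hz0, hzM⟩ := H N c0 x h
      refine ⟨z, ⟨hz0, hzM, ?_⟩, Comp_eq hz⟩
      rcases lt_trichotomy (κ * δ z) ε with h' | h' | h'
      · exfalso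
        have := (h1 z (by rw [abs_le] at hzM; exact mem_Icc.2 hzM) hz0).2 h'
        rw [Comp_eq hz] at this
        linarith
      · exact absurd h' (hgen z hz0)
      · exact h'
    · rintro ⟨z, ⟨hz0, hzM, h⟩, rfl⟩
      refine ⟨z, hzM.trans (by exact_mod_cast c2), rfl, ?_⟩
      exact (h1 z (by rw [abs_le] at hzM; exact mem_Icc.2 hzM) hz0).1 h
  rw [hG, hcls]
  apply image_ncard
  intro a ha b hb
  constructor
  · intro h
    have hb' : b ∈ Comp N a := by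
      rw [h]; exact self_mem (hb.2.1.trans (by exact_mod_cast c2))
    exact (Cls_eq (Mt_Cls (mem_Comp.1 hb'))).symm
  · intro h
    have : b ∈ Cls a := by rw [h]; exact Cls_self b
    exact (Comp_eq (mem_Comp.2 (H1 N c1 a b ha.2.1 hb.2.1 this))).symm

/-- if all classes of nonzero integers are among those of the elements of `F`, then each giant is one of the components of
the elements of `F` -/
theorem giants_sub (F : Finset ℤ) (P : ℤ → Prop) (hP : ∀ x y : ℤ, y ∈ Cls x → P x → P y)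
    (hF : ∀ x : ℤ, x ≠ 0 → P x → ∃ c ∈ F, x ∈ Cls c) {ε : ℝ} (hε : 0 < ε) :
    ∀ᶠ N : ℕ in atTop, {A | A ∈ Giants ε N ∧ ∃ x ∈ A, P x}.ncard ≤ F.card := by
  obtain ⟨M, N0, H⟩ := core hε
  set M' : ℕ := max M (F.sup Int.natAbs) with hM'
  obtain ⟨N1, H1⟩ := Mt_small M'
  filter_upwards [eventually_ge_atTop (max N0 N1)] with N h2
  have c0 : N0 ≤ N := (le_max_left _ _).trans h2
  have c1 : N1 ≤ N := (le_max_right _ _).trans h2
  have hsub : {A | A ∈ Giants ε N ∧ ∃ x ∈ A, P x} ⊆ Comp N '' (F : Set ℤ) := by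
    rintro A ⟨⟨x, hx, rfl, h⟩, y, hy, hPy⟩
    obtain ⟨z, hz, hz0, hzM⟩ := H N c0 x h
    have hzy : z ∈ Cls y := Mt_Cls (Mt_trans (Mt_symm (mem_Comp.1 hy)) (mem_Comp.1 hz))
    obtain ⟨c, hc, hzc⟩ := hF z hz0 (hP y z hzy hPy)
    refine ⟨c, hc, ?_⟩
    have h3 : |z| ≤ M' := hzM.trans (by exact_mod_cast le_max_left _ _)
    have h4 : |c| ≤ M' := by
      rw [abs_nat]
      exact_mod_cast (Finset.le_sup (f := Int.natAbs) hc).trans (le_max_right _ _)
    have h5 := H1 N c1 c z h4 h3 hzc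
    rw [← Comp_eq hz]
    exact (Comp_eq (mem_Comp.2 h5)).symm
  calc _ ≤ (Comp N '' (F : Set ℤ)).ncard := Set.ncard_le_ncard hsub ((Finset.finite_toSet F).image _)
    _ ≤ (F : Set ℤ).ncard := Set.ncard_image_le (Finset.finite_toSet F)
    _ = F.card := Set.ncard_coe_finset F

/-- pairwise different classes give different giants -/
theorem giants_ge (F : Finset ℤ) (h0 : ∀ x ∈ F, x ≠ 0) (hF : ∀ x ∈ F, ∀ y ∈ F, y ∈ Cls x → x = y) (hκ0 : 0 < κ) :
    ∃ ε : ℝ, 0 < ε ∧ ∀ᶠ N : ℕ in atTop, F.card ≤ {A | A ∈ Giants ε N ∧ ∃ x ∈ F, x ∈ A}.ncard := by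
  classical
  rcases F.eq_empty_or_nonempty with rfl | hne
  · exact ⟨1, one_pos, Eventually.of_forall fun N => by simp⟩
  set m : ℝ := F.inf' hne (fun x => κ * δ x) with hm
  have hm0 : 0 < m := by
    rw [hm, Finset.lt_inf'_iff]
    intro x hx
    exact mul_pos hκ0 (hδ x (h0 x hx)).1
  refine ⟨m / 2, by positivity, ?_⟩
  have hev : ∀ᶠ N : ℕ in atTop, ∀ x ∈ F, m / 2 * N ≤ (Comp N x).ncard := by
    rw [Finset.eventually_all]
    intro x hx
    apply ev_ge hκ hδ (h0 x hx)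
    have : m ≤ κ * δ x := Finset.inf'_le _ hx
    linarith
  filter_upwards [hev, eventually_ge_atTop (F.sup Int.natAbs)] with N h1 h2
  have hN : ∀ x ∈ F, |x| ≤ N := by
    intro x hx
    rw [abs_nat]
    exact_mod_cast (Finset.le_sup (f := Int.natAbs) hx).trans h2
  have hsub : Comp N '' (F : Set ℤ) ⊆ {A | A ∈ Giants (m / 2) N ∧ ∃ x ∈ F, x ∈ A} := by
    rintro A ⟨x, hx, rfl⟩
    exact ⟨⟨x, hN x hx, rfl, h1 x hx⟩, x, hx, self_mem (hN x hx)⟩
  have hinj : Set.InjOn (Comp N) (F : Set ℤ) := by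
    intro a ha b hb h
    apply hF a ha b hb
    have hb' : b ∈ Comp N a := by
      rw [h]; exact self_mem (hN b hb)
    exact Mt_Cls (mem_Comp.1 hb')
  calc F.card = (F : Set ℤ).ncard := (Set.ncard_coe_finset F).symm
    _ = (Comp N '' (F : Set ℤ)).ncard := (Set.ncard_image_of_injOn hinj).symm
    _ ≤ _ := Set.ncard_le_ncard hsub ((Giants_fin (m / 2) N).subset fun A hA => hA.1)

end

/-! ### the words -/

theorem mn_inf {K : ℕ} (w : Fin (K + 1) → Bool) : mn (on w) (K + 1) =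
    Finset.univ.inf' Finset.univ_nonempty (fun k : Fin (K + 1) => (2 : ℝ) ^ (k : ℕ) /
      3 ^ ((Finset.univ : Finset (Fin (K + 1))).filter (fun i => i ≤ k ∧ w i = true)).card) := by
  have e : ∀ k : Fin (K + 1), on w (k.val + 1) = ((Finset.univ : Finset (Fin (K + 1))).filter (fun i => i ≤ k ∧ w i = true)).card := by
    intro k
    unfold on
    congr 1
    ext i
    simp only [mem_filter, mem_univ, true_and, Fin.le_def]
    constructor <;> rintro ⟨h1, h2⟩ <;> exact ⟨by omega, h2⟩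
  apply le_antisymm
  · rw [Finset.le_inf'_iff]
    intro k _
    rw [← e k]
    exact mn_le (on w) (K + 1) (k.val + 1) (by omega) (by omega)
  · apply le_mn
    · refine (Finset.inf'_le _ (mem_univ (0 : Fin (K + 1)))).trans ?_
      simp only [Fin.val_zero, pow_zero]
      rw [div_le_one (by positivity)]
      exact one_le_pow₀ (by norm_num)
    · intro k h1 h2
      refine (Finset.inf'_le _ (mem_univ (⟨k - 1, by omega⟩ : Fin (K + 1)))).trans ?_
      rw [← e]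
      simp only
      rw [Nat.sub_add_cancel h1]

end Pool.Agent.H623.TG
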