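import Pool.Graph.R_seed8.R105.CZ.Thin
import Pool.Graph.R_seed8.W41.FU8

/-! Truncated graph, part A: parities and affine form of the iterates of the accelerated `3x+d` map. -/

set_option autoImplicit false

namespace Pool.Agent.H623.TG

open Finset
open Pool.Agent.H499R2.CO (Tz)
open Pool.Agent.R344.SP (od od_succ od_le)
open Pool.Agent.R344.TH (Tz_even Tz_odd)

/-- shift by a multiple of `2 ^ k` -/
theorem shift {d : ℤ} (hd : d % 2 = 1) : ∀ (k : ℕ) (x u : ℤ),
    (Tz d)^[k] (x + 2 ^ k * u) = (Tz d)^[k] x + 3 ^ od d k x * u ∧ od d k (x + 2 ^ k * u) = od d k x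
  | 0, x, u => by simp [od]
  | k + 1, x, u => by
    obtain ⟨h1, h2⟩ := shift hd k x (2 * u)
    have e : x + 2 ^ (k + 1) * u = x + 2 ^ k * (2 * u) := by ring
    rw [e, Function.iterate_succ_apply', Function.iterate_succ_apply', h1, od_succ, od_succ, h1, h2]
    set y := (Tz d)^[k] x with hy
    have e2 : (y + 3 ^ od d k x * (2 * u)) % 2 = y % 2 := by
      have : y + 3 ^ od d k x * (2 * u) = y + 2 * (3 ^ od d k x * u) := by ring
      rw [this]; omega
    refine ⟨?_, by rw [e2]⟩
    by_cases hp : y % 2 = 0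
    · have a1 := Tz_even (d := d) hp
      have a2 := Tz_even (d := d) (y := y + 3 ^ od d k x * (2 * u)) (by rw [e2]; exact hp)
      rw [hp]
      simp only [Int.toNat_zero, add_zero]
      linarith
    · have a1 := Tz_odd hd hp
      have a2 := Tz_odd hd (y := y + 3 ^ od d k x * (2 * u)) (by rw [e2]; exact hp)
      have hp1 : y % 2 = 1 := by omega
      rw [hp1, Int.toNat_one, pow_succ]
      linarith

/-- equal parities force congruence -/
theorem par_inj {d : ℤ} (hd : d % 2 = 1) : ∀ (k : ℕ) (x y : ℤ),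
    (∀ i < k, (Tz d)^[i] x % 2 = (Tz d)^[i] y % 2) → ∃ u : ℤ, y = x + 2 ^ k * u
  | 0, x, y, _ => ⟨y - x, by ring⟩
  | k + 1, x, y, h => by
    obtain ⟨u, hu⟩ := par_inj hd k x y (fun i hi => h i (by omega))
    have h1 := h k (by omega)
    rw [hu, (shift hd k x u).1] at h1
    have h2 : (3 ^ od d k x * u) % 2 = 0 := by omega
    have h3 : (2 : ℤ) ∣ 3 ^ od d k x * u := Int.dvd_of_emod_eq_zero h2
    have h4 : (2 : ℤ) ∣ u := by
      apply IsCoprime.dvd_of_dvd_mul_left _ h3
      apply IsCoprime.pow_right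
      exact ⟨-1, 1, by norm_num⟩
    obtain ⟨v, rfl⟩ := h4
    exact ⟨v, by rw [hu, pow_succ]; ring⟩

/-- the affine form -/
theorem aff {d : ℤ} (hd : d % 2 = 1) (x : ℤ) : ∀ k : ℕ,
    |(2 : ℝ) ^ k * (((Tz d)^[k] x : ℤ) : ℝ) - 3 ^ od d k x * x| ≤ |(d : ℝ)| * (3 ^ od d k x * (2 ^ k - 1))
  | 0 => by simp [od]
  | k + 1 => by
    have ih := aff hd x k
    rw [Function.iterate_succ_apply', od_succ]
    set y := (Tz d)^[k] x with hy
    have hd0 := abs_nonneg (d : ℝ)
    have h2k : (1 : ℝ) ≤ 2 ^ k := one_le_pow₀ (by norm_num)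
    have h3k : (1 : ℝ) ≤ 3 ^ od d k x := one_le_pow₀ (by norm_num)
    by_cases hp : y % 2 = 0
    · have a1 := Tz_even (d := d) hp
      have a2 : 2 * ((Tz d y : ℤ) : ℝ) = y := by exact_mod_cast a1
      rw [hp]
      simp only [Int.toNat_zero, add_zero]
      have e : (2 : ℝ) ^ (k + 1) * ((Tz d y : ℤ) : ℝ) = 2 ^ k * y := by rw [pow_succ]; rw [← a2]; ring
      rw [e]
      refine ih.trans ?_
      apply mul_le_mul_of_nonneg_left _ hd0
      apply mul_le_mul_of_nonneg_left _ (by positivity)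
      rw [pow_succ]; linarith
    · have a1 := Tz_odd hd hp
      have a2 : 2 * ((Tz d y : ℤ) : ℝ) = 3 * y + d := by exact_mod_cast a1
      have hp1 : y % 2 = 1 := by omega
      rw [hp1, Int.toNat_one]
      have e : (2 : ℝ) ^ (k + 1) * ((Tz d y : ℤ) : ℝ) - 3 ^ (od d k x + 1) * x
          = 3 * (2 ^ k * y - 3 ^ od d k x * x) + 2 ^ k * d := by
        rw [pow_succ, mul_assoc, a2, pow_succ]; ring
      rw [e]
      refine (abs_add_le _ _).trans ?_
      rw [abs_mul, abs_mul, abs_of_pos (show (0 : ℝ) < 3 by norm_num), abs_of_pos (show (0 : ℝ) < 2 ^ k by positivity)]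
      have h5 : 3 * |(2 : ℝ) ^ k * y - 3 ^ od d k x * x| ≤ 3 * (|(d : ℝ)| * (3 ^ od d k x * (2 ^ k - 1))) := by linarith
      have h6 : (2 : ℝ) ^ k * |(d : ℝ)| ≤ |(d : ℝ)| * (3 * 3 ^ od d k x * 2 ^ k) := by
        have : (2 : ℝ) ^ k ≤ 3 * 3 ^ od d k x * 2 ^ k := by nlinarith
        calc (2 : ℝ) ^ k * |(d : ℝ)| = |(d : ℝ)| * 2 ^ k := by ring
          _ ≤ _ := mul_le_mul_of_nonneg_left this hd0
      have h7 : |(d : ℝ)| * (3 ^ (od d k x + 1) * (2 ^ (k + 1) - 1))
          = 3 * (|(d : ℝ)| * (3 ^ od d k x * (2 ^ k - 1))) + |(d : ℝ)| * (3 * 3 ^ od d k x * 2 ^ k) := by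
        rw [pow_succ, pow_succ]; ring
      rw [h7]
      linarith

theorem iter_le {d : ℤ} (hd : d % 2 = 1) (x : ℤ) (k : ℕ) :
    (((Tz d)^[k] x : ℤ) : ℝ) ≤ 3 ^ od d k x * (x / 2 ^ k + |(d : ℝ)|) := by
  have h := (abs_le.1 (aff hd x k)).2
  have h2 : (0 : ℝ) < 2 ^ k := by positivity
  have h3 : (0 : ℝ) < 3 ^ od d k x := by positivity
  have hd0 := abs_nonneg (d : ℝ)
  have e : (3 : ℝ) ^ od d k x * (x / 2 ^ k + |(d : ℝ)|) = (3 ^ od d k x * x + |(d : ℝ)| * (3 ^ od d k x * 2 ^ k)) / 2 ^ k := by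
    field_simp
  rw [e, le_div_iff₀ h2]
  have h4 : |(d : ℝ)| * (3 ^ od d k x * (2 ^ k - 1)) ≤ |(d : ℝ)| * (3 ^ od d k x * 2 ^ k) := by
    apply mul_le_mul_of_nonneg_left _ hd0
    apply mul_le_mul_of_nonneg_left _ h3.le
    linarith
  linarith

/-- the smallest of `1` and `2 ^ (k-1) / 3 ^ (o k)`, `1 ≤ k ≤ K` -/
noncomputable def mn (o : ℕ → ℕ) : ℕ → ℝ
  | 0 => 1
  | K + 1 => min (mn o K) (2 ^ K / 3 ^ o (K + 1))

theorem mn_pos (o : ℕ → ℕ) : ∀ K, 0 < mn o K
  | 0 => one_pos
  | K + 1 => lt_min (mn_pos o K) (by positivity)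

theorem mn_le_one (o : ℕ → ℕ) : ∀ K, mn o K ≤ 1
  | 0 => le_rfl
  | K + 1 => (min_le_left _ _).trans (mn_le_one o K)

theorem mn_anti (o : ℕ → ℕ) (K : ℕ) : mn o (K + 1) ≤ mn o K := min_le_left _ _

theorem mn_le (o : ℕ → ℕ) : ∀ (K k : ℕ), 1 ≤ k → k ≤ K → mn o K ≤ 2 ^ (k - 1) / 3 ^ o k
  | 0, k, h1, h2 => by omega
  | K + 1, k, h1, h2 => by
    rcases Nat.lt_or_ge k (K + 1) with h | h
    · exact (min_le_left _ _).trans (mn_le o K k h1 (by omega))
    · have : k = K + 1 := by omega
      subst this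
      exact min_le_right _ _

theorem le_mn (o : ℕ → ℕ) {c : ℝ} (hc : c ≤ 1) : ∀ (K : ℕ), (∀ k, 1 ≤ k → k ≤ K → c ≤ 2 ^ (k - 1) / 3 ^ o k) → c ≤ mn o K
  | 0, _ => hc
  | K + 1, h => le_min (le_mn o hc K fun k h1 h2 => h k h1 (by omega)) (h (K + 1) (by omega) le_rfl)

theorem mn_congr {o o' : ℕ → ℕ} : ∀ (K : ℕ), (∀ k ≤ K, o k = o' k) → mn o K = mn o' K
  | 0, _ => rfl
  | K + 1, h => by
    unfold mn
    rw [mn_congr K (fun k hk => h k (by omega)), h (K + 1) le_rfl]

theorem mn_ge_pow {o : ℕ → ℕ} (ho : ∀ k, o k ≤ k) (K : ℕ) : (1 / 3 : ℝ) ^ K ≤ mn o K := by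
  apply le_mn
  · exact pow_le_one₀ (by norm_num) (by norm_num)
  · intro k h1 h2
    rw [le_div_iff₀ (by positivity), one_div, inv_pow]
    have h3 : (3 : ℝ) ^ o k ≤ 3 ^ K := pow_le_pow_right₀ (by norm_num) ((ho k).trans h2)
    have h4 : (1 : ℝ) ≤ 2 ^ (k - 1) := one_le_pow₀ (by norm_num)
    have h5 : (0 : ℝ) < 3 ^ K := by positivity
    rw [inv_mul_le_iff₀ h5]
    nlinarith

/-- the words as functions, and the number of ones among the first `k` letters -/
def on {K : ℕ} (w : Fin K → Bool) (k : ℕ) : ℕ := ((univ : Finset (Fin K)).filter (fun i => i.val < k ∧ w i = true)).card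

theorem on_le {K : ℕ} (w : Fin K → Bool) (k : ℕ) : on w k ≤ k := by
  unfold on
  calc _ ≤ ((univ : Finset (Fin K)).filter (fun i => i.val < k)).card := by
        apply card_le_card
        intro i hi
        rw [mem_filter] at hi ⊢
        exact ⟨hi.1, hi.2.1⟩
    _ = (((univ : Finset (Fin K)).filter (fun i => i.val < k)).image Fin.val).card := by
        rw [card_image_of_injective _ Fin.val_injective]
    _ ≤ (range k).card := by
        apply card_le_card
        intro i hi
        rw [mem_image] at hi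
        obtain ⟨j, hj, rfl⟩ := hi
        rw [mem_filter] at hj
        exact mem_range.2 hj.2
    _ = k := card_range k

/-- the word of a residue -/
def wo (d : ℤ) (K : ℕ) (x : ℤ) : Fin K → Bool := fun i => decide ((Tz d)^[i.val] x % 2 = 1)

theorem on_wo (d : ℤ) (K : ℕ) (x : ℤ) : ∀ k ≤ K, on (wo d K x) k = od d k x := by
  intro k
  induction k with
  | zero =>
    intro _
    unfold on od
    simp
  | succ k ih =>
    intro hk
    rw [od_succ, ← ih (by omega)]
    unfold on
    have e : (univ : Finset (Fin K)).filter (fun i => i.val < k + 1 ∧ wo d K x i = true)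
        = (univ : Finset (Fin K)).filter (fun i => i.val < k ∧ wo d K x i = true) ∪
          (if (Tz d)^[k] x % 2 = 1 then {⟨k, by omega⟩} else ∅) := by
      ext i
      rw [mem_union, mem_filter, mem_filter]
      constructor
      · rintro ⟨_, h1, h2⟩
        rcases Nat.lt_or_ge i.val k with h | h
        · exact Or.inl ⟨mem_univ _, h, h2⟩
        · right
          have hik : i.val = k := by omega
          unfold wo at h2
          rw [hik] at h2
          rw [if_pos (by simpa using h2), mem_singleton]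
          exact Fin.ext hik
      · rintro (⟨_, h1, h2⟩ | h)
        · exact ⟨mem_univ _, by omega, h2⟩
        · split_ifs at h with hp
          · rw [mem_singleton] at h
            subst h
            refine ⟨mem_univ _, Nat.lt_succ_self k, ?_⟩
            unfold wo
            simpa using hp
          · exact absurd h (Finset.notMem_empty _)
    rw [e, card_union_of_disjoint]
    · congr 1
      split_ifs with hp
      · rw [hp]; simp
      · have : (Tz d)^[k] x % 2 = 0 := by omega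
        rw [this]; simp
    · rw [disjoint_left]
      intro i hi hi2
      rw [mem_filter] at hi
      split_ifs at hi2 with hp
      · rw [mem_singleton] at hi2
        rw [hi2] at hi
        exact absurd hi.2.1 (lt_irrefl _)
      · exact absurd hi2 (Finset.notMem_empty _)

/-- sums over residues are sums over words -/
theorem sum_words {d : ℤ} (hd : d % 2 = 1) (K : ℕ) (F : (Fin K → Bool) → ℝ) :
    ∑ r ∈ range (2 ^ K), F (wo d K (r : ℤ)) = ∑ w : Fin K → Bool, F w := by
  have hinj : Set.InjOn (fun r : ℕ => wo d K (r : ℤ)) (range (2 ^ K) : Set ℕ) := by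
    intro a ha b hb hab
    rw [coe_range, Set.mem_Iio] at ha hb
    simp only at hab
    obtain ⟨u, hu⟩ := par_inj hd K (a : ℤ) (b : ℤ) (fun i hi => by
      have h1 := congrFun hab ⟨i, hi⟩
      unfold wo at h1
      simp only [decide_eq_decide] at h1
      omega)
    have h2 : u = 0 := by
      have ha' : (a : ℤ) < 2 ^ K := by exact_mod_cast ha
      have hb' : (b : ℤ) < 2 ^ K := by exact_mod_cast hb
      have ha0 : (0 : ℤ) ≤ a := Int.natCast_nonneg a
      have hb0 : (0 : ℤ) ≤ b := Int.natCast_nonneg b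
      have h2K : (0 : ℤ) < 2 ^ K := by positivity
      by_contra hne
      rcases lt_or_gt_of_ne hne with h | h
      · have : (2 : ℤ) ^ K * u ≤ 2 ^ K * (-1) := mul_le_mul_of_nonneg_left (by omega) h2K.le
        linarith
      · have : (2 : ℤ) ^ K * 1 ≤ 2 ^ K * u := mul_le_mul_of_nonneg_left (by omega) h2K.le
        linarith
    rw [h2, mul_zero, add_zero] at hu
    exact_mod_cast hu.symm
  have himg : (range (2 ^ K)).image (fun r : ℕ => wo d K (r : ℤ)) = univ := by
    apply eq_of_subset_of_card_le (subset_univ _)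
    rw [card_image_of_injOn hinj, card_range, card_univ, Fintype.card_fun, Fintype.card_bool, Fintype.card_fin]
  rw [← himg, sum_image hinj]

/-- the mean over the words of length `K` -/
noncomputable def kap (K : ℕ) : ℝ := (∑ w : Fin K → Bool, mn (on w) K) / 2 ^ K

theorem kap_res {d : ℤ} (hd : d % 2 = 1) (K : ℕ) :
    kap K = (∑ r ∈ range (2 ^ K), mn (fun k => od d k (r : ℤ)) K) / 2 ^ K := by
  unfold kap
  rw [← sum_words hd K (fun w => mn (on w) K)]
  congr 1
  apply sum_congr rfl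
  intro r _
  exact mn_congr K (on_wo d K (r : ℤ))

end Pool.Agent.H623.TG
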