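import Pool.Agent.H623.TG.B

/-! Truncated graph, part C: invariant sets in residue classes, uniformly. -/

set_option autoImplicit false

namespace Pool.Agent.H623.TG

open Finset Filter Topology
open Pool.Agent.H499R2.CO (Tz)
open Pool.Agent.H499R2.ND (Inv HD)
open Pool.Agent.W41 Pool.Agent.W41.FU

theorem ortho {q : ℕ} (hq : 0 < q) (m : ℤ) :
    ∑ j ∈ range q, ee ((j : ℝ) / q) m = if (q : ℤ) ∣ m then (q : ℂ) else 0 := by
  have hqR : (q : ℝ) ≠ 0 := by exact_mod_cast hq.ne'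
  have hqC : (q : ℂ) ≠ 0 := by exact_mod_cast hq.ne'
  set z : ℂ := Complex.exp (2 * Real.pi * Complex.I * (m / q)) with hz
  have e : ∀ j ∈ range q, ee ((j : ℝ) / q) m = z ^ j := by
    intro j _
    unfold ee
    rw [hz, ← Complex.exp_nat_mul]
    congr 1
    push_cast
    field_simp
  rw [sum_congr rfl e]
  split_ifs with h
  · obtain ⟨t, rfl⟩ := h
    have h1 : z = 1 := by
      rw [hz]
      rw [Complex.exp_eq_one_iff]
      refine ⟨t, ?_⟩
      push_cast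
      field_simp
    rw [h1]
    simp
  · have h1 : z ≠ 1 := by
      intro h1
      rw [hz, Complex.exp_eq_one_iff] at h1
      obtain ⟨t, ht⟩ := h1
      apply h
      refine ⟨t, ?_⟩
      have h2 : (2 * Real.pi * Complex.I : ℂ) ≠ 0 := Complex.two_pi_I_ne_zero
      have h3 : (m : ℂ) / q = t := by
        have : (2 * Real.pi * Complex.I : ℂ) * (m / q) = (2 * Real.pi * Complex.I) * t := by rw [ht]; ring
        exact mul_left_cancel₀ h2 this
      rw [div_eq_iff hqC] at h3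
      have h4 : (m : ℂ) = ((t * q : ℤ) : ℂ) := by rw [h3]; push_cast; ring
      have h5 : m = t * q := by exact_mod_cast h4
      rw [h5]; ring
    have h2 : z ^ q = 1 := by
      rw [hz, ← Complex.exp_nat_mul, Complex.exp_eq_one_iff]
      refine ⟨m, ?_⟩
      field_simp
    rw [geom_sum_eq h1, h2, sub_self, zero_div]

theorem res_bal {s : ℤ} (hs : s = 1 ∨ s = -1) {q : ℕ} (hq : 0 < q) {ε : ℝ} (hε : 0 < ε) : ∃ N0 : ℕ, 1 ≤ N0 ∧
    ∀ S : Set ℤ, Inv 1 S → ∀ δ : ℝ, HD s S δ → ∀ N : ℕ, N0 ≤ N → ∀ r : ℤ,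
      |∑ n ∈ Icc 1 N, (if (q : ℤ) ∣ (n : ℕ) - r then bal s S δ (n : ℕ) else 0)| ≤ ε * N := by
  obtain ⟨N0, hN0, H⟩ := fourier_inv hs (show 0 < min ε 1 from lt_min hε one_pos) (min_le_right _ _)
  refine ⟨N0, hN0, fun S hS δ hδ N hN r => ?_⟩
  have hqR : (0 : ℝ) < q := by exact_mod_cast hq
  have hqC : (q : ℂ) ≠ 0 := by exact_mod_cast hq.ne'
  have key : ((∑ n ∈ Icc 1 N, (if (q : ℤ) ∣ (n : ℕ) - r then bal s S δ (n : ℕ) else 0) : ℝ) : ℂ) * q
      = ∑ j ∈ range q, ee ((j : ℝ) / q) (-r) * EE (bal s S δ) N ((j : ℝ) / q) := by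
    unfold EE
    push_cast
    rw [sum_mul]
    simp_rw [mul_sum]
    rw [sum_comm]
    apply sum_congr rfl
    intro n _
    have h1 := ortho hq ((n : ℤ) - r)
    have h2 : ∑ j ∈ range q, ee ((j : ℝ) / q) (-r) * ((bal s S δ (n : ℕ) : ℂ) * ee ((j : ℝ) / q) (n : ℕ))
        = (bal s S δ (n : ℕ) : ℂ) * ∑ j ∈ range q, ee ((j : ℝ) / q) ((n : ℤ) - r) := by
      rw [mul_sum]
      apply sum_congr rfl
      intro j _
      rw [sub_eq_add_neg, ee_add]
      ring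
    rw [h2, h1]
    split_ifs <;> simp
  have h3 : ‖((∑ n ∈ Icc 1 N, (if (q : ℤ) ∣ (n : ℕ) - r then bal s S δ (n : ℕ) else 0) : ℝ) : ℂ) * q‖ ≤ q * (ε * N) := by
    rw [key]
    refine (norm_sum_le _ _).trans ?_
    calc _ ≤ ∑ _j ∈ range q, ε * N := by
          apply sum_le_sum
          intro j _
          rw [norm_mul, ee_norm, one_mul]
          exact (H S hS δ hδ N hN _).trans (mul_le_mul_of_nonneg_right (min_le_left _ _) (Nat.cast_nonneg _))
      _ = q * (ε * N) := by rw [sum_const, card_range, nsmul_eq_mul]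
  rw [norm_mul, Complex.norm_real, Complex.norm_natCast, Real.norm_eq_abs, mul_comm] at h3
  exact le_of_mul_le_mul_left h3 hqR

/-- number of the `n ≤ N` in a residue class -/
theorem res_card {q : ℕ} (hq : 0 < q) (N : ℕ) (r : ℤ) :
    |(((Icc 1 N).filter (fun n : ℕ => (q : ℤ) ∣ (n : ℕ) - r)).card : ℝ) - N / q| ≤ 1 := by
  classical
  have hqR : (0 : ℝ) < q := by exact_mod_cast hq
  have hqZ : (0 : ℤ) < q := by exact_mod_cast hq
  have e : ((Icc 1 N).filter (fun n : ℕ => (q : ℤ) ∣ (n : ℕ) - r)).card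
      = ((Ioc (0 : ℤ) N).filter (fun x => x ≡ r [ZMOD q])).card := by
    apply card_bij' (fun (n : ℕ) _ => (n : ℤ)) (fun (x : ℤ) _ => x.toNat)
    · intro n hn
      rw [mem_filter, mem_Icc] at hn
      rw [mem_filter, mem_Ioc]
      exact ⟨⟨by omega, by omega⟩, Int.modEq_iff_dvd.2 (by
        obtain ⟨t, ht⟩ := hn.2
        exact ⟨-t, by linarith⟩)⟩
    · intro x hx
      rw [mem_filter, mem_Ioc] at hx
      rw [mem_filter, mem_Icc, Int.toNat_of_nonneg hx.1.1.le]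
      refine ⟨⟨by omega, by omega⟩, ?_⟩
      have := hx.2.symm.dvd
      exact this
    · intro n _; simp
    · intro x hx
      rw [mem_filter, mem_Ioc] at hx
      exact Int.toNat_of_nonneg hx.1.1.le
  rw [e]
  have h := Int.Ioc_filter_modEq_card (0 : ℤ) N (r := (q : ℤ)) hqZ r
  have hqQ : (0 : ℚ) < q := by exact_mod_cast hq
  set A : ℤ := ⌊(((N : ℤ) : ℚ) - (r : ℚ)) / ((q : ℤ) : ℚ)⌋ with hA
  set B : ℤ := ⌊(((0 : ℤ) : ℚ) - (r : ℚ)) / ((q : ℤ) : ℚ)⌋ with hB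
  have a1 : (A : ℚ) ≤ ((N : ℚ) - r) / q := by
    have := Int.floor_le ((((N : ℤ) : ℚ) - (r : ℚ)) / ((q : ℤ) : ℚ)); push_cast at this ⊢; exact this
  have a2 : ((N : ℚ) - r) / q < A + 1 := by
    have := Int.lt_floor_add_one ((((N : ℤ) : ℚ) - (r : ℚ)) / ((q : ℤ) : ℚ)); push_cast at this ⊢; exact this
  have b1 : (B : ℚ) ≤ (0 - r : ℚ) / q := by
    have := Int.floor_le ((((0 : ℤ) : ℚ) - (r : ℚ)) / ((q : ℤ) : ℚ)); push_cast at this ⊢; exact this
  have b2 : (0 - r : ℚ) / q < B + 1 := by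
    have := Int.lt_floor_add_one ((((0 : ℤ) : ℚ) - (r : ℚ)) / ((q : ℤ) : ℚ)); push_cast at this ⊢; exact this
  have e3 : ((N : ℚ) - r) / q - (0 - r : ℚ) / q = N / q := by ring
  have hNq : (0 : ℚ) ≤ N / q := by positivity
  have hfin : |((((Ioc (0 : ℤ) N).filter (fun x => x ≡ r [ZMOD q])).card : ℤ) : ℚ) - N / q| ≤ 1 := by
    rw [h, abs_le]
    push_cast
    rcases le_total (A - B) 0 with hle | hle
    · have hle' : (A : ℚ) - B ≤ 0 := by exact_mod_cast hle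
      rw [max_eq_right hle']
      constructor <;> linarith
    · have hle' : (0 : ℚ) ≤ (A : ℚ) - B := by exact_mod_cast hle
      rw [max_eq_left hle']
      constructor <;> linarith
  have h9 : ((|((((Ioc (0 : ℤ) N).filter (fun x => x ≡ r [ZMOD q])).card : ℤ) : ℚ) - N / q| : ℚ) : ℝ) ≤ ((1 : ℚ) : ℝ) :=
    Rat.cast_le.2 hfin
  push_cast at h9
  exact h9

open Classical in
/-- number of the `n ≤ N` in a residue class with `s n ∈ S` -/
noncomputable def cR (s : ℤ) (S : Set ℤ) (N q : ℕ) (r : ℤ) : ℕ :=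
  ((Icc 1 N).filter (fun n : ℕ => (q : ℤ) ∣ (n : ℕ) - r ∧ s * (n : ℤ) ∈ S)).card

/-- UNIFORM EQUIDISTRIBUTION in residue classes -/
theorem res_unif {s : ℤ} (hs : s = 1 ∨ s = -1) {q : ℕ} (hq : 0 < q) {ε : ℝ} (hε : 0 < ε) : ∃ N0 : ℕ,
    ∀ S : Set ℤ, Inv 1 S → ∀ δ : ℝ, HD s S δ → ∀ N : ℕ, N0 ≤ N → ∀ r : ℤ,
      |(cR s S N q r : ℝ) - δ * N / q| ≤ ε * N := by
  classical
  obtain ⟨N0, hN0, H⟩ := res_bal hs hq (show 0 < ε / 2 by positivity)
  obtain ⟨N1, hN1⟩ := exists_nat_ge (2 / ε)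
  refine ⟨max N0 N1, fun S hS δ hδ N hN r => ?_⟩
  obtain ⟨d0, d1⟩ := HD_mem hs hδ
  have h1 := H S hS δ hδ N ((le_max_left _ _).trans hN) r
  have h2 := res_card hq N r
  have h3 : (1 : ℝ) ≤ ε / 2 * N := by
    have : (N1 : ℝ) ≤ N := by exact_mod_cast (le_max_right _ _).trans hN
    rw [div_le_iff₀ hε] at hN1
    nlinarith
  have e : ∑ n ∈ Icc 1 N, (if (q : ℤ) ∣ (n : ℕ) - r then bal s S δ (n : ℕ) else 0)
      = (cR s S N q r : ℝ) - δ * (((Icc 1 N).filter (fun n : ℕ => (q : ℤ) ∣ (n : ℕ) - r)).card : ℝ) := by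
    unfold cR
    rw [card_filter, card_filter]
    push_cast
    rw [mul_sum, ← sum_sub_distrib]
    apply sum_congr rfl
    intro n _
    unfold bal ind
    by_cases a : (q : ℤ) ∣ (n : ℕ) - r <;> by_cases b : s * (n : ℤ) ∈ S <;> simp [a, b]
  rw [e] at h1
  rw [abs_le] at h1 h2 ⊢
  have h4 : δ * N / q = δ * (N / q) := by ring
  rw [h4]
  constructor <;> nlinarith

end Pool.Agent.H623.TG
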