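import Pool.Agent.H623.TG.C

/-! Truncated graph, part D: the thin set of the integers without a regular descent. -/

set_option autoImplicit false

namespace Pool.Agent.H623.TG

open Finset Filter Topology
open Pool.Agent.H499R2.CO (Tz)
open Pool.Agent.R344.SP (od od_succ od_le Wn mem_Wn)
open Pool.Agent.R344.TH (Tz_even Tz_odd od_large fA mem_fA HY HY_cons)

theorem log23 : 63 / 100 * Real.log 3 ≤ Real.log 2 := by
  have h : Real.log ((3 : ℝ) ^ 63) ≤ Real.log ((2 : ℝ) ^ 100) := Real.log_le_log (by norm_num) (by norm_num)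
  rw [Real.log_pow, Real.log_pow] at h
  push_cast at h
  linarith

theorem log3_pos : 0 < Real.log 3 := Real.log_pos (by norm_num)

/-- for `d = ±1` -/
theorem iter_le1 {s : ℤ} (hs : s = 1 ∨ s = -1) (x : ℤ) (k : ℕ) :
    (((Tz s)^[k] x : ℤ) : ℝ) ≤ 3 ^ od s k x * (x / 2 ^ k + 1) := by
  have h := iter_le (d := s) (by rcases hs with rfl | rfl <;> norm_num) x k
  have e : |(s : ℝ)| = 1 := by rcases hs with rfl | rfl <;> norm_num
  rwa [e] at h

theorem iter_ge1 {s : ℤ} (hs : s = 1 ∨ s = -1) (x : ℤ) (k : ℕ) :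
    3 ^ od s k x * (x / 2 ^ k - 1) ≤ (((Tz s)^[k] x : ℤ) : ℝ) := by
  have h := (abs_le.1 (aff (d := s) (by rcases hs with rfl | rfl <;> norm_num) x k)).1
  have e : |(s : ℝ)| = 1 := by rcases hs with rfl | rfl <;> norm_num
  rw [e, one_mul] at h
  have h2 : (0 : ℝ) < 2 ^ k := by positivity
  have h3 : (0 : ℝ) < 3 ^ od s k x := by positivity
  have e : (3 : ℝ) ^ od s k x * (x / 2 ^ k - 1) = (3 ^ od s k x * x - (3 ^ od s k x * 2 ^ k)) / 2 ^ k := by
    field_simp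
  rw [e, div_le_iff₀ h2]
  have h4 : (3 ^ od s k x * (2 ^ k - 1) : ℝ) ≤ (3 ^ od s k x * 2 ^ k) := by
    apply mul_le_mul_of_nonneg_left _ h3.le
    linarith
  linarith

/-- regular descent in `log_2 m` steps -/
def Good (s m : ℤ) : Prop :=
  ∀ k : ℕ, (2 : ℝ) ^ k ≤ m → (m : ℝ) < 2 ^ (k + 1) →
    (((Tz s)^[k] m : ℤ) : ℝ) ≤ (m : ℝ) ^ (19 / 20 : ℝ) ∧ ∀ j ≤ k, (((Tz s)^[j] m : ℤ) : ℝ) ≤ (m : ℝ) ^ (21 / 20 : ℝ)

/-- the integers without regular descent -/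
def Bad (s : ℤ) : Set ℤ := {m | 0 < m ∧ ¬ Good s m}

/-- a bad integer in a dyadic block has too many odd terms -/
theorem bad_od {s : ℤ} (hs : s = 1 ∨ s = -1) {k : ℕ} (hk : 100 ≤ k) {m : ℤ} (h1 : (2 : ℝ) ^ k ≤ m)
    (h2 : (m : ℝ) < 2 ^ (k + 1)) (hb : m ∈ Bad s) :
    58 / 100 * (k : ℝ) ≤ od s k m ∨ ∃ j ≤ k, (k : ℝ) / 20 ≤ j ∧ 6 / 10 * (j : ℝ) ≤ od s j m := by
  obtain ⟨hm, hb⟩ := hb
  have hmR : (0 : ℝ) < m := by exact_mod_cast hm
  have hl3 := log3_pos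
  have hl := log23
  have hl2 : 0 < Real.log 2 := Real.log_pos (by norm_num)
  have hkR : (100 : ℝ) ≤ k := by exact_mod_cast hk
  have hlm : (k : ℝ) * Real.log 2 ≤ Real.log m := by
    rw [← Real.log_pow]; exact Real.log_le_log (by positivity) h1
  unfold Good at hb
  push Not at hb
  obtain ⟨k', h3, h4, h5⟩ := hb
  have hkk : k' = k := by
    have a1 : (2 : ℝ) ^ k < 2 ^ (k' + 1) := lt_of_le_of_lt h1 h4
    have a2 : (2 : ℝ) ^ k' < 2 ^ (k + 1) := lt_of_le_of_lt h3 h2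
    rw [pow_lt_pow_iff_right₀ (by norm_num)] at a1 a2
    omega
  subst hkk
  by_cases hc : (((Tz s)^[k'] m : ℤ) : ℝ) ≤ (m : ℝ) ^ (19 / 20 : ℝ)
  · right
    obtain ⟨j, hj, hlt⟩ := h5 hc
    have h6 := iter_le1 hs m j
    have h7 : (2 : ℝ) ^ j ≤ m := le_trans (pow_le_pow_right₀ (by norm_num) hj) h1
    have h8 : (m : ℝ) / 2 ^ j + 1 ≤ 2 * (m / 2 ^ j) := by
      have : 1 ≤ (m : ℝ) / 2 ^ j := by rw [le_div_iff₀ (by positivity)]; linarith
      linarith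
    have h9 : (m : ℝ) ^ (21 / 20 : ℝ) < 3 ^ od s j m * (2 * (m / 2 ^ j)) :=
      lt_of_lt_of_le hlt (h6.trans (mul_le_mul_of_nonneg_left h8 (by positivity)))
    have h10 := Real.log_lt_log (by positivity) h9
    rw [Real.log_rpow hmR, Real.log_mul (by positivity) (by positivity), Real.log_mul (by positivity) (by positivity),
      Real.log_div (by positivity) (by positivity), Real.log_pow, Real.log_pow] at h10
    have hoj : (od s j m : ℝ) ≤ j := by exact_mod_cast od_le s j m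
    have hj0 : (0 : ℝ) ≤ j := Nat.cast_nonneg j
    -- o log 3 > (j + k/20 - 1) log 2
    have h11 : ((j : ℝ) + k' / 20 - 1) * Real.log 2 < od s j m * Real.log 3 := by nlinarith
    have h12 : ((j : ℝ) + k' / 20 - 1) * (63 / 100 * Real.log 3) ≤ ((j : ℝ) + k' / 20 - 1) * Real.log 2 :=
      mul_le_mul_of_nonneg_left hl (by linarith)
    have h13 : ((j : ℝ) + k' / 20 - 1) * (63 / 100) < od s j m := by
      have : ((j : ℝ) + k' / 20 - 1) * (63 / 100) * Real.log 3 < od s j m * Real.log 3 := by linarith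
      exact lt_of_mul_lt_mul_right this hl3.le
    refine ⟨j, hj, ?_, ?_⟩
    · linarith
    · linarith
  · left
    push Not at hc
    have h6 := iter_le1 hs m k'
    have h8 : (m : ℝ) / 2 ^ k' + 1 ≤ 3 := by
      have : (m : ℝ) / 2 ^ k' ≤ 2 := by rw [div_le_iff₀ (by positivity)]; rw [pow_succ] at h2; linarith
      linarith
    have h9 : (m : ℝ) ^ (19 / 20 : ℝ) < 3 ^ od s k' m * 3 :=
      lt_of_lt_of_le hc (h6.trans (mul_le_mul_of_nonneg_left h8 (by positivity)))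
    have h10 := Real.log_lt_log (by positivity) h9
    rw [Real.log_rpow hmR, Real.log_mul (by positivity) (by positivity), Real.log_pow] at h10
    have h11 : 19 / 20 * ((k' : ℝ) * (63 / 100 * Real.log 3)) ≤ 19 / 20 * Real.log m := by
      have : (k' : ℝ) * (63 / 100 * Real.log 3) ≤ k' * Real.log 2 := mul_le_mul_of_nonneg_left hl (by linarith)
      linarith
    have h12 : (19 / 20 * (k' * (63 / 100)) - 1) * Real.log 3 < od s k' m * Real.log 3 := by linarith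
    have h13 := lt_of_mul_lt_mul_right h12 hl3.le
    linarith

open scoped Classical in
/-- the number of bad integers in a dyadic block -/
theorem bad_block {s : ℤ} (hs : s = 1 ∨ s = -1) : ∃ τ C : ℝ, 0 < τ ∧ τ < 1 ∧ 0 < C ∧ ∀ k : ℕ,
    (((Wn ((2 : ℝ) ^ k)).filter (fun m => m ∈ Bad s)).card : ℝ) ≤ C * τ ^ k * 2 ^ k := by
  have hs2 : s % 2 = 1 := by rcases hs with rfl | rfl <;> norm_num
  obtain ⟨ρ1, hρ1, hρ1', H1⟩ := od_large hs2 (c₁ := 58 / 100) (by norm_num)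
  obtain ⟨ρ2, hρ2, hρ2', H2⟩ := od_large hs2 (c₁ := 6 / 10) (by norm_num)
  -- choose `σ` with `max ρ1 (ρ2 ^ (1/20)) < σ`, and `τ` with `σ < τ < 1`
  set a : ℝ := ρ2 ^ (1 / 20 : ℝ) with ha
  have ha0 : 0 < a := by positivity
  have ha1 : a < 1 := Real.rpow_lt_one hρ2.le hρ2' (by norm_num)
  set σ : ℝ := max ρ1 a with hσ
  have hσ0 : 0 < σ := lt_of_lt_of_le hρ1 (le_max_left _ _)
  have hσ1 : σ < 1 := max_lt hρ1' ha1
  obtain ⟨τ, hτ1, hτ2⟩ := exists_between hσ1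
  have hτ0 : 0 < τ := hσ0.trans hτ1
  -- (k+2) (σ/τ)^k is bounded
  have hq : σ / τ < 1 := by rw [div_lt_one hτ0]; exact hτ1
  have hq0 : 0 < σ / τ := by positivity
  obtain ⟨M, hM⟩ : ∃ M : ℝ, ∀ k : ℕ, (k + 2 : ℝ) * (σ / τ) ^ k ≤ M := by
    have h1 : Tendsto (fun k : ℕ => (k : ℝ) * (σ / τ) ^ k) atTop (𝓝 0) :=
      tendsto_self_mul_const_pow_of_lt_one hq0.le hq
    have h2 : Tendsto (fun k : ℕ => (σ / τ) ^ k) atTop (𝓝 0) := tendsto_pow_atTop_nhds_zero_of_lt_one hq0.le hq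
    have h3 : Tendsto (fun k : ℕ => (k + 2 : ℝ) * (σ / τ) ^ k) atTop (𝓝 0) := by
      have := h1.add (h2.const_mul 2)
      simp only [mul_zero, add_zero] at this
      refine this.congr fun k => ?_
      ring
    obtain ⟨M, hM⟩ := h3.bddAbove_range
    exact ⟨M, fun k => hM ⟨k, rfl⟩⟩
  have hM0 : 0 < M := lt_of_lt_of_le (by norm_num : (0 : ℝ) < 2) (by have := hM 0; simpa using this)
  refine ⟨τ, 2 * M + 2 / τ ^ 100, hτ0, hτ2, by positivity, fun k => ?_⟩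
  rcases Nat.lt_or_ge k 100 with hk | hk
  · have h1 : (((Wn ((2 : ℝ) ^ k)).filter (fun m => m ∈ Bad s)).card : ℝ) ≤ 2 ^ k + 1 := by
      refine le_trans ?_ (Pool.Agent.R344.SP.Wn_card (A := (2 : ℝ) ^ k) (by positivity))
      exact_mod_cast card_filter_le _ _
    have h2 : (1 : ℝ) ≤ 2 ^ k := one_le_pow₀ (by norm_num)
    have h3 : τ ^ 100 ≤ τ ^ k := pow_le_pow_of_le_one hτ0.le hτ2.le hk.le
    have h4 : 1 ≤ 1 / τ ^ 100 * τ ^ k := by
      rw [one_div, ← div_eq_inv_mul, le_div_iff₀ (by positivity)]; linarith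
    have h5 : (2 : ℝ) * 2 ^ k ≤ (2 / τ ^ 100) * τ ^ k * 2 ^ k := by
      have : (2 / τ ^ 100) * τ ^ k * 2 ^ k = (1 / τ ^ 100 * τ ^ k) * (2 * 2 ^ k) := by ring
      rw [this]
      nlinarith
    have h6 : 0 ≤ 2 * M * τ ^ k * 2 ^ k := by positivity
    calc _ ≤ (2 : ℝ) ^ k + 1 := h1
      _ ≤ 2 * 2 ^ k := by linarith
      _ ≤ (2 / τ ^ 100) * τ ^ k * 2 ^ k := h5
      _ ≤ (2 * M + 2 / τ ^ 100) * τ ^ k * 2 ^ k := by
        have : (2 * M + 2 / τ ^ 100) * τ ^ k * 2 ^ k = 2 * M * τ ^ k * 2 ^ k + (2 / τ ^ 100) * τ ^ k * 2 ^ k := by ring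
        linarith
  · have hsub : (Wn ((2 : ℝ) ^ k)).filter (fun m => m ∈ Bad s) ⊆
        (Wn ((2 : ℝ) ^ k)).filter (fun n => 58 / 100 * (k : ℝ) ≤ (od s k n : ℝ)) ∪
        ((range (k + 1)).filter (fun j : ℕ => (k : ℝ) / 20 ≤ j)).biUnion
          (fun j => (Wn ((2 : ℝ) ^ k)).filter (fun n => 6 / 10 * (j : ℝ) ≤ (od s j n : ℝ))) := by
      intro m hm
      rw [mem_filter, mem_Wn] at hm
      have h2 : (m : ℝ) < 2 ^ (k + 1) := by rw [pow_succ]; linarith [hm.1.2]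
      rw [mem_union]
      rcases bad_od hs hk hm.1.1 h2 hm.2 with h | ⟨j, hj, h3, h4⟩
      · left; rw [mem_filter, mem_Wn]; exact ⟨hm.1, h⟩
      · right
        rw [mem_biUnion]
        exact ⟨j, by rw [mem_filter, mem_range]; exact ⟨by omega, h3⟩, by rw [mem_filter, mem_Wn]; exact ⟨hm.1, h4⟩⟩
    have h1 := (card_le_card hsub).trans ((card_union_le _ _).trans (Nat.add_le_add_left card_biUnion_le _))
    have h2 : (((Wn ((2 : ℝ) ^ k)).filter (fun m => m ∈ Bad s)).card : ℝ) ≤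
        (((Wn ((2 : ℝ) ^ k)).filter (fun n => 58 / 100 * (k : ℝ) ≤ (od s k n : ℝ))).card : ℝ) +
        ∑ j ∈ (range (k + 1)).filter (fun j : ℕ => (k : ℝ) / 20 ≤ j),
          (((Wn ((2 : ℝ) ^ k)).filter (fun n => 6 / 10 * (j : ℝ) ≤ (od s j n : ℝ))).card : ℝ) := by
      exact_mod_cast h1
    have h3 := H1 k ((2 : ℝ) ^ k) (by positivity)
    have h4 : ρ1 ^ k ≤ σ ^ k := pow_le_pow_left₀ hρ1.le (le_max_left _ _) k
    have h5 : ∀ j ∈ (range (k + 1)).filter (fun j : ℕ => (k : ℝ) / 20 ≤ j),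
        (((Wn ((2 : ℝ) ^ k)).filter (fun n => 6 / 10 * (j : ℝ) ≤ (od s j n : ℝ))).card : ℝ) ≤ 2 * 2 ^ k * σ ^ k := by
      intro j hj
      rw [mem_filter, mem_range] at hj
      have h6 := H2 j ((2 : ℝ) ^ k) (by positivity)
      have h7 : (2 : ℝ) ^ j ≤ 2 ^ k := pow_le_pow_right₀ (by norm_num) (by omega)
      have h8 : ρ2 ^ j ≤ σ ^ k := by
        have e1 : ρ2 ^ j ≤ ρ2 ^ ((k : ℝ) / 20) := by
          rw [← Real.rpow_natCast]
          exact Real.rpow_le_rpow_of_exponent_ge hρ2 hρ2'.le hj.2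
        have e2 : ρ2 ^ ((k : ℝ) / 20) = a ^ k := by
          rw [ha, ← Real.rpow_natCast, ← Real.rpow_mul hρ2.le]
          congr 1; ring
        rw [e2] at e1
        exact e1.trans (pow_le_pow_left₀ ha0.le (le_max_right _ _) k)
      calc _ ≤ ((2 : ℝ) ^ k + 2 ^ j) * ρ2 ^ j := h6
        _ ≤ (2 * 2 ^ k) * σ ^ k := mul_le_mul (by linarith) h8 (by positivity) (by positivity)
    have h6 : ∑ j ∈ (range (k + 1)).filter (fun j : ℕ => (k : ℝ) / 20 ≤ j),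
          (((Wn ((2 : ℝ) ^ k)).filter (fun n => 6 / 10 * (j : ℝ) ≤ (od s j n : ℝ))).card : ℝ)
        ≤ (k + 1) * (2 * 2 ^ k * σ ^ k) := by
      refine (sum_le_sum h5).trans ?_
      rw [sum_const, nsmul_eq_mul]
      apply mul_le_mul_of_nonneg_right _ (by positivity)
      have := card_filter_le (range (k + 1)) (fun j : ℕ => (k : ℝ) / 20 ≤ j)
      rw [card_range] at this
      exact_mod_cast this
    have h7 : ((2 : ℝ) ^ k + 2 ^ k) * ρ1 ^ k ≤ 2 * 2 ^ k * σ ^ k := by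
      have : ((2 : ℝ) ^ k + 2 ^ k) = 2 * 2 ^ k := by ring
      rw [this]
      exact mul_le_mul_of_nonneg_left h4 (by positivity)
    have h8 := hM k
    have h9 : σ ^ k = (σ / τ) ^ k * τ ^ k := by rw [div_pow]; field_simp
    have h10 : (k + 2 : ℝ) * σ ^ k ≤ M * τ ^ k := by
      rw [h9, ← mul_assoc]
      exact mul_le_mul_of_nonneg_right h8 (by positivity)
    calc _ ≤ 2 * 2 ^ k * σ ^ k + (k + 1) * (2 * 2 ^ k * σ ^ k) := by linarith
      _ = 2 * 2 ^ k * ((k + 2 : ℝ) * σ ^ k) := by ring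
      _ ≤ 2 * 2 ^ k * (M * τ ^ k) := mul_le_mul_of_nonneg_left h10 (by positivity)
      _ = 2 * M * τ ^ k * 2 ^ k := by ring
      _ ≤ (2 * M + 2 / τ ^ 100) * τ ^ k * 2 ^ k := by
        have : (2 * M + 2 / τ ^ 100) * τ ^ k * 2 ^ k = 2 * M * τ ^ k * 2 ^ k + (2 / τ ^ 100) * τ ^ k * 2 ^ k := by ring
        have h11 : 0 ≤ (2 / τ ^ 100) * τ ^ k * 2 ^ k := by positivity
        linarith

end Pool.Agent.H623.TG
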