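import Pool.Agent.H623.TG.D

/-! Truncated graph, part E: the bad set is thin, and it is avoided by almost all trajectories. -/

set_option autoImplicit false

namespace Pool.Agent.H623.TG

open Finset Filter Topology
open Pool.Agent.H499R2.CO (Tz)
open Pool.Agent.R344.SP (od od_succ od_le Wn mem_Wn)
open Pool.Agent.R344.TH (Tz_even Tz_odd od_large fA mem_fA HY HY_cons)

open scoped Classical in
theorem bad_thin {s : ℤ} (hs : s = 1 ∨ s = -1) : ∃ X0 : ℝ, 1 ≤ X0 ∧ ∀ Y : ℝ, ∀ X : ℝ, X0 ≤ X →
    ((fA (Bad s) Y X).card : ℝ) ≤ X * Real.exp (-(Real.log X) ^ (1 / 2 : ℝ)) := by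
  obtain ⟨τ0, C, h0, h1, hC, H⟩ := bad_block hs
  set τ : ℝ := max τ0 (3 / 4) with hτ
  have hτ0 : 0 < τ := lt_of_lt_of_le h0 (le_max_left _ _)
  have hτ1 : τ < 1 := max_lt h1 (by norm_num)
  have hτ34 : 3 / 4 ≤ τ := le_max_right _ _
  have hl2 : 0 < Real.log 2 := Real.log_pos (by norm_num)
  have hlτ : Real.log τ < 0 := Real.log_neg hτ0 hτ1
  set c : ℝ := -Real.log τ / Real.log 2 with hc
  have hc0 : 0 < c := div_pos (by linarith) hl2
  set C' : ℝ := 4 * C / τ + 1 with hC'
  have hC'1 : 1 ≤ C' := by rw [hC']; have : 0 ≤ 4 * C / τ := by positivity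
                           linarith
  -- the count
  have count : ∀ Y X : ℝ, 1 ≤ X → ((fA (Bad s) Y X).card : ℝ) ≤ C' * X * Real.exp (-(c * Real.log X)) := by
    intro Y X hX
    have hX0 : 0 < X := by linarith
    obtain ⟨K, hK1, hK2⟩ : ∃ K : ℕ, (2 : ℝ) ^ K ≤ X ∧ X < 2 ^ (K + 1) := exists_nat_pow_near hX (by norm_num)
    have hsub : fA (Bad s) Y X ⊆ (range (K + 1)).biUnion (fun k => (Wn ((2 : ℝ) ^ k)).filter (fun m => m ∈ Bad s)) := by
      intro m hm
      rw [mem_fA] at hm
      have hm1 : (1 : ℝ) ≤ m := by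
        have : 0 < m := hm.2.1
        exact_mod_cast this
      obtain ⟨k, hk1, hk2⟩ : ∃ k : ℕ, (2 : ℝ) ^ k ≤ m ∧ (m : ℝ) < 2 ^ (k + 1) := exists_nat_pow_near hm1 (by norm_num)
      rw [mem_biUnion]
      refine ⟨k, ?_, ?_⟩
      · rw [mem_range]
        have : (2 : ℝ) ^ k < 2 ^ (K + 1) := lt_of_le_of_lt (hk1.trans hm.1.2) hK2
        rwa [pow_lt_pow_iff_right₀ (by norm_num)] at this
      · rw [mem_filter, mem_Wn]
        exact ⟨⟨hk1, by rw [pow_succ] at hk2; linarith⟩, hm.2⟩
    have h3 : ((fA (Bad s) Y X).card : ℝ) ≤ ∑ k ∈ range (K + 1), C * (2 * τ) ^ k := by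
      have h4 : ((fA (Bad s) Y X).card : ℝ) ≤ ∑ k ∈ range (K + 1), (((Wn ((2 : ℝ) ^ k)).filter (fun m => m ∈ Bad s)).card : ℝ) := by
        exact_mod_cast (card_le_card hsub).trans card_biUnion_le
      refine h4.trans (sum_le_sum fun k _ => (H k).trans ?_)
      have h5 : τ0 ^ k ≤ τ ^ k := pow_le_pow_left₀ h0.le (le_max_left _ _) k
      calc C * τ0 ^ k * 2 ^ k ≤ C * τ ^ k * 2 ^ k := by
            apply mul_le_mul_of_nonneg_right _ (by positivity)
            exact mul_le_mul_of_nonneg_left h5 hC.le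
        _ = C * (2 * τ) ^ k := by rw [mul_pow]; ring
    have h4 : ∑ k ∈ range (K + 1), (2 * τ) ^ k ≤ 4 * (2 * τ) ^ K := by
      have h5 : (2 * τ) ≠ 1 := by linarith
      rw [geom_sum_eq h5, div_le_iff₀ (by linarith), pow_succ]
      have h6 : 0 < (2 * τ) ^ K := by positivity
      nlinarith
    rw [← mul_sum] at h3
    have h5 : ((fA (Bad s) Y X).card : ℝ) ≤ 4 * C * (X * τ ^ K) := by
      calc _ ≤ C * ∑ k ∈ range (K + 1), (2 * τ) ^ k := h3
        _ ≤ C * (4 * (2 * τ) ^ K) := mul_le_mul_of_nonneg_left h4 hC.le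
        _ = 4 * C * (2 ^ K * τ ^ K) := by rw [mul_pow]; ring
        _ ≤ _ := by
          apply mul_le_mul_of_nonneg_left _ (by positivity)
          exact mul_le_mul_of_nonneg_right hK1 (by positivity)
    have h6 : τ ^ K ≤ 1 / τ * Real.exp (-(c * Real.log X)) := by
      have h7 : Real.log X < (K + 1) * Real.log 2 := by
        have := Real.log_lt_log hX0 hK2
        rw [Real.log_pow] at this
        push_cast at this
        exact this
      have h8 : c * Real.log X ≤ -(K + 1) * Real.log τ := by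
        rw [hc, div_mul_eq_mul_div, div_le_iff₀ hl2]
        nlinarith
      have h9 : τ ^ K = 1 / τ * Real.exp ((K + 1) * Real.log τ) := by
        have : (K + 1 : ℝ) * Real.log τ = Real.log (τ ^ (K + 1)) := by rw [Real.log_pow]; push_cast; ring
        rw [this, Real.exp_log (by positivity), pow_succ]
        field_simp
      rw [h9]
      apply mul_le_mul_of_nonneg_left _ (by positivity)
      apply Real.exp_le_exp.2
      linarith
    calc _ ≤ 4 * C * (X * τ ^ K) := h5
      _ ≤ 4 * C * (X * (1 / τ * Real.exp (-(c * Real.log X)))) := by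
        apply mul_le_mul_of_nonneg_left _ (by positivity)
        exact mul_le_mul_of_nonneg_left h6 hX0.le
      _ = 4 * C / τ * X * Real.exp (-(c * Real.log X)) := by ring
      _ ≤ C' * X * Real.exp (-(c * Real.log X)) := by
        apply mul_le_mul_of_nonneg_right _ (by positivity)
        apply mul_le_mul_of_nonneg_right _ hX0.le
        rw [hC']; linarith
  refine ⟨Real.exp (4 / c ^ 2 + 2 * Real.log C' / c), ?_, fun Y X hX => ?_⟩
  · apply Real.one_le_exp
    have := Real.log_nonneg hC'1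
    positivity
  · have hX1 : 1 ≤ X := by
      refine le_trans ?_ hX
      apply Real.one_le_exp
      have := Real.log_nonneg hC'1
      positivity
    have hX0 : 0 < X := by linarith
    have hL : 4 / c ^ 2 + 2 * Real.log C' / c ≤ Real.log X := by
      rw [← Real.log_exp (4 / c ^ 2 + 2 * Real.log C' / c)]
      exact Real.log_le_log (Real.exp_pos _) hX
    set L := Real.log X with hLdef
    have hlC := Real.log_nonneg hC'1
    have a1 : 4 / c ^ 2 ≤ L := by
      have : 0 ≤ 2 * Real.log C' / c := by positivity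
      linarith
    have a2 : 2 * Real.log C' / c ≤ L := by
      have : 0 ≤ 4 / c ^ 2 := by positivity
      linarith
    have hL0 : 0 < L := lt_of_lt_of_le (by positivity) a1
    have a3 : L ^ (1 / 2 : ℝ) ≤ c * L / 2 := by
      rw [← Real.sqrt_eq_rpow]
      rw [Real.sqrt_le_left (by positivity)]
      rw [div_le_iff₀ (by positivity)] at a1
      have : (c * L / 2) ^ 2 = L * (L * c ^ 2) / 4 := by ring
      rw [this]
      nlinarith
    have a4 : Real.log C' ≤ c * L / 2 := by
      rw [div_le_iff₀ hc0] at a2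
      linarith
    have h3 := count Y X hX1
    refine h3.trans ?_
    have h4 : C' * Real.exp (-(c * L)) ≤ Real.exp (-L ^ (1 / 2 : ℝ)) := by
      have : C' = Real.exp (Real.log C') := (Real.exp_log (by linarith)).symm
      rw [this, ← Real.exp_add]
      apply Real.exp_le_exp.2
      linarith
    calc C' * X * Real.exp (-(c * L)) = X * (C' * Real.exp (-(c * L))) := by ring
      _ ≤ _ := mul_le_mul_of_nonneg_left h4 hX0.le

open scoped Classical in
/-- almost all trajectories avoid the bad set -/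
theorem avoid {s : ℤ} (hs : s = 1 ∨ s = -1) {ε : ℝ} (hε : 0 < ε) : ∃ Y0 : ℝ, 2 ≤ Y0 ∧ ∀ Y : ℝ, Y0 ≤ Y →
    ∀ N : ℕ, (((Icc (1 : ℤ) N).filter (fun n => n ∈ HY s (Bad s) Y)).card : ℝ) ≤ ε * N := by
  have hodd : Odd s := by rcases hs with rfl | rfl <;> decide
  have hco : IsCoprime s 3 := by
    rcases hs with rfl | rfl
    · exact isCoprime_one_left
    · exact (isCoprime_one_left).neg_left
  obtain ⟨L, K, hL, hK, H⟩ := Pool.Agent.R105.CZ.thin_Tz hodd hco (δ := 1 / 2) (by norm_num) 1
  obtain ⟨X0, hX0, HX⟩ := bad_thin hs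
  refine ⟨max (max 2 X0) (Real.exp (max L (K / ε))), (le_max_left _ _).trans (le_max_left _ _), fun Y hY N => ?_⟩
  have h2 : 2 ≤ Y := ((le_max_left _ _).trans (le_max_left _ _)).trans hY
  have h3 : X0 ≤ Y := ((le_max_right _ _).trans (le_max_left _ _)).trans hY
  have h4 : Real.exp (max L (K / ε)) ≤ Y := (le_max_right _ _).trans hY
  have h5 : max L (K / ε) ≤ Real.log Y := by
    rw [← Real.log_exp (max L (K / ε))]
    exact Real.log_le_log (Real.exp_pos _) h4
  have h6 := H Y (by linarith) ((le_max_left _ _).trans h5) (Bad s) (fun X hX => HX Y X (h3.trans hX)) N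
  rw [pow_one] at h6
  refine h6.trans ?_
  have h7 : K / ε ≤ Real.log Y := (le_max_right _ _).trans h5
  have h8 : 0 < Real.log Y := Real.log_pos (by linarith)
  rw [div_le_iff₀ h8]
  rw [div_le_iff₀ hε] at h7
  have : (0 : ℝ) ≤ N := Nat.cast_nonneg N
  nlinarith

end Pool.Agent.H623.TG
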