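import Pool.Agent.H623.TG.E

/-! Truncated graph, part F: almost all trajectories go down regularly. -/

set_option autoImplicit false

namespace Pool.Agent.H623.TG

open Finset Filter Topology
open Pool.Agent.H499R2.CO (Tz)
open Pool.Agent.R344.SP (od od_succ od_le Wn mem_Wn)
open Pool.Agent.R344.TH (Tz_even Tz_odd od_large fA mem_fA HY HY_cons)

theorem Tpos {s : ℤ} (hs : s = 1 ∨ s = -1) {x : ℤ} (hx : 0 < x) : 0 < Tz s x := by
  apply Pool.Agent.R105.CZ.Tz_pos hx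
  rcases hs with rfl | rfl <;> simp <;> omega

theorem Tpos_iter {s : ℤ} (hs : s = 1 ∨ s = -1) {x : ℤ} (hx : 0 < x) : ∀ k : ℕ, 0 < (Tz s)^[k] x
  | 0 => hx
  | k + 1 => by
    rw [Function.iterate_succ_apply']
    exact Tpos hs (Tpos_iter hs hx k)

theorem descend {s : ℤ} (hs : s = 1 ∨ s = -1) {Y : ℝ} (hY : 2 ≤ Y) : ∀ (b : ℕ) (n : ℤ), n.toNat ≤ b → 0 < n →
    n ∉ HY s (Bad s) Y → ∃ t : ℕ, (((Tz s)^[t] n : ℤ) : ℝ) < Y ∧
      (∀ j < t, (((Tz s)^[j] n : ℤ) : ℝ) ≤ (n : ℝ) ^ (21 / 20 : ℝ)) ∧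
      ∀ j < t, (n : ℝ) < 2 ^ j → (((Tz s)^[j] n : ℤ) : ℝ) ≤ (n : ℝ) ^ (399 / 400 : ℝ)
  | 0, n, hb, hn, _ => by omega
  | b + 1, n, hb, hn, hH => by
    have hnR : (1 : ℝ) ≤ n := by exact_mod_cast hn
    rcases lt_or_ge (n : ℝ) Y with hnY | hnY
    · exact ⟨0, hnY, fun j hj => absurd hj (Nat.not_lt_zero _), fun j hj => absurd hj (Nat.not_lt_zero _)⟩
    · have hgood : Good s n := by
        by_contra hcon
        apply hH
        refine ⟨0, ⟨hn, hcon⟩, fun j hj => ?_⟩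
        have : j = 0 := by omega
        subst this
        exact hnY
      obtain ⟨k, hk1, hk2⟩ : ∃ k : ℕ, (2 : ℝ) ^ k ≤ n ∧ (n : ℝ) < 2 ^ (k + 1) := exists_nat_pow_near hnR (by norm_num)
      obtain ⟨hg1, hg2⟩ := hgood k hk1 hk2
      by_cases hall : ∀ j ≤ k, Y ≤ (((Tz s)^[j] n : ℤ) : ℝ)
      · set m := (Tz s)^[k] n with hm
        have hmpos : 0 < m := Tpos_iter hs hn k
        have hmlt : (m : ℝ) < n := by
          refine lt_of_le_of_lt hg1 ?_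
          calc (n : ℝ) ^ (19 / 20 : ℝ) < (n : ℝ) ^ (1 : ℝ) :=
                Real.rpow_lt_rpow_of_exponent_lt (by linarith) (by norm_num)
            _ = n := Real.rpow_one _
        have hmlt' : m < n := by exact_mod_cast hmlt
        have hmH : m ∉ HY s (Bad s) Y := by
          rintro ⟨k', h1, h2⟩
          apply hH
          refine ⟨k' + k, by rw [Function.iterate_add_apply]; exact h1, fun j hj => ?_⟩
          rcases Nat.lt_or_ge j k with h | h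
          · exact hall j h.le
          · obtain ⟨i, rfl⟩ := Nat.exists_eq_add_of_le h
            rw [add_comm k i, Function.iterate_add_apply]
            exact h2 i (by omega)
        obtain ⟨t, ht1, ht2, -⟩ := descend hs hY b m (by omega) hmpos hmH
        have hmR : (1 : ℝ) ≤ m := by exact_mod_cast hmpos
        have hlate : ∀ i < t, (((Tz s)^[i] m : ℤ) : ℝ) ≤ (n : ℝ) ^ (399 / 400 : ℝ) := by
          intro i hi
          refine (ht2 i hi).trans ?_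
          calc (m : ℝ) ^ (21 / 20 : ℝ) ≤ ((n : ℝ) ^ (19 / 20 : ℝ)) ^ (21 / 20 : ℝ) :=
                Real.rpow_le_rpow (by linarith) hg1 (by norm_num)
            _ = (n : ℝ) ^ (399 / 400 : ℝ) := by
              rw [← Real.rpow_mul (by linarith)]; norm_num
        refine ⟨t + k, by rw [Function.iterate_add_apply]; exact ht1, fun j hj => ?_, fun j hj hlt => ?_⟩
        · rcases le_or_gt j k with h | h
          · exact hg2 j h
          · obtain ⟨i, rfl⟩ := Nat.exists_eq_add_of_lt h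
            rw [show k + i + 1 = (i + 1) + k by ring, Function.iterate_add_apply]
            refine (hlate (i + 1) (by omega)).trans ?_
            exact Real.rpow_le_rpow_of_exponent_le hnR (by norm_num)
        · have h : k < j := by
            have : (2 : ℝ) ^ k < 2 ^ j := lt_of_le_of_lt hk1 hlt
            rwa [pow_lt_pow_iff_right₀ (by norm_num)] at this
          obtain ⟨i, rfl⟩ := Nat.exists_eq_add_of_lt h
          rw [show k + i + 1 = (i + 1) + k by ring, Function.iterate_add_apply]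
          exact hlate (i + 1) (by omega)
      · push Not at hall
        obtain ⟨t, ht, ht2⟩ := hall
        refine ⟨t, ht2, fun j hj => hg2 j (by omega), fun j hj hlt => ?_⟩
        have h : (2 : ℝ) ^ j ≤ 2 ^ k := pow_le_pow_right₀ (by norm_num) (by omega)
        linarith

open scoped Classical in
theorem early_one {s : ℤ} (hs : s = 1 ∨ s = -1) : ∃ ρ : ℝ, 0 < ρ ∧ ρ < 1 ∧ ∀ k : ℕ, 64 ≤ k → ∀ N : ℕ,
    (((Icc (1 : ℤ) N).filter (fun n : ℤ => (2 : ℝ) ^ k ≤ n ∧ (n : ℝ) < 4 * (((Tz s)^[k] n : ℤ) : ℝ))).card : ℝ)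
      ≤ 4 * ρ ^ k * N := by
  have hs2 : s % 2 = 1 := by rcases hs with rfl | rfl <;> norm_num
  obtain ⟨ρ, hρ, hρ', H⟩ := od_large hs2 (c₁ := 6 / 10) (by norm_num)
  refine ⟨ρ, hρ, hρ', fun k hk N => ?_⟩
  have hkR : (64 : ℝ) ≤ k := by exact_mod_cast hk
  rcases Nat.eq_zero_or_pos N with rfl | hN
  · have : (Icc (1 : ℤ) ((0 : ℕ) : ℤ)) = ∅ := by decide
    rw [this]; simp
  have hNR : (1 : ℝ) ≤ N := by exact_mod_cast hN
  obtain ⟨K, hK1, hK2⟩ : ∃ K : ℕ, (2 : ℝ) ^ K ≤ N ∧ (N : ℝ) < 2 ^ (K + 1) := exists_nat_pow_near hNR (by norm_num)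
  have hsub : (Icc (1 : ℤ) N).filter (fun n : ℤ => (2 : ℝ) ^ k ≤ n ∧ (n : ℝ) < 4 * (((Tz s)^[k] n : ℤ) : ℝ)) ⊆
      ((range (K + 1)).filter (fun i => k ≤ i)).biUnion
        (fun i => (Wn ((2 : ℝ) ^ i)).filter (fun n : ℤ => 6 / 10 * (k : ℝ) ≤ (od s k n : ℝ))) := by
    intro n hn
    rw [mem_filter, mem_Icc] at hn
    obtain ⟨⟨hn1, hnN⟩, hn2, hn3⟩ := hn
    have hnR : (1 : ℝ) ≤ n := by exact_mod_cast hn1
    have hnNR : (n : ℝ) ≤ N := by exact_mod_cast hnN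
    obtain ⟨i, hi1, hi2⟩ : ∃ i : ℕ, (2 : ℝ) ^ i ≤ n ∧ (n : ℝ) < 2 ^ (i + 1) := exists_nat_pow_near hnR (by norm_num)
    rw [mem_biUnion]
    refine ⟨i, ?_, ?_⟩
    · rw [mem_filter, mem_range]
      constructor
      · have : (2 : ℝ) ^ i < 2 ^ (K + 1) := lt_of_le_of_lt (hi1.trans hnNR) hK2
        rwa [pow_lt_pow_iff_right₀ (by norm_num)] at this
      · have : (2 : ℝ) ^ k < 2 ^ (i + 1) := lt_of_le_of_lt hn2 hi2
        rw [pow_lt_pow_iff_right₀ (by norm_num)] at this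
        omega
    · rw [mem_filter, mem_Wn]
      refine ⟨⟨hi1, by rw [pow_succ] at hi2; linarith⟩, ?_⟩
      have h6 := iter_le1 hs n k
      have h8 : (n : ℝ) / 2 ^ k + 1 ≤ 2 * (n / 2 ^ k) := by
        have : 1 ≤ (n : ℝ) / 2 ^ k := by rw [le_div_iff₀ (by positivity)]; linarith
        linarith
      have h9 : (n : ℝ) < 4 * (3 ^ od s k n * (2 * (n / 2 ^ k))) := by
        refine lt_of_lt_of_le hn3 ?_
        apply mul_le_mul_of_nonneg_left _ (by norm_num)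
        exact h6.trans (mul_le_mul_of_nonneg_left h8 (by positivity))
      have h10 : (2 : ℝ) ^ k < 8 * 3 ^ od s k n := by
        have h2k : (0 : ℝ) < 2 ^ k := by positivity
        have e : 4 * ((3 : ℝ) ^ od s k n * (2 * (n / 2 ^ k))) = (8 * 3 ^ od s k n) * n / 2 ^ k := by field_simp; ring
        rw [e, lt_div_iff₀ h2k] at h9
        have h11 : (2 : ℝ) ^ k * n < (8 * 3 ^ od s k n) * n := by linarith
        exact lt_of_mul_lt_mul_right h11 (by linarith)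
      have h11 := Real.log_lt_log (by positivity) h10
      rw [Real.log_mul (by norm_num) (by positivity), Real.log_pow, Real.log_pow] at h11
      have h12 : Real.log 8 = 3 * Real.log 2 := by
        rw [show (8 : ℝ) = 2 ^ 3 by norm_num, Real.log_pow]; norm_num
      rw [h12] at h11
      have hl := log23
      have hl3 := log3_pos
      have h13 : ((k : ℝ) - 3) * (63 / 100 * Real.log 3) ≤ ((k : ℝ) - 3) * Real.log 2 :=
        mul_le_mul_of_nonneg_left hl (by linarith)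
      have h14 : ((k : ℝ) - 3) * (63 / 100) * Real.log 3 < od s k n * Real.log 3 := by linarith
      have h15 := lt_of_mul_lt_mul_right h14 hl3.le
      linarith
  have h1 : (((Icc (1 : ℤ) N).filter (fun n : ℤ => (2 : ℝ) ^ k ≤ n ∧ (n : ℝ) < 4 * (((Tz s)^[k] n : ℤ) : ℝ))).card : ℝ)
      ≤ ∑ i ∈ (range (K + 1)).filter (fun i => k ≤ i),
        (((Wn ((2 : ℝ) ^ i)).filter (fun n : ℤ => 6 / 10 * (k : ℝ) ≤ (od s k n : ℝ))).card : ℝ) := by
    exact_mod_cast (card_le_card hsub).trans card_biUnion_le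
  refine h1.trans ?_
  have h2 : ∑ i ∈ (range (K + 1)).filter (fun i => k ≤ i),
        (((Wn ((2 : ℝ) ^ i)).filter (fun n : ℤ => 6 / 10 * (k : ℝ) ≤ (od s k n : ℝ))).card : ℝ)
      ≤ ∑ i ∈ (range (K + 1)).filter (fun i => k ≤ i), 2 * ρ ^ k * 2 ^ i := by
    apply sum_le_sum
    intro i hi
    rw [mem_filter] at hi
    refine (H k ((2 : ℝ) ^ i) (by positivity)).trans ?_
    have h3 : (2 : ℝ) ^ k ≤ 2 ^ i := pow_le_pow_right₀ (by norm_num) hi.2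
    have h4 : 0 < ρ ^ k := by positivity
    nlinarith
  refine h2.trans ?_
  have h3 : ∑ i ∈ (range (K + 1)).filter (fun i => k ≤ i), 2 * ρ ^ k * 2 ^ i ≤ ∑ i ∈ range (K + 1), 2 * ρ ^ k * 2 ^ i :=
    sum_le_sum_of_subset_of_nonneg (filter_subset _ _) fun _ _ _ => by positivity
  refine h3.trans ?_
  rw [← mul_sum, geom_sum_eq (by norm_num), show (2 : ℝ) - 1 = 1 by norm_num, div_one, pow_succ]
  have h4 : 0 < ρ ^ k := by positivity
  nlinarith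

open scoped Classical in
theorem early {s : ℤ} (hs : s = 1 ∨ s = -1) {ε : ℝ} (hε : 0 < ε) : ∃ K0 : ℕ, ∀ K : ℕ, K0 ≤ K → ∀ N : ℕ,
    (((Icc (1 : ℤ) N).filter (fun n : ℤ => ∃ k : ℕ, K ≤ k ∧ (2 : ℝ) ^ k ≤ n ∧
      (n : ℝ) < 4 * (((Tz s)^[k] n : ℤ) : ℝ))).card : ℝ) ≤ ε * N := by
  obtain ⟨ρ, hρ, hρ', H⟩ := early_one hs
  have h1 : Tendsto (fun K : ℕ => 4 * ρ ^ K / (1 - ρ)) atTop (𝓝 0) := by
    have := ((tendsto_pow_atTop_nhds_zero_of_lt_one hρ.le hρ').const_mul 4).div_const (1 - ρ)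
    simpa using this
  obtain ⟨K0, hK0⟩ := eventually_atTop.1 (h1.eventually (gt_mem_nhds hε))
  refine ⟨max K0 64, fun K hK N => ?_⟩
  have hK1 := hK0 K ((le_max_left _ _).trans hK)
  have hK2 : 64 ≤ K := (le_max_right _ _).trans hK
  have hsub : (Icc (1 : ℤ) N).filter (fun n : ℤ => ∃ k : ℕ, K ≤ k ∧ (2 : ℝ) ^ k ≤ n ∧
      (n : ℝ) < 4 * (((Tz s)^[k] n : ℤ) : ℝ)) ⊆
      (Ico K (K + N)).biUnion (fun k => (Icc (1 : ℤ) N).filter (fun n : ℤ => (2 : ℝ) ^ k ≤ n ∧ (n : ℝ) < 4 * (((Tz s)^[k] n : ℤ) : ℝ))) := by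
    intro n hn
    rw [mem_filter, mem_Icc] at hn
    obtain ⟨hn1, k, hk, hk2, hk3⟩ := hn
    rw [mem_biUnion]
    refine ⟨k, ?_, by rw [mem_filter, mem_Icc]; exact ⟨hn1, hk2, hk3⟩⟩
    rw [mem_Ico]
    have h2 : (k : ℝ) < 2 ^ k := by exact_mod_cast Nat.lt_two_pow_self
    have h3 : (k : ℝ) < N := by
      have : (n : ℝ) ≤ N := by exact_mod_cast hn1.2
      linarith
    have h4 : k < N := by exact_mod_cast h3
    omega
  have h2 : (((Icc (1 : ℤ) N).filter (fun n : ℤ => ∃ k : ℕ, K ≤ k ∧ (2 : ℝ) ^ k ≤ n ∧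
      (n : ℝ) < 4 * (((Tz s)^[k] n : ℤ) : ℝ))).card : ℝ) ≤ ∑ k ∈ Ico K (K + N), 4 * ρ ^ k * N := by
    have h3 : (((Icc (1 : ℤ) N).filter (fun n : ℤ => ∃ k : ℕ, K ≤ k ∧ (2 : ℝ) ^ k ≤ n ∧
      (n : ℝ) < 4 * (((Tz s)^[k] n : ℤ) : ℝ))).card : ℝ) ≤
      ∑ k ∈ Ico K (K + N), (((Icc (1 : ℤ) N).filter (fun n : ℤ => (2 : ℝ) ^ k ≤ n ∧ (n : ℝ) < 4 * (((Tz s)^[k] n : ℤ) : ℝ))).card : ℝ) := by
      exact_mod_cast (card_le_card hsub).trans card_biUnion_le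
    refine h3.trans (sum_le_sum fun k hk => H k ?_ N)
    rw [mem_Ico] at hk
    omega
  refine h2.trans ?_
  rw [← sum_mul]
  apply mul_le_mul_of_nonneg_right _ (Nat.cast_nonneg N)
  refine le_trans ?_ hK1.le
  rw [← mul_sum, Finset.sum_Ico_eq_sum_range, Nat.add_sub_cancel_left]
  have h3 : ∑ i ∈ range N, ρ ^ (K + i) = ρ ^ K * ∑ i ∈ range N, ρ ^ i := by
    rw [mul_sum]; apply sum_congr rfl; intro i _; rw [pow_add]
  have h4 : ∑ i ∈ range N, ρ ^ i ≤ 1 / (1 - ρ) := by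
    rw [geom_sum_eq hρ'.ne, le_div_iff₀ (by linarith)]
    have h5 : (ρ ^ N - 1) / (ρ - 1) * (1 - ρ) = 1 - ρ ^ N := by
      have : ρ - 1 ≠ 0 := by linarith
      field_simp
      ring
    rw [h5]
    have : 0 < ρ ^ N := by positivity
    linarith
  rw [h3]
  calc 4 * (ρ ^ K * ∑ i ∈ range N, ρ ^ i) = 4 * ρ ^ K * ∑ i ∈ range N, ρ ^ i := by ring
    _ ≤ 4 * ρ ^ K * (1 / (1 - ρ)) := mul_le_mul_of_nonneg_left h4 (by positivity)
    _ = 4 * ρ ^ K / (1 - ρ) := by ring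

/-- THE EXCEPTIONAL SET -/
theorem exc {s : ℤ} (hs : s = 1 ∨ s = -1) {ε : ℝ} (hε : 0 < ε) : ∃ K0 : ℕ, ∃ Y0 : ℝ, 2 ≤ Y0 ∧ ∃ N0 : ℕ,
    ∀ K : ℕ, K0 ≤ K → ∀ Y : ℝ, Y0 ≤ Y → ∀ N : ℕ, N0 ≤ N → ∃ E : Finset ℤ, (E.card : ℝ) ≤ ε * N ∧
      ∀ n : ℤ, 1 ≤ n → n ≤ N → n ∉ E → ∃ t : ℕ, (((Tz s)^[t] n : ℤ) : ℝ) < Y ∧
        ∀ j : ℕ, K ≤ j → j < t → 4 * (((Tz s)^[j] n : ℤ) : ℝ) ≤ n := by
  classical
  obtain ⟨K0, hK0⟩ := early hs (show 0 < ε / 3 by positivity)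
  obtain ⟨Y0, hY0, HY0⟩ := avoid hs (show 0 < ε / 3 by positivity)
  obtain ⟨N0, hN0⟩ := exists_nat_ge (3 * (4 : ℝ) ^ 400 / ε)
  refine ⟨K0, Y0, hY0, N0, fun K hK Y hY N hN => ?_⟩
  refine ⟨(Icc (1 : ℤ) (4 ^ 400)) ∪ ((Icc (1 : ℤ) N).filter (fun n => n ∈ HY s (Bad s) Y) ∪
    (Icc (1 : ℤ) N).filter (fun n : ℤ => ∃ k : ℕ, K ≤ k ∧ (2 : ℝ) ^ k ≤ n ∧
      (n : ℝ) < 4 * (((Tz s)^[k] n : ℤ) : ℝ))), ?_, ?_⟩
  · have h1 : ((Icc (1 : ℤ) (4 ^ 400)).card : ℝ) ≤ ε / 3 * N := by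
      rw [Int.card_Icc]
      have e : ((4 : ℤ) ^ 400 + 1 - 1).toNat = 4 ^ 400 := by
        rw [add_sub_cancel_right]
        exact_mod_cast Int.toNat_natCast (4 ^ 400)
      rw [e]
      have h2 : (N0 : ℝ) ≤ N := by exact_mod_cast hN
      rw [div_le_iff₀ hε] at hN0
      push_cast
      nlinarith
    have h2 := hK0 K hK N
    have h3 := HY0 Y hY N
    have h4 := (card_union_le (Icc (1 : ℤ) (4 ^ 400)) ((Icc (1 : ℤ) N).filter (fun n => n ∈ HY s (Bad s) Y) ∪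
      (Icc (1 : ℤ) N).filter (fun n : ℤ => ∃ k : ℕ, K ≤ k ∧ (2 : ℝ) ^ k ≤ n ∧
      (n : ℝ) < 4 * (((Tz s)^[k] n : ℤ) : ℝ)))).trans (Nat.add_le_add_left (card_union_le _ _) _)
    have h5 : ((((Icc (1 : ℤ) (4 ^ 400)) ∪ ((Icc (1 : ℤ) N).filter (fun n => n ∈ HY s (Bad s) Y) ∪
      (Icc (1 : ℤ) N).filter (fun n : ℤ => ∃ k : ℕ, K ≤ k ∧ (2 : ℝ) ^ k ≤ n ∧
      (n : ℝ) < 4 * (((Tz s)^[k] n : ℤ) : ℝ)))).card : ℕ) : ℝ) ≤ ((Icc (1 : ℤ) (4 ^ 400)).card : ℝ) +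
        ((((Icc (1 : ℤ) N).filter (fun n => n ∈ HY s (Bad s) Y)).card : ℝ) +
        ((Icc (1 : ℤ) N).filter (fun n : ℤ => ∃ k : ℕ, K ≤ k ∧ (2 : ℝ) ^ k ≤ n ∧
      (n : ℝ) < 4 * (((Tz s)^[k] n : ℤ) : ℝ))).card) := by exact_mod_cast h4
    linarith
  · intro n hn1 hnN hnE
    rw [mem_union, mem_union, not_or, not_or, mem_Icc, mem_filter, mem_filter, mem_Icc] at hnE
    obtain ⟨e1, e2, e3⟩ := hnE
    have hnH : n ∉ HY s (Bad s) Y := fun h => e2 ⟨⟨hn1, hnN⟩, h⟩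
    obtain ⟨t, ht, -, ht3⟩ := descend hs (hY0.trans hY) n.toNat n le_rfl (by omega) hnH
    refine ⟨t, ht, fun j hj hjt => ?_⟩
    have hnR : (1 : ℝ) ≤ n := by exact_mod_cast hn1
    rcases le_or_gt ((2 : ℝ) ^ j) n with h | h
    · by_contra hcon
      push Not at hcon
      exact e3 ⟨⟨hn1, hnN⟩, j, hj, h, hcon⟩
    · have h1 := ht3 j hjt h
      have h2 : (4 : ℤ) ^ 400 < n := by
        by_contra hcon
        exact e1 ⟨hn1, by omega⟩
      have h3 : (4 : ℝ) ^ (400 : ℕ) ≤ n := by exact_mod_cast h2.le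
      have h4 : (4 : ℝ) ≤ (n : ℝ) ^ (1 / 400 : ℝ) := by
        calc (4 : ℝ) = ((4 : ℝ) ^ (400 : ℕ)) ^ (1 / 400 : ℝ) := by
              rw [← Real.rpow_natCast, ← Real.rpow_mul (by norm_num)]; norm_num
          _ ≤ _ := Real.rpow_le_rpow (by positivity) h3 (by norm_num)
      have h5 : (n : ℝ) = (n : ℝ) ^ (1 / 400 : ℝ) * (n : ℝ) ^ (399 / 400 : ℝ) := by
        rw [← Real.rpow_add (lt_of_lt_of_le one_pos hnR)]; norm_num
      have h6 : 0 ≤ (n : ℝ) ^ (399 / 400 : ℝ) := by positivity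
      calc 4 * (((Tz s)^[j] n : ℤ) : ℝ) ≤ 4 * (n : ℝ) ^ (399 / 400 : ℝ) := by linarith
        _ ≤ (n : ℝ) ^ (1 / 400 : ℝ) * (n : ℝ) ^ (399 / 400 : ℝ) := mul_le_mul_of_nonneg_right h4 h6
        _ = n := h5.symm

end Pool.Agent.H623.TG
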