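import Pool.Agent.H623.TG.F

/-! Truncated graph, part G: the number of the trajectories which reach `[1, Y)` inside `[1, N]`. -/

set_option autoImplicit false

namespace Pool.Agent.H623.TG

open Finset Filter Topology
open Pool.Agent.H499R2.CO (Tz)
open Pool.Agent.H499R2.ND (Inv HD)
open Pool.Agent.R344.SP (od od_succ od_le)
open Pool.Agent.W41

/-- the trajectory reaches a value below `Y`, and stays below `N / 2` until then -/
def Low (s : ℤ) (N : ℕ) (Y : ℝ) (n : ℤ) : Prop :=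
  ∃ t : ℕ, (((Tz s)^[t] n : ℤ) : ℝ) < Y ∧ ∀ j : ℕ, 1 ≤ j → j ≤ t → 2 * (((Tz s)^[j] n : ℤ) : ℝ) ≤ N

theorem low_or {s : ℤ} (hs : s = 1 ∨ s = -1) {N K : ℕ} {Y : ℝ} (hNY : 2 * Y ≤ N) {n : ℤ} (hn : 1 ≤ n) (hnN : n ≤ N)
    (h : ∃ t : ℕ, (((Tz s)^[t] n : ℤ) : ℝ) < Y ∧ ∀ j : ℕ, K ≤ j → j < t → 4 * (((Tz s)^[j] n : ℤ) : ℝ) ≤ n) :
    Low s N Y n ∨ ∃ j : ℕ, 1 ≤ j ∧ j < K ∧ (N : ℝ) < 2 * (((Tz s)^[j] n : ℤ) : ℝ) := by
  by_cases hc : ∃ j : ℕ, 1 ≤ j ∧ j < K ∧ (N : ℝ) < 2 * (((Tz s)^[j] n : ℤ) : ℝ)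
  · exact Or.inr hc
  · left
    push Not at hc
    obtain ⟨t, ht, h2⟩ := h
    refine ⟨t, ht, fun j hj1 hjt => ?_⟩
    rcases Nat.lt_or_ge j K with hj | hj
    · exact hc j hj1 hj
    · rcases Nat.lt_or_ge j t with h3 | h3
      · have h4 := h2 j hj h3
        have h5 : (0 : ℝ) ≤ (((Tz s)^[j] n : ℤ) : ℝ) := by exact_mod_cast (Tpos_iter hs (by omega) j).le
        have h6 : (n : ℝ) ≤ N := by exact_mod_cast hnN
        linarith
      · have : j = t := by omega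
        subst this
        linarith

theorem od_res {s : ℤ} (hs : s = 1 ∨ s = -1) {K k : ℕ} (hk : k ≤ K) {n r : ℤ} (h : ((2 ^ K : ℕ) : ℤ) ∣ n - r) :
    od s k n = od s k r := by
  obtain ⟨u, hu⟩ := h
  obtain ⟨j, rfl⟩ := Nat.exists_eq_add_of_le hk
  have e : n = r + 2 ^ k * (2 ^ j * u) := by
    push_cast at hu
    rw [pow_add] at hu
    linarith
  rw [e]
  exact (shift (d := s) (by rcases hs with rfl | rfl <;> norm_num) k r (2 ^ j * u)).2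

theorem upper {s : ℤ} (hs : s = 1 ∨ s = -1) {K N : ℕ} {Y : ℝ} (hY : 0 ≤ Y) {n r : ℤ} (hN : 1 ≤ N) (hnN : n ≤ N)
    (h : ((2 ^ K : ℕ) : ℤ) ∣ n - r) (hL : Low s N Y n) :
    (n : ℝ) ≤ 2 ^ K * (Y + 1) ∨ (n : ℝ) ≤ mn (fun k => od s k r) K * N + 2 ^ K := by
  have hNR : (0 : ℝ) < N := by exact_mod_cast hN
  obtain ⟨t, ht, hb⟩ := hL
  rcases Nat.lt_or_ge t K with htK | htK
  · left
    have h1 := iter_ge1 hs n t
    have h2 : (1 : ℝ) ≤ 3 ^ od s t n := one_le_pow₀ (by norm_num)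
    have h3 : (n : ℝ) / 2 ^ t - 1 ≤ Y := by
      by_contra hcon
      push Not at hcon
      have h4 : (n : ℝ) / 2 ^ t - 1 ≤ 3 ^ od s t n * ((n : ℝ) / 2 ^ t - 1) := by nlinarith
      linarith
    have h4 : (n : ℝ) ≤ 2 ^ t * (Y + 1) := by
      have h2t : (0 : ℝ) < 2 ^ t := by positivity
      have : (n : ℝ) / 2 ^ t ≤ Y + 1 := by linarith
      rw [div_le_iff₀ h2t] at this
      linarith
    refine h4.trans ?_
    apply mul_le_mul_of_nonneg_right _ (by linarith)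
    exact pow_le_pow_right₀ (by norm_num) htK.le
  · right
    have key : ((n : ℝ) - 2 ^ K) / N ≤ mn (fun k => od s k r) K := by
      apply le_mn
      · rw [div_le_one hNR]
        have : (n : ℝ) ≤ N := by exact_mod_cast hnN
        have : (0 : ℝ) < 2 ^ K := by positivity
        linarith
      · intro k hk1 hkK
        have h1 := iter_ge1 hs n k
        have h2 := hb k hk1 (by omega)
        have h3 := od_res hs hkK h
        rw [h3] at h1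
        rw [div_le_div_iff₀ hNR (by positivity)]
        have h2k : (0 : ℝ) < 2 ^ k := by positivity
        have h3k : (0 : ℝ) < 3 ^ od s k r := by positivity
        have e : (2 : ℝ) ^ k = 2 * 2 ^ (k - 1) := by
          obtain ⟨i, rfl⟩ : ∃ i, k = i + 1 := ⟨k - 1, by omega⟩
          rw [Nat.add_sub_cancel, pow_succ]; ring
        have h4 : (3 : ℝ) ^ od s k r * (n - 2 ^ k) ≤ 2 ^ (k - 1) * N := by
          have h5 : (3 : ℝ) ^ od s k r * (n / 2 ^ k - 1) * 2 ^ k ≤ (N / 2) * 2 ^ k :=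
            mul_le_mul_of_nonneg_right (by linarith) h2k.le
          have e2 : (3 : ℝ) ^ od s k r * (n / 2 ^ k - 1) * 2 ^ k = 3 ^ od s k r * (n - 2 ^ k) := by field_simp
          rw [e2, e] at h5
          rw [e]
          linarith
        have h5 : (2 : ℝ) ^ k ≤ 2 ^ K := pow_le_pow_right₀ (by norm_num) hkK
        have h6 : (3 : ℝ) ^ od s k r * (n - 2 ^ K) ≤ 3 ^ od s k r * (n - 2 ^ k) :=
          mul_le_mul_of_nonneg_left (by linarith) h3k.le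
        linarith
    rw [div_le_iff₀ hNR] at key
    linarith

theorem lower {s : ℤ} (hs : s = 1 ∨ s = -1) {K N : ℕ} {Y : ℝ} (hNY : 2 * Y ≤ N) {n r : ℤ} (hn : 1 ≤ n) (hnN : n ≤ N)
    (h : ((2 ^ K : ℕ) : ℤ) ∣ n - r)
    (he : ∃ t : ℕ, (((Tz s)^[t] n : ℤ) : ℝ) < Y ∧ ∀ j : ℕ, K ≤ j → j < t → 4 * (((Tz s)^[j] n : ℤ) : ℝ) ≤ n)
    (hm : (n : ℝ) + 2 ^ K ≤ mn (fun k => od s k r) K * N) : Low s N Y n := by
  rcases low_or hs hNY hn hnN he with h1 | ⟨j, hj1, hjK, hj⟩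
  · exact h1
  · exfalso
    have h2 := iter_le1 hs n j
    have h3 := od_res hs hjK.le h
    rw [h3] at h2
    have h4 := mn_le (fun k => od s k r) K j hj1 hjK.le
    have h2j : (0 : ℝ) < 2 ^ j := by positivity
    have h3j : (0 : ℝ) < 3 ^ od s j r := by positivity
    have e : (2 : ℝ) ^ j = 2 * 2 ^ (j - 1) := by
      obtain ⟨i, rfl⟩ : ∃ i, j = i + 1 := ⟨j - 1, by omega⟩
      rw [Nat.add_sub_cancel, pow_succ]; ring
    have h5 : (2 : ℝ) ^ j ≤ 2 ^ K := pow_le_pow_right₀ (by norm_num) hjK.le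
    rw [le_div_iff₀ h3j] at h4
    have h6 : (3 : ℝ) ^ od s j r * (n + 2 ^ j) ≤ 2 ^ (j - 1) * N := by
      calc (3 : ℝ) ^ od s j r * (n + 2 ^ j) ≤ 3 ^ od s j r * (mn (fun k => od s k r) K * N) :=
            mul_le_mul_of_nonneg_left (by linarith) h3j.le
        _ = (mn (fun k => od s k r) K * 3 ^ od s j r) * N := by ring
        _ ≤ _ := mul_le_mul_of_nonneg_right h4 (Nat.cast_nonneg N)
    have h7 : (3 : ℝ) ^ od s j r * (n / 2 ^ j + 1) * 2 ^ j = 3 ^ od s j r * (n + 2 ^ j) := by field_simp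
    have h8 : (N : ℝ) * 2 ^ j < 2 * (3 ^ od s j r * (n / 2 ^ j + 1)) * 2 ^ j :=
      mul_lt_mul_of_pos_right (lt_of_lt_of_le hj (by linarith)) h2j
    have h9 : 2 * ((3 : ℝ) ^ od s j r * (n / 2 ^ j + 1)) * 2 ^ j = 2 * (3 ^ od s j r * (n + 2 ^ j)) := by
      rw [← h7]; ring
    rw [h9, e] at h8
    rw [e] at h6
    linarith

open Classical in
/-- the number of the `n ≤ N` with `s n ∈ S` and a low trajectory -/
noncomputable def cL (s : ℤ) (S : Set ℤ) (N : ℕ) (Y : ℝ) : ℕ :=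
  ((Icc 1 N).filter (fun n : ℕ => s * (n : ℤ) ∈ S ∧ Low s N Y (n : ℤ))).card

theorem cL_upper {s : ℤ} (hs : s = 1 ∨ s = -1) (K : ℕ) {N : ℕ} (hN : 1 ≤ N) {Y : ℝ} (hY : 0 ≤ Y) (S : Set ℤ) :
    (cL s S N Y : ℝ) ≤ 2 ^ K * (Y + 1) + ∑ r ∈ range (2 ^ K),
      ((cR s S ⌊mn (fun k => od s k (r : ℤ)) K * N⌋₊ (2 ^ K) (r : ℤ) : ℝ) + (2 ^ K + 1)) := by
  classical
  set M : ℕ → ℕ := fun r => ⌊mn (fun k => od s k (r : ℤ)) K * N⌋₊ with hM
  set W : ℕ := ⌊(2 : ℝ) ^ K * (Y + 1)⌋₊ with hW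
  have hsub : (Icc 1 N).filter (fun n : ℕ => s * (n : ℤ) ∈ S ∧ Low s N Y (n : ℤ)) ⊆
      Icc 1 W ∪ (range (2 ^ K)).biUnion (fun r =>
        ((Icc 1 (M r)).filter (fun n : ℕ => ((2 ^ K : ℕ) : ℤ) ∣ (n : ℕ) - (r : ℤ) ∧ s * (n : ℤ) ∈ S)) ∪
          Ioc (M r) (M r + (2 ^ K + 1))) := by
    intro n hn
    rw [mem_filter, mem_Icc] at hn
    obtain ⟨⟨hn1, hnN⟩, hnS, hnL⟩ := hn
    have hdvd : ((2 ^ K : ℕ) : ℤ) ∣ (n : ℕ) - ((n % 2 ^ K : ℕ) : ℤ) := by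
      refine ⟨((n / 2 ^ K : ℕ) : ℤ), ?_⟩
      have := Nat.div_add_mod n (2 ^ K)
      have h2 : ((2 ^ K * (n / 2 ^ K) + n % 2 ^ K : ℕ) : ℤ) = (n : ℤ) := by rw [this]
      push_cast at h2 ⊢
      linarith
    rw [mem_union]
    rcases upper hs hY hN (by exact_mod_cast hnN) hdvd hnL with h | h
    · left
      rw [mem_Icc]
      exact ⟨hn1, Nat.le_floor (by simpa using h)⟩
    · right
      rw [mem_biUnion]
      refine ⟨n % 2 ^ K, mem_range.2 (Nat.mod_lt _ (by positivity)), ?_⟩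
      rw [mem_union, mem_filter, mem_Icc, mem_Ioc]
      rcases Nat.lt_or_ge (M (n % 2 ^ K)) n with h2 | h2
      · right
        refine ⟨h2, ?_⟩
        have h3 : mn (fun k => od s k ((n % 2 ^ K : ℕ) : ℤ)) K * N < M (n % 2 ^ K) + 1 := Nat.lt_floor_add_one _
        have h4 : (n : ℝ) < ((M (n % 2 ^ K) + (2 ^ K + 1) : ℕ) : ℝ) := by
          push_cast
          have h' : ((n : ℤ) : ℝ) = (n : ℝ) := by simp
          rw [h'] at h
          linarith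
        exact_mod_cast h4.le
      · left
        exact ⟨⟨hn1, h2⟩, hdvd, hnS⟩
  have h1 := card_le_card hsub
  have h2 : cL s S N Y ≤ W + ∑ r ∈ range (2 ^ K), (cR s S (M r) (2 ^ K) (r : ℤ) + (2 ^ K + 1)) := by
    unfold cL
    refine h1.trans ((card_union_le _ _).trans ?_)
    apply Nat.add_le_add
    · rw [Nat.card_Icc]; omega
    · refine card_biUnion_le.trans (sum_le_sum fun r _ => ?_)
      refine (card_union_le _ _).trans ?_
      apply Nat.add_le_add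
      · unfold cR
        exact le_rfl
      · rw [Nat.card_Ioc, Nat.add_sub_cancel_left]
  have h3 : (cL s S N Y : ℝ) ≤ ((W + ∑ r ∈ range (2 ^ K), (cR s S (M r) (2 ^ K) (r : ℤ) + (2 ^ K + 1)) : ℕ) : ℝ) := by
    exact_mod_cast h2
  refine h3.trans ?_
  push_cast
  have h4 : (W : ℝ) ≤ 2 ^ K * (Y + 1) := Nat.floor_le (by positivity)
  linarith

theorem cL_lower {s : ℤ} (hs : s = 1 ∨ s = -1) (K : ℕ) {N : ℕ} (hN : 1 ≤ N) {Y : ℝ} (hNY : 2 * Y ≤ N) (S : Set ℤ)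
    {E : Finset ℤ} (hE : ∀ n : ℤ, 1 ≤ n → n ≤ N → n ∉ E → ∃ t : ℕ, (((Tz s)^[t] n : ℤ) : ℝ) < Y ∧
        ∀ j : ℕ, K ≤ j → j < t → 4 * (((Tz s)^[j] n : ℤ) : ℝ) ≤ n) :
    ∑ r ∈ range (2 ^ K), (cR s S ⌊mn (fun k => od s k (r : ℤ)) K * N⌋₊ (2 ^ K) (r : ℤ) : ℝ)
      ≤ cL s S N Y + E.card + 2 ^ K * (2 ^ K + 1) := by
  classical
  set M : ℕ → ℕ := fun r => ⌊mn (fun k => od s k (r : ℤ)) K * N⌋₊ with hM
  have hMN : ∀ r, (M r : ℝ) ≤ mn (fun k => od s k (r : ℤ)) K * N := fun r =>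
    Nat.floor_le (mul_nonneg (mn_pos _ _).le (Nat.cast_nonneg N))
  have hMN' : ∀ r, M r ≤ N := by
    intro r
    have h1 := hMN r
    have h2 := mn_le_one (fun k => od s k (r : ℤ)) K
    have h3 : (M r : ℝ) ≤ N := by
      have : (0 : ℝ) ≤ N := Nat.cast_nonneg N
      nlinarith
    exact_mod_cast h3
  have hsub : (range (2 ^ K)).biUnion (fun r =>
        ((Icc 1 (M r)).filter (fun n : ℕ => ((2 ^ K : ℕ) : ℤ) ∣ (n : ℕ) - (r : ℤ) ∧ s * (n : ℤ) ∈ S))) ⊆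
      (Icc 1 N).filter (fun n : ℕ => s * (n : ℤ) ∈ S ∧ Low s N Y (n : ℤ)) ∪
        (((Icc 1 N).filter (fun n : ℕ => (n : ℤ) ∈ E)) ∪
        (range (2 ^ K)).biUnion (fun r => Ioc (M r - (2 ^ K + 1)) (M r))) := by
    intro n hn
    rw [mem_biUnion] at hn
    obtain ⟨r, hr, hn⟩ := hn
    rw [mem_filter, mem_Icc] at hn
    obtain ⟨⟨hn1, hnM⟩, hdvd, hnS⟩ := hn
    rw [mem_union, mem_union, mem_filter, mem_filter, mem_biUnion, mem_Icc]
    have hnN : n ≤ N := hnM.trans (hMN' r)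
    by_cases hnE : (n : ℤ) ∈ E
    · exact Or.inr (Or.inl ⟨⟨hn1, hnN⟩, hnE⟩)
    · rcases Nat.lt_or_ge (M r - (2 ^ K + 1)) n with h2 | h2
      · exact Or.inr (Or.inr ⟨r, hr, by rw [mem_Ioc]; exact ⟨h2, hnM⟩⟩)
      · left
        refine ⟨⟨hn1, hnN⟩, hnS, ?_⟩
        apply lower hs hNY (by exact_mod_cast hn1 : (1 : ℤ) ≤ (n : ℤ)) (by exact_mod_cast hnN) hdvd
          (hE n (by exact_mod_cast hn1) (by exact_mod_cast hnN) hnE)
        have h3 : n + (2 ^ K + 1) ≤ M r := by omega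
        have h4 : ((n + (2 ^ K + 1) : ℕ) : ℝ) ≤ M r := by exact_mod_cast h3
        have h5 := hMN r
        push_cast at h4 ⊢
        linarith
  have h1 := card_le_card hsub
  have hdisj : ((range (2 ^ K)).biUnion (fun r =>
        ((Icc 1 (M r)).filter (fun n : ℕ => ((2 ^ K : ℕ) : ℤ) ∣ (n : ℕ) - (r : ℤ) ∧ s * (n : ℤ) ∈ S)))).card
      = ∑ r ∈ range (2 ^ K), cR s S (M r) (2 ^ K) (r : ℤ) := by
    rw [card_biUnion]
    · rfl
    · intro a ha b hb hab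
      rw [Function.onFun, disjoint_left]
      intro n h1 h2
      rw [mem_filter] at h1 h2
      have h3 : ((2 ^ K : ℕ) : ℤ) ∣ (a : ℤ) - b := by
        have := dvd_sub h2.2.1 h1.2.1
        have e : ((n : ℕ) : ℤ) - (b : ℤ) - (((n : ℕ) : ℤ) - (a : ℤ)) = (a : ℤ) - b := by ring
        rwa [e] at this
      apply hab
      have h4 : (a : ℤ) = b := by
        have ha' : (a : ℤ) < ((2 ^ K : ℕ) : ℤ) := by exact_mod_cast mem_range.1 ha
        have hb' : (b : ℤ) < ((2 ^ K : ℕ) : ℤ) := by exact_mod_cast mem_range.1 hb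
        have ha0 : (0 : ℤ) ≤ a := Int.natCast_nonneg a
        have hb0 : (0 : ℤ) ≤ b := Int.natCast_nonneg b
        have := Int.eq_zero_of_abs_lt_dvd h3 (by rw [abs_lt]; constructor <;> linarith)
        linarith
      exact_mod_cast h4
  rw [hdisj] at h1
  have hEc : ((Icc 1 N).filter (fun n : ℕ => (n : ℤ) ∈ E)).card ≤ E.card := by
    apply card_le_card_of_injOn (fun n : ℕ => (n : ℤ))
    · intro n hn
      rw [mem_coe, mem_filter] at hn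
      exact hn.2
    · intro a _ b _ h
      simpa using h
  have h2 : ∑ r ∈ range (2 ^ K), cR s S (M r) (2 ^ K) (r : ℤ) ≤ cL s S N Y + (E.card + 2 ^ K * (2 ^ K + 1)) := by
    refine h1.trans ((card_union_le _ _).trans ?_)
    apply Nat.add_le_add
    · unfold cL; exact le_rfl
    · refine (card_union_le _ _).trans (Nat.add_le_add hEc ?_)
      refine card_biUnion_le.trans ?_
      calc ∑ r ∈ range (2 ^ K), (Ioc (M r - (2 ^ K + 1)) (M r)).card ≤ ∑ _r ∈ range (2 ^ K), (2 ^ K + 1) := by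
            apply sum_le_sum
            intro r _
            rw [Nat.card_Ioc]
            generalize 2 ^ K + 1 = c
            omega
        _ = 2 ^ K * (2 ^ K + 1) := by rw [sum_const, card_range, smul_eq_mul]
  have h3 : ((∑ r ∈ range (2 ^ K), cR s S (M r) (2 ^ K) (r : ℤ) : ℕ) : ℝ) ≤ ((cL s S N Y + (E.card + 2 ^ K * (2 ^ K + 1)) : ℕ) : ℝ) := by
    exact_mod_cast h2
  push_cast at h3
  linarith

/-- the sum over the residues -/
theorem cR_sum {s : ℤ} (hs : s = 1 ∨ s = -1) (K : ℕ) {ε : ℝ} (hε : 0 < ε) : ∃ N0 : ℕ,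
    ∀ S : Set ℤ, Inv 1 S → ∀ δ : ℝ, HD s S δ → ∀ N : ℕ, N0 ≤ N →
      |∑ r ∈ range (2 ^ K), (cR s S ⌊mn (fun k => od s k (r : ℤ)) K * N⌋₊ (2 ^ K) (r : ℤ) : ℝ) - kap K * δ * N| ≤ ε * N := by
  have hq : 0 < 2 ^ K := by positivity
  have hqR : (0 : ℝ) < 2 ^ K := by positivity
  obtain ⟨N1, H⟩ := res_unif hs hq (show 0 < ε / 2 / 2 ^ K by positivity)
  obtain ⟨N2, hN2⟩ := exists_nat_ge (((N1 : ℝ) + 1) * 3 ^ K)
  obtain ⟨N3, hN3⟩ := exists_nat_ge (2 / ε)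
  refine ⟨max N2 N3, fun S hS δ hδ N hN => ?_⟩
  obtain ⟨d0, d1⟩ := Pool.Agent.W41.FU.HD_mem hs hδ
  have hN2' : (N2 : ℝ) ≤ N := by exact_mod_cast (le_max_left _ _).trans hN
  have hN3' : (N3 : ℝ) ≤ N := by exact_mod_cast (le_max_right _ _).trans hN
  have hN0 : (0 : ℝ) ≤ N := Nat.cast_nonneg N
  set m : ℕ → ℝ := fun r => mn (fun k => od s k (r : ℤ)) K with hm
  have hone : ∀ r ∈ range (2 ^ K), |(cR s S ⌊m r * N⌋₊ (2 ^ K) (r : ℤ) : ℝ) - δ * (m r * N) / 2 ^ K| ≤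
      ε / 2 / 2 ^ K * N + 1 / 2 ^ K := by
    intro r _
    have hm0 : 0 < m r := mn_pos _ _
    have hm1 : m r ≤ 1 := mn_le_one _ _
    have hm2 : (1 / 3 : ℝ) ^ K ≤ m r := mn_ge_pow (fun k => od_le s k r) K
    have h1 : (⌊m r * N⌋₊ : ℝ) ≤ m r * N := Nat.floor_le (by positivity)
    have h2 : m r * N < ⌊m r * N⌋₊ + 1 := Nat.lt_floor_add_one _
    have h3 : N1 ≤ ⌊m r * N⌋₊ := by
      have h4 : (N1 : ℝ) + 1 ≤ m r * N := by
        calc (N1 : ℝ) + 1 = (1 / 3 : ℝ) ^ K * (((N1 : ℝ) + 1) * 3 ^ K) := by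
              rw [div_pow, one_pow]; field_simp
          _ ≤ m r * N := mul_le_mul hm2 (hN2.trans hN2') (by positivity) hm0.le
      have h5 : (N1 : ℝ) < ⌊m r * N⌋₊ := by linarith
      exact_mod_cast h5.le
    have h4 := H S hS δ hδ _ h3 (r : ℤ)
    push_cast at h4
    have h5 : (⌊m r * N⌋₊ : ℝ) ≤ N := by nlinarith
    have h6 : ε / 2 / 2 ^ K * (⌊m r * N⌋₊ : ℝ) ≤ ε / 2 / 2 ^ K * N := mul_le_mul_of_nonneg_left h5 (by positivity)
    have h7 : |δ * (⌊m r * N⌋₊ : ℝ) / 2 ^ K - δ * (m r * N) / 2 ^ K| ≤ 1 / 2 ^ K := by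
      rw [← sub_div, abs_div, abs_of_pos hqR]
      apply div_le_div_of_nonneg_right _ hqR.le
      rw [abs_le]
      constructor <;> nlinarith
    calc _ = |((cR s S ⌊m r * N⌋₊ (2 ^ K) (r : ℤ) : ℝ) - δ * (⌊m r * N⌋₊ : ℝ) / 2 ^ K)
          + (δ * (⌊m r * N⌋₊ : ℝ) / 2 ^ K - δ * (m r * N) / 2 ^ K)| := by ring_nf
      _ ≤ _ := (abs_add_le _ _).trans (add_le_add (h4.trans h6) h7)
  have hsum : ∑ r ∈ range (2 ^ K), δ * (m r * N) / 2 ^ K = kap K * δ * N := by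
    rw [kap_res (d := s) (by rcases hs with rfl | rfl <;> norm_num), ← sum_div, ← mul_sum, ← sum_mul]
    ring
  rw [← hsum, ← sum_sub_distrib]
  refine (abs_sum_le_sum_abs _ _).trans ((sum_le_sum hone).trans ?_)
  rw [sum_const, card_range, nsmul_eq_mul]
  push_cast
  have e : (2 : ℝ) ^ K * (ε / 2 / 2 ^ K * N + 1 / 2 ^ K) = ε / 2 * N + 1 := by field_simp
  rw [e]
  have h1 : (1 : ℝ) ≤ ε / 2 * N := by
    rw [div_le_iff₀ hε] at hN3
    nlinarith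
  linarith

/-- MAIN COUNT -/
theorem main_count {s : ℤ} (hs : s = 1 ∨ s = -1) {κ : ℝ} (hκ : Tendsto kap atTop (𝓝 κ)) {ε : ℝ} (hε : 0 < ε) :
    ∃ Y0 : ℝ, 2 ≤ Y0 ∧ ∀ Y : ℝ, Y0 ≤ Y → ∃ N0 : ℕ, ∀ N : ℕ, N0 ≤ N → ∀ S : Set ℤ, Inv 1 S → ∀ δ : ℝ, HD s S δ →
      |(cL s S N Y : ℝ) - κ * δ * N| ≤ ε * N := by
  obtain ⟨K0, Y0, hY0, N0, H⟩ := exc hs (show 0 < ε / 4 by positivity)
  obtain ⟨K1, hK1⟩ := Metric.tendsto_atTop.1 hκ (ε / 4) (by positivity)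
  set K := max K0 K1 with hK
  have hK2 := hK1 K (le_max_right _ _)
  rw [Real.dist_eq] at hK2
  obtain ⟨N1, H1⟩ := cR_sum hs K (show 0 < ε / 4 by positivity)
  refine ⟨Y0, hY0, fun Y hY => ?_⟩
  obtain ⟨N2, hN2⟩ := exists_nat_ge (4 * (2 ^ K * (Y + 1) + 2 ^ K * (2 ^ K + 1)) / ε)
  obtain ⟨N3, hN3⟩ := exists_nat_ge (2 * Y)
  refine ⟨max (max N0 N1) (max (max N2 N3) 1), fun N hN S hS δ hδ => ?_⟩
  have c0 : N0 ≤ N := (le_max_left _ _).trans ((le_max_left _ _).trans hN)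
  have c1 : N1 ≤ N := (le_max_right _ _).trans ((le_max_left _ _).trans hN)
  have c2 : N2 ≤ N := (le_max_left _ _).trans ((le_max_left _ _).trans ((le_max_right _ _).trans hN))
  have c3 : N3 ≤ N := (le_max_right _ _).trans ((le_max_left _ _).trans ((le_max_right _ _).trans hN))
  have c4 : 1 ≤ N := (le_max_right _ _).trans ((le_max_right _ _).trans hN)
  have hYY : 2 ≤ Y := hY0.trans hY
  have hN2' : (N2 : ℝ) ≤ N := by exact_mod_cast c2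
  have hN3' : (N3 : ℝ) ≤ N := by exact_mod_cast c3
  obtain ⟨d0, d1⟩ := Pool.Agent.W41.FU.HD_mem hs hδ
  obtain ⟨E, hE1, hE2⟩ := H K (le_max_left _ _) Y hY N c0
  have h1 := cL_upper hs K c4 (by linarith : (0 : ℝ) ≤ Y) S
  have h2 := cL_lower hs K c4 (hN3.trans hN3') S hE2
  have h3 := H1 S hS δ hδ N c1
  rw [sum_add_distrib, sum_const, card_range, nsmul_eq_mul] at h1
  push_cast at h1
  set Q := ∑ r ∈ range (2 ^ K), (cR s S ⌊mn (fun k => od s k (r : ℤ)) K * N⌋₊ (2 ^ K) (r : ℤ) : ℝ) with hQ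
  have h4 : 2 ^ K * (Y + 1) + 2 ^ K * (2 ^ K + 1) ≤ ε / 4 * N := by
    rw [div_le_iff₀ hε] at hN2
    nlinarith
  have h5 : |kap K * δ * N - κ * δ * N| ≤ ε / 4 * N := by
    have e : kap K * δ * N - κ * δ * N = (kap K - κ) * (δ * N) := by ring
    have hN0 : (0 : ℝ) ≤ N := Nat.cast_nonneg N
    rw [e, abs_mul, abs_of_nonneg (by positivity : 0 ≤ δ * N)]
    have : δ * (N : ℝ) ≤ N := by nlinarith
    exact mul_le_mul hK2.le this (by positivity) (by positivity)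
  have h6 : (0 : ℝ) ≤ 2 ^ K * (Y + 1) := by positivity
  have h7 : (0 : ℝ) ≤ 2 ^ K * (2 ^ K + 1) := by positivity
  rw [abs_le] at h3 h5 ⊢
  constructor <;> linarith

end Pool.Agent.H623.TG
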