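import Pool.Agent.H623.TG.G

/-! Truncated graph, part H: the graph of the Collatz map on `[-N, N]`. -/

set_option autoImplicit false

namespace Pool.Agent.H623.TG

open Finset Filter Topology
open Pool.Agent.H499R2.CO (Tz)
open Pool.Agent.H499R2.ND (Inv HD Td)
open Pool.Agent.R344.TH (Tz_even Tz_odd Cz Cz_even Cz_odd Cz_Cz_odd)
open Pool.Agent.W41

/-- the Collatz map on the integers -/
def C (x : ℤ) : ℤ := if x % 2 = 0 then x / 2 else 3 * x + 1

/-- the edges of the graph on `[-N, N]` -/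
def Edge (N : ℕ) (x y : ℤ) : Prop := |x| ≤ N ∧ |y| ≤ N ∧ y = C x

/-- the component of `x` -/
def Comp (N : ℕ) (x : ℤ) : Set ℤ := {y | |y| ≤ N ∧ Relation.EqvGen (Edge N) x y}

/-- the trajectories of `x` and `y` meet inside `[-N, N]` -/
def Mt (N : ℕ) (x y : ℤ) : Prop :=
  ∃ i j : ℕ, C^[i] x = C^[j] y ∧ (∀ a ≤ i, |C^[a] x| ≤ N) ∧ ∀ b ≤ j, |C^[b] y| ≤ N

theorem Mt_symm {N : ℕ} {x y : ℤ} (h : Mt N x y) : Mt N y x := by
  obtain ⟨i, j, h1, h2, h3⟩ := h
  exact ⟨j, i, h1.symm, h3, h2⟩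

theorem Mt_aux {N : ℕ} {x y z : ℤ} {i j k l : ℕ} (h1 : C^[i] x = C^[j] y) (h2 : ∀ a ≤ i, |C^[a] x| ≤ N)
    (h5 : C^[k] y = C^[l] z) (h6 : ∀ a ≤ k, |C^[a] y| ≤ N)
    (h7 : ∀ b ≤ l, |C^[b] z| ≤ N) (hjk : j ≤ k) : Mt N x z := by
  obtain ⟨e, rfl⟩ := Nat.exists_eq_add_of_le hjk
  have key : ∀ m, C^[m + i] x = C^[m + j] y := by
    intro m
    rw [Function.iterate_add_apply, h1, ← Function.iterate_add_apply]
  refine ⟨e + i, l, ?_, fun a ha => ?_, h7⟩
  · rw [key, ← h5, add_comm]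
  · rcases Nat.lt_or_ge i a with h | h
    · obtain ⟨m, rfl⟩ := Nat.exists_eq_add_of_lt h
      rw [show i + m + 1 = (m + 1) + i by ring, key]
      exact h6 _ (by omega)
    · exact h2 a h

theorem Mt_trans {N : ℕ} {x y z : ℤ} (h : Mt N x y) (h' : Mt N y z) : Mt N x z := by
  obtain ⟨i, j, h1, h2, h3⟩ := h
  obtain ⟨k, l, h5, h6, h7⟩ := h'
  rcases le_total j k with hjk | hjk
  · exact Mt_aux h1 h2 h5 h6 h7 hjk
  · exact Mt_symm (Mt_aux h5.symm h7 h1.symm h3 h2 hjk)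

theorem Mt_refl {N : ℕ} {x : ℤ} (h : |x| ≤ N) : Mt N x x :=
  ⟨0, 0, rfl, fun a ha => by rw [Nat.le_zero.1 ha]; exact h, fun a ha => by rw [Nat.le_zero.1 ha]; exact h⟩

theorem Mt_left {N : ℕ} {x y : ℤ} (h : Mt N x y) : |x| ≤ N := by
  obtain ⟨i, j, _, h2, _⟩ := h
  exact h2 0 (Nat.zero_le _)

theorem Mt_right {N : ℕ} {x y : ℤ} (h : Mt N x y) : |y| ≤ N := Mt_left (Mt_symm h)

theorem eqv_path {N : ℕ} {x : ℤ} : ∀ i : ℕ, (∀ a ≤ i, |C^[a] x| ≤ N) → Relation.EqvGen (Edge N) x (C^[i] x)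
  | 0, _ => Relation.EqvGen.refl _
  | i + 1, h => by
    refine Relation.EqvGen.trans _ _ _ (eqv_path i fun a ha => h a (by omega)) (Relation.EqvGen.rel _ _ ?_)
    exact ⟨h i (by omega), h (i + 1) le_rfl, Function.iterate_succ_apply' _ _ _⟩

theorem eqv_of_Mt {N : ℕ} {x y : ℤ} (h : Mt N x y) : Relation.EqvGen (Edge N) x y := by
  obtain ⟨i, j, h1, h2, h3⟩ := h
  exact Relation.EqvGen.trans _ _ _ (eqv_path i h2) (Relation.EqvGen.symm _ _ (h1 ▸ eqv_path j h3))

theorem Mt_of_eqv {N : ℕ} {x y : ℤ} (h : Relation.EqvGen (Edge N) x y) : x = y ∨ Mt N x y := by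
  induction h with
  | rel x y h =>
    right
    refine ⟨1, 0, by rw [Function.iterate_one]; exact h.2.2.symm, fun a ha => ?_, fun b hb => ?_⟩
    · rcases Nat.le_one_iff_eq_zero_or_eq_one.1 ha with rfl | rfl
      · exact h.1
      · rw [Function.iterate_one, ← h.2.2]; exact h.2.1
    · rw [Nat.le_zero.1 hb]; exact h.2.1
  | refl x => exact Or.inl rfl
  | symm x y _ ih =>
    rcases ih with rfl | h
    · exact Or.inl rfl
    · exact Or.inr (Mt_symm h)
  | trans x y z _ _ ih1 ih2 =>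
    rcases ih1 with rfl | h1
    · exact ih2
    · rcases ih2 with rfl | h2
      · exact Or.inr h1
      · exact Or.inr (Mt_trans h1 h2)

theorem mem_Comp {N : ℕ} {x y : ℤ} : y ∈ Comp N x ↔ Mt N x y := by
  constructor
  · rintro ⟨h1, h2⟩
    rcases Mt_of_eqv h2 with rfl | h
    · exact Mt_refl h1
    · exact h
  · intro h
    exact ⟨Mt_right h, eqv_of_Mt h⟩

theorem Comp_eq {N : ℕ} {x y : ℤ} (h : y ∈ Comp N x) : Comp N y = Comp N x := by
  rw [mem_Comp] at h
  ext z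
  rw [mem_Comp, mem_Comp]
  exact ⟨fun h2 => Mt_trans h h2, fun h2 => Mt_trans (Mt_symm h) h2⟩

theorem Comp_fin (N : ℕ) (x : ℤ) : (Comp N x).Finite := by
  apply (Set.finite_Icc (-(N : ℤ)) N).subset
  rintro y ⟨hy, _⟩
  rwa [abs_le] at hy

theorem self_mem {N : ℕ} {x : ℤ} (h : |x| ≤ N) : x ∈ Comp N x := mem_Comp.2 (Mt_refl h)

/-! ### the two signs -/

theorem C_side {s : ℤ} (hs : s = 1 ∨ s = -1) (x : ℤ) : C (s * x) = s * Cz s x := by
  rcases hs with rfl | rfl
  · unfold C Cz; rw [one_mul, one_mul]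
  · unfold C Cz
    by_cases h : x % 2 = 0
    · rw [if_pos (by omega), if_pos h]; omega
    · rw [if_neg (by omega), if_neg h]; ring

theorem C_side_iter {s : ℤ} (hs : s = 1 ∨ s = -1) (x : ℤ) : ∀ k : ℕ, C^[k] (s * x) = s * (Cz s)^[k] x
  | 0 => rfl
  | k + 1 => by
    rw [Function.iterate_succ_apply', C_side_iter hs x k, C_side hs, Function.iterate_succ_apply']

theorem Cpos {s : ℤ} (hs : s = 1 ∨ s = -1) {x : ℤ} (hx : 0 < x) : 0 < Cz s x := by
  unfold Cz
  split_ifs <;> rcases hs with rfl | rfl <;> omega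

theorem Cpos_iter {s : ℤ} (hs : s = 1 ∨ s = -1) {x : ℤ} (hx : 0 < x) : ∀ k : ℕ, 0 < (Cz s)^[k] x
  | 0 => hx
  | k + 1 => by
    rw [Function.iterate_succ_apply']
    exact Cpos hs (Cpos_iter hs hx k)

theorem abs_side {s : ℤ} (hs : s = 1 ∨ s = -1) {x : ℤ} (hx : 0 < x) (k : ℕ) :
    |C^[k] (s * x)| = (Cz s)^[k] x := by
  rw [C_side_iter hs, abs_mul, abs_of_pos (Cpos_iter hs hx k)]
  rcases hs with rfl | rfl <;> simp

/-- the trajectory of `x` reaches a value below `Y` in absolute value inside `[-N, N]` -/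
def Rch (N : ℕ) (Y : ℝ) (x : ℤ) : Prop := ∃ i : ℕ, ((|C^[i] x| : ℤ) : ℝ) < Y ∧ ∀ a ≤ i, |C^[a] x| ≤ N

theorem low_of {s : ℤ} (hs : s = 1 ∨ s = -1) {N : ℕ} {Y : ℝ} : ∀ (i : ℕ) (n : ℤ), 0 < n →
    (((Cz s)^[i] n : ℤ) : ℝ) < Y → (∀ a ≤ i, (Cz s)^[a] n ≤ N) → Low s N Y n
  | 0, n, _, h, _ => ⟨0, h, fun j h1 h2 => by omega⟩
  | 1, n, hn, h, hb => by
    rcases Int.emod_two_eq_zero_or_one n with hp | hp
    · refine ⟨1, ?_, fun j h1 h2 => ?_⟩
      · rw [Function.iterate_one, ← Cz_even hp]; rwa [Function.iterate_one] at h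
      · have : j = 1 := by omega
        subst this
        rw [Function.iterate_one]
        have h3 := Tz_even (d := s) hp
        have h4 := hb 0 (by omega)
        rw [Function.iterate_zero, id] at h4
        have : 2 * Tz s n ≤ N := by omega
        exact_mod_cast this
    · refine ⟨0, ?_, fun j h1 h2 => by omega⟩
      rw [Function.iterate_one, Cz_odd (by omega)] at h
      rw [Function.iterate_zero, id]
      refine lt_of_le_of_lt ?_ h
      have : n ≤ 3 * n + s := by rcases hs with rfl | rfl <;> omega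
      exact_mod_cast this
  | i + 2, n, hn, h, hb => by
    rcases Int.emod_two_eq_zero_or_one n with hp | hp
    · have e := Cz_even (d := s) hp
      have h1 : (((Cz s)^[i + 1] (Tz s n) : ℤ) : ℝ) < Y := by
        rw [← e, ← Function.iterate_succ_apply]; exact h
      obtain ⟨t, ht1, ht2⟩ := low_of hs (i + 1) (Tz s n) (Tpos hs hn) h1 (fun a ha => by
        rw [← e, ← Function.iterate_succ_apply]; exact hb (a + 1) (by omega))
      refine ⟨t + 1, by rw [Function.iterate_succ_apply]; exact ht1, fun j h1 h2 => ?_⟩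
      obtain ⟨m, rfl⟩ : ∃ m, j = m + 1 := ⟨j - 1, by omega⟩
      rw [Function.iterate_succ_apply]
      rcases Nat.eq_zero_or_pos m with rfl | hm
      · rw [Function.iterate_zero, id]
        have h3 := Tz_even (d := s) hp
        have h4 := hb 0 (by omega)
        rw [Function.iterate_zero, id] at h4
        have : 2 * Tz s n ≤ N := by omega
        exact_mod_cast this
      · exact ht2 m hm (by omega)
    · have hs2 : s % 2 = 1 := by rcases hs with rfl | rfl <;> norm_num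
      have e := Cz_Cz_odd hs2 (x := n) (by omega)
      have h1 : (((Cz s)^[i] (Tz s n) : ℤ) : ℝ) < Y := by
        rw [← e, ← Function.iterate_succ_apply, ← Function.iterate_succ_apply]; exact h
      obtain ⟨t, ht1, ht2⟩ := low_of hs i (Tz s n) (Tpos hs hn) h1 (fun a ha => by
        rw [← e, ← Function.iterate_succ_apply, ← Function.iterate_succ_apply]; exact hb (a + 2) (by omega))
      refine ⟨t + 1, by rw [Function.iterate_succ_apply]; exact ht1, fun j h1 h2 => ?_⟩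
      obtain ⟨m, rfl⟩ : ∃ m, j = m + 1 := ⟨j - 1, by omega⟩
      rw [Function.iterate_succ_apply]
      rcases Nat.eq_zero_or_pos m with rfl | hm
      · rw [Function.iterate_zero, id]
        have h3 := Tz_odd hs2 (y := n) (by omega)
        have h4 := hb 1 (by omega)
        rw [Function.iterate_one, Cz_odd (by omega)] at h4
        have : 2 * Tz s n ≤ N := by omega
        exact_mod_cast this
      · exact ht2 m hm (by omega)

theorem of_low {s : ℤ} (hs : s = 1 ∨ s = -1) {N : ℕ} {Y : ℝ} : ∀ (t : ℕ) (n : ℤ), 0 < n → n ≤ N →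
    (((Tz s)^[t] n : ℤ) : ℝ) < Y → (∀ j : ℕ, 1 ≤ j → j ≤ t → 2 * (((Tz s)^[j] n : ℤ) : ℝ) ≤ N) →
    ∃ i : ℕ, (((Cz s)^[i] n : ℤ) : ℝ) < Y ∧ ∀ a ≤ i, (Cz s)^[a] n ≤ N
  | 0, n, _, hN, h, _ => ⟨0, h, fun a ha => by rw [Nat.le_zero.1 ha]; exact hN⟩
  | t + 1, n, hn, hN, h, hb => by
    have h1 := hb 1 le_rfl (by omega)
    rw [Function.iterate_one] at h1
    have h1' : 2 * Tz s n ≤ N := by exact_mod_cast h1
    have hpos := Tpos hs hn
    obtain ⟨i, hi1, hi2⟩ := of_low (N := N) (Y := Y) hs t (Tz s n) hpos (by omega)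
      (by rw [← Function.iterate_succ_apply]; exact h)
      (fun j hj1 hj2 => by
        have := hb (j + 1) (by omega) (by omega)
        rwa [Function.iterate_succ_apply] at this)
    rcases Int.emod_two_eq_zero_or_one n with hp | hp
    · have e := Cz_even (d := s) hp
      refine ⟨i + 1, by rw [Function.iterate_succ_apply, e]; exact hi1, fun a ha => ?_⟩
      rcases Nat.eq_zero_or_pos a with rfl | ha0
      · exact hN
      · obtain ⟨m, rfl⟩ : ∃ m, a = m + 1 := ⟨a - 1, by omega⟩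
        rw [Function.iterate_succ_apply, e]
        exact hi2 m (by omega)
    · have hs2 : s % 2 = 1 := by rcases hs with rfl | rfl <;> norm_num
      have e := Cz_Cz_odd hs2 (x := n) (by omega)
      refine ⟨i + 2, by rw [Function.iterate_succ_apply, Function.iterate_succ_apply, e]; exact hi1, fun a ha => ?_⟩
      rcases Nat.lt_or_ge a 2 with ha2 | ha2
      · rcases Nat.eq_zero_or_pos a with rfl | ha0
        · exact hN
        · have : a = 1 := by omega
          subst this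
          rw [Function.iterate_one, Cz_odd (by omega)]
          have h3 := Tz_odd hs2 (y := n) (by omega)
          omega
      · obtain ⟨m, rfl⟩ : ∃ m, a = m + 2 := ⟨a - 2, by omega⟩
        rw [Function.iterate_succ_apply, Function.iterate_succ_apply, e]
        exact hi2 m (by omega)

theorem low_iff {s : ℤ} (hs : s = 1 ∨ s = -1) {N : ℕ} {Y : ℝ} {n : ℤ} (hn : 0 < n) (hN : n ≤ N) :
    Low s N Y n ↔ Rch N Y (s * n) := by
  constructor
  · rintro ⟨t, h1, h2⟩
    obtain ⟨i, h3, h4⟩ := of_low hs t n hn hN h1 h2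
    exact ⟨i, by rw [abs_side hs hn]; exact h3, fun a ha => by rw [abs_side hs hn]; exact h4 a ha⟩
  · rintro ⟨i, h1, h2⟩
    rw [abs_side hs hn] at h1
    exact low_of hs i n hn h1 fun a ha => by rw [← abs_side hs hn]; exact h2 a ha

/-- the C-iterate behind a T-iterate -/
theorem T_is_C {s : ℤ} (hs : s = 1 ∨ s = -1) (n : ℤ) : ∀ j : ℕ, ∃ i ≤ 2 * j, (Cz s)^[i] n = (Tz s)^[j] n
  | 0 => ⟨0, le_rfl, rfl⟩
  | j + 1 => by
    obtain ⟨i, hi, h⟩ := T_is_C hs n j
    rcases Int.emod_two_eq_zero_or_one ((Tz s)^[j] n) with hp | hp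
    · refine ⟨i + 1, by omega, ?_⟩
      rw [Function.iterate_succ_apply', h, Function.iterate_succ_apply', Cz_even hp]
    · have hs2 : s % 2 = 1 := by rcases hs with rfl | rfl <;> norm_num
      refine ⟨i + 2, by omega, ?_⟩
      rw [Function.iterate_succ_apply', Function.iterate_succ_apply', h, Function.iterate_succ_apply',
        Cz_Cz_odd hs2 (by omega)]

/-- an early exit -/
theorem exit_C {s : ℤ} (hs : s = 1 ∨ s = -1) {N K : ℕ} {n : ℤ} (hn : 0 < n)
    (h : ∃ j : ℕ, 1 ≤ j ∧ j < K ∧ (N : ℝ) < 2 * (((Tz s)^[j] n : ℤ) : ℝ)) :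
    ∃ k < 2 * K, (N : ℤ) < |C^[k] (s * n)| := by
  obtain ⟨j, h1, h2, h3⟩ := h
  obtain ⟨m, rfl⟩ : ∃ m, j = m + 1 := ⟨j - 1, by omega⟩
  have h4 : (N : ℤ) < 2 * (Tz s)^[m + 1] n := by exact_mod_cast h3
  obtain ⟨i, hi, h⟩ := T_is_C hs n m
  rw [Function.iterate_succ_apply'] at h4
  rcases Int.emod_two_eq_zero_or_one ((Tz s)^[m] n) with hp | hp
  · refine ⟨i, by omega, ?_⟩
    rw [abs_side hs hn, h]
    rwa [Tz_even hp] at h4
  · have hs2 : s % 2 = 1 := by rcases hs with rfl | rfl <;> norm_num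
    refine ⟨i + 1, by omega, ?_⟩
    rw [abs_side hs hn, Function.iterate_succ_apply', h, Cz_odd (by omega)]
    rwa [Tz_odd hs2 (by omega)] at h4

end Pool.Agent.H623.TG
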