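import Pool.Agent.H623.TG.H

/-! Truncated graph, part I: the shares of the components of the small integers, and the small components. -/

set_option autoImplicit false

namespace Pool.Agent.H623.TG

open Finset Filter Topology
open Pool.Agent.H499R2.CO (Tz)
open Pool.Agent.H499R2.ND (Inv HD Td HD_ncard dens_side class_pos HD_unique)
open Pool.Agent.R344.TH (Tz_even Tz_odd Cz Cz_even Cz_odd Cz_Cz_odd)
open Pool.Agent.W41

/-- the class of `x` -/
def Cls (x : ℤ) : Set ℤ := {y | ∃ i j : ℕ, C^[i] x = C^[j] y}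

/-- invariance under the map and its inverse -/
def Invt (S : Set ℤ) : Prop := ∀ x : ℤ, x ∈ S ↔ C x ∈ S

theorem inv_Td {S : Set ℤ} (hS : Invt S) : Inv 1 S := by
  intro x
  have e : Td 1 x = C x ∨ Td 1 x = C (C x) := by
    unfold Td C
    by_cases h : x % 2 = 0
    · left; simp [h]
    · right
      have h2 : (3 * x + 1) % 2 = 0 := by omega
      simp [h, h2]
  rcases e with h | h
  · rw [h]; exact hS x
  · rw [h]; exact (hS x).trans (hS (C x))

theorem C_even {y : ℤ} (h : y % 2 = 0) : C y = y / 2 := by unfold C; rw [if_pos h]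

theorem C_odd {y : ℤ} (h : ¬ y % 2 = 0) : C y = 3 * y + 1 := by unfold C; rw [if_neg h]

theorem abs_nat (u : ℤ) : |u| = (u.natAbs : ℤ) := (Int.natCast_natAbs u).symm

theorem Cls_inv (x : ℤ) : Invt (Cls x) := by
  intro y
  constructor
  · rintro ⟨i, j, h⟩
    refine ⟨i + 1, j, ?_⟩
    rw [Function.iterate_succ_apply' C, h, ← Function.iterate_succ_apply' C, Function.iterate_succ_apply]
  · rintro ⟨i, j, h⟩
    exact ⟨i, j + 1, by rw [h, Function.iterate_succ_apply]⟩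

theorem Cls_self (x : ℤ) : x ∈ Cls x := ⟨0, 0, rfl⟩

theorem Cls_symm {x y : ℤ} (h : y ∈ Cls x) : x ∈ Cls y := by
  obtain ⟨i, j, h⟩ := h
  exact ⟨j, i, h.symm⟩

theorem Cls_trans {x y z : ℤ} (h : y ∈ Cls x) (h' : z ∈ Cls y) : z ∈ Cls x := by
  obtain ⟨i, j, h⟩ := h
  obtain ⟨k, l, h'⟩ := h'
  refine ⟨k + i, j + l, ?_⟩
  rw [Function.iterate_add_apply, h, ← Function.iterate_add_apply, add_comm k j, Function.iterate_add_apply, h',
    ← Function.iterate_add_apply]

theorem Cls_eq {x y : ℤ} (h : y ∈ Cls x) : Cls y = Cls x := by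
  ext z
  exact ⟨fun h2 => Cls_trans h h2, fun h2 => Cls_trans (Cls_symm h) h2⟩

theorem Mt_Cls {N : ℕ} {x y : ℤ} (h : Mt N x y) : y ∈ Cls x := by
  obtain ⟨i, j, h, _, _⟩ := h
  exact ⟨i, j, h⟩

theorem C_iter_sign {s : ℤ} (hs : s = 1 ∨ s = -1) {x : ℤ} (hx : 0 < s * x) (k : ℕ) : 0 < s * C^[k] x := by
  have e : x = s * (s * x) := by rcases hs with rfl | rfl <;> ring
  rw [e, C_side_iter hs]
  have h := Cpos_iter hs hx k
  have e2 : s * (s * (Cz s)^[k] (s * x)) = (Cz s)^[k] (s * x) := by rcases hs with rfl | rfl <;> ring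
  rw [e2]; exact h

theorem C_iter_zero (k : ℕ) : C^[k] 0 = 0 := by
  induction k with
  | zero => rfl
  | succ k ih => rw [Function.iterate_succ_apply', ih]; rfl

theorem Cls_sign {s : ℤ} (hs : s = 1 ∨ s = -1) {x y : ℤ} (hx : 0 < s * x) (h : y ∈ Cls x) : 0 < s * y := by
  obtain ⟨i, j, h⟩ := h
  have h1 := C_iter_sign hs hx i
  rw [h] at h1
  rcases lt_trichotomy (s * y) 0 with h2 | h2 | h2
  · have hs' : -s = 1 ∨ -s = -1 := by rcases hs with rfl | rfl <;> simp
    have := C_iter_sign hs' (x := y) (by linarith) j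
    linarith
  · have : y = 0 := by rcases hs with rfl | rfl <;> omega
    rw [this, C_iter_zero] at h1
    simp at h1
  · exact h2

/-- once two trajectories meet, they meet inside every large interval -/
theorem Mt_large {x z : ℤ} (h : z ∈ Cls x) : ∃ n : ℕ, ∀ N ≥ n, Mt N x z := by
  obtain ⟨i, j, h⟩ := h
  have hb : ∀ (u : ℤ) (k : ℕ), ∃ n : ℕ, ∀ a ≤ k, |C^[a] u| ≤ n := by
    intro u k
    induction k with
    | zero =>
      refine ⟨u.natAbs, fun a ha => ?_⟩
      rw [Nat.le_zero.1 ha, Function.iterate_zero, id, abs_nat]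
    | succ k ih =>
      obtain ⟨n, hn⟩ := ih
      refine ⟨max n (C^[k + 1] u).natAbs, fun a ha => ?_⟩
      rcases Nat.lt_or_ge a (k + 1) with h1 | h1
      · have := hn a (by omega)
        have h2 : (n : ℤ) ≤ ((max n (C^[k + 1] u).natAbs : ℕ) : ℤ) := by exact_mod_cast le_max_left _ _
        linarith
      · have : a = k + 1 := by omega
        subst this
        have h2 : ((C^[k + 1] u).natAbs : ℤ) ≤ ((max n (C^[k + 1] u).natAbs : ℕ) : ℤ) := by exact_mod_cast le_max_right _ _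
        rw [abs_nat]; exact h2
  obtain ⟨n1, h1⟩ := hb x i
  obtain ⟨n2, h2⟩ := hb z j
  refine ⟨max n1 n2, fun N hN => ⟨i, j, h, fun a ha => (h1 a ha).trans ?_, fun a ha => (h2 a ha).trans ?_⟩⟩
  · exact_mod_cast (le_max_left n1 n2).trans hN
  · exact_mod_cast (le_max_right n1 n2).trans hN

/-- the elements of a trajectory from which it returns to small values are bounded -/
theorem ret_bdd (z : ℤ) (Y : ℕ) : ∃ W : ℕ, Y ≤ W ∧ ∀ i : ℕ, (∃ j ≥ i, |C^[j] z| ≤ Y) → |C^[i] z| ≤ W := by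
  have hb : ∀ k : ℕ, ∃ n : ℕ, ∀ a < k, |C^[a] z| ≤ n := by
    intro k
    refine ⟨(range k).sup (fun a => (C^[a] z).natAbs), fun a ha => ?_⟩
    have h1 : (C^[a] z).natAbs ≤ (range k).sup (fun a => (C^[a] z).natAbs) :=
      Finset.le_sup (f := fun a => (C^[a] z).natAbs) (mem_range.2 ha)
    rw [abs_nat]; exact_mod_cast h1
  by_cases hinf : {k : ℕ | |C^[k] z| ≤ Y}.Infinite
  · have hmaps : Set.MapsTo (fun k => C^[k] z) {k : ℕ | |C^[k] z| ≤ Y} (Set.Icc (-(Y : ℤ)) Y) := by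
      intro k hk
      have : |C^[k] z| ≤ Y := hk
      rw [abs_le] at this
      exact this
    obtain ⟨a, _, b, _, hab, heq⟩ := hinf.exists_ne_map_eq_of_mapsTo hmaps (Set.finite_Icc _ _)
    have key : ∀ a b : ℕ, a < b → C^[a] z = C^[b] z → ∃ W : ℕ, ∀ i, |C^[i] z| ≤ W := by
      intro a b hab heq
      obtain ⟨n, hn⟩ := hb b
      refine ⟨n, fun i => ?_⟩
      induction i using Nat.strong_induction_on with
      | _ i ih =>
        rcases Nat.lt_or_ge i b with h | h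
        · exact hn i h
        · obtain ⟨e, rfl⟩ := Nat.exists_eq_add_of_le h
          have e1 : C^[b + e] z = C^[a + e] z := by
            rw [add_comm b e, add_comm a e, Function.iterate_add_apply, Function.iterate_add_apply, ← heq]
          rw [e1]
          exact ih (a + e) (by omega)
    obtain ⟨W, hW⟩ : ∃ W : ℕ, ∀ i, |C^[i] z| ≤ W := by
      rcases Nat.lt_or_gt_of_ne hab with h | h
      · exact key a b h heq
      · exact key b a h heq.symm
    refine ⟨max Y W, le_max_left _ _, fun i _ => (hW i).trans ?_⟩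
    exact_mod_cast le_max_right Y W
  · rw [Set.not_infinite] at hinf
    obtain ⟨K, hK⟩ := hinf.bddAbove
    obtain ⟨n, hn⟩ := hb (K + 1)
    refine ⟨max Y n, le_max_left _ _, fun i hi => ?_⟩
    obtain ⟨j, hj, hj2⟩ := hi
    have h1 : j ≤ K := hK hj2
    refine (hn i (by omega)).trans ?_
    exact_mod_cast le_max_right Y n

theorem ret_bdd_all (Y : ℕ) : ∃ W : ℕ, Y ≤ W ∧ ∀ z : ℤ, |z| ≤ Y → ∀ i : ℕ, (∃ j ≥ i, |C^[j] z| ≤ Y) → |C^[i] z| ≤ W := by
  choose W hW1 hW2 using fun z => ret_bdd z Y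
  refine ⟨(Icc (-(Y : ℤ)) Y).sup W, ?_, fun z hz i hi => (hW2 z i hi).trans ?_⟩
  · exact (hW1 0).trans (Finset.le_sup (f := W) (mem_Icc.2 ⟨by omega, by omega⟩))
  · rw [abs_le] at hz
    exact_mod_cast Finset.le_sup (f := W) (mem_Icc.2 hz)

/-- the component of `x` has an element in `[-Y, Y]` -/
def Bg (N Y : ℕ) : Set ℤ := {x | ∃ z ∈ Comp N x, |z| ≤ Y}

theorem rch_bg {N Y : ℕ} {x : ℤ} (h : Rch N ((Y : ℝ) + 1) x) : x ∈ Bg N Y := by
  obtain ⟨i, h1, h2⟩ := h
  refine ⟨C^[i] x, mem_Comp.2 ⟨i, 0, rfl, h2, fun b hb => ?_⟩, ?_⟩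
  · rw [Nat.le_zero.1 hb]; exact h2 i le_rfl
  · have : ((|C^[i] x| : ℤ) : ℝ) < ((Y + 1 : ℤ) : ℝ) := by push_cast; exact_mod_cast h1
    have h3 : |C^[i] x| < Y + 1 := by exact_mod_cast this
    omega

theorem bg_rch {N Y W : ℕ} (hYW : Y ≤ W) (hW : ∀ z : ℤ, |z| ≤ Y → ∀ i : ℕ, (∃ j ≥ i, |C^[j] z| ≤ Y) → |C^[i] z| ≤ W)
    {x : ℤ} (h : x ∈ Bg N Y) (hx : ∃ k, |C^[k] x| ≤ Y) : Rch N ((W : ℝ) + 1) x := by
  obtain ⟨z, hz, hzY⟩ := h
  rw [mem_Comp] at hz
  obtain ⟨i, j, h1, h2, h3⟩ := hz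
  obtain ⟨k, hk⟩ := hx
  have cast_lt : ∀ u : ℤ, |u| ≤ W → ((|u| : ℤ) : ℝ) < (W : ℝ) + 1 := by
    intro u hu
    have : ((|u| : ℤ) : ℝ) ≤ W := by exact_mod_cast hu
    linarith
  rcases Nat.lt_or_ge i k with hik | hik
  · obtain ⟨e, rfl⟩ := Nat.exists_eq_add_of_lt hik
    refine ⟨i, cast_lt _ ?_, h2⟩
    rw [h1]
    apply hW z hzY
    refine ⟨(e + 1) + j, by omega, ?_⟩
    rw [Function.iterate_add_apply, ← h1, ← Function.iterate_add_apply]
    rw [show e + 1 + i = i + e + 1 by ring]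
    exact hk
  · refine ⟨k, cast_lt _ (hk.trans (by exact_mod_cast hYW)), fun a ha => h2 a (by omega)⟩

theorem cF_mono {s : ℤ} {S S' : Set ℤ} {N : ℕ} (h : ∀ n : ℕ, 1 ≤ n → n ≤ N → s * (n : ℤ) ∈ S → s * (n : ℤ) ∈ S') :
    cF s S N ≤ cF s S' N := by
  classical
  unfold cF
  apply card_le_card
  intro n hn
  rw [mem_filter, mem_Icc] at hn ⊢
  exact ⟨hn.1, h n hn.1.1 hn.1.2 hn.2⟩

theorem cL_eq {s : ℤ} (hs : s = 1 ∨ s = -1) (S : Set ℤ) (N : ℕ) (Y : ℝ) : cL s S N Y = cF s (S ∩ {x | Rch N Y x}) N := by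
  classical
  unfold cL cF
  congr 1
  ext n
  simp only [mem_filter, mem_Icc]
  constructor
  · rintro ⟨h1, h2, h3⟩
    rw [low_iff hs (by exact_mod_cast h1.1) (by exact_mod_cast h1.2)] at h3
    exact ⟨h1, h2, h3⟩
  · rintro ⟨h1, h2, h3⟩
    refine ⟨h1, h2, ?_⟩
    rw [low_iff hs (by exact_mod_cast h1.1) (by exact_mod_cast h1.2)]
    exact h3

theorem cF_union {s : ℤ} (A B : Set ℤ) (N : ℕ) : cF s (A ∪ B) N ≤ cF s A N + cF s B N := by
  classical
  unfold cF
  refine le_trans (card_le_card ?_) (card_union_le _ _)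
  intro n hn
  simp only [mem_filter, mem_union, Set.mem_union] at hn ⊢
  tauto

theorem cF_fin {s : ℤ} (hs : s = 1 ∨ s = -1) (E : Finset ℤ) (N : ℕ) : cF s {x | s * x ∈ E} N ≤ E.card := by
  classical
  unfold cF
  apply card_le_card_of_injOn (fun n : ℕ => (n : ℤ))
  · intro n hn
    simp only [coe_filter, Set.mem_ofPred_eq, s_mul hs] at hn
    exact hn.2
  · intro a _ b _ h
    simpa using h

/-- THE SHARES, uniformly in the invariant set -/
theorem share {s : ℤ} (hs : s = 1 ∨ s = -1) {κ : ℝ} (hκ : Tendsto kap atTop (𝓝 κ)) {ε : ℝ} (hε : 0 < ε) :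
    ∃ Y0 : ℕ, ∀ Y : ℕ, Y0 ≤ Y → ∃ N0 : ℕ, ∀ N : ℕ, N0 ≤ N → ∀ S : Set ℤ, Invt S → ∀ δ : ℝ, HD s S δ →
      |(cF s (S ∩ Bg N Y) N : ℝ) - κ * δ * N| ≤ ε * N := by
  classical
  obtain ⟨Ya, _, Ha⟩ := main_count hs hκ (show 0 < ε / 2 by positivity)
  obtain ⟨K, Yb, _, Nb, Hb⟩ := exc hs (show 0 < ε / 2 by positivity)
  obtain ⟨Y0, hY0⟩ := exists_nat_ge (max Ya Yb)
  refine ⟨Y0, fun Y hY => ?_⟩
  have hYR : (Y0 : ℝ) ≤ Y := by exact_mod_cast hY
  have hYa : Ya ≤ (Y : ℝ) + 1 := by have := le_max_left Ya Yb; linarith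
  have hYb : Yb ≤ (Y : ℝ) + 1 := by have := le_max_right Ya Yb; linarith
  obtain ⟨W, hYW, hW⟩ := ret_bdd_all Y
  have hWR : (Y : ℝ) ≤ W := by exact_mod_cast hYW
  obtain ⟨N1, H1⟩ := Ha ((Y : ℝ) + 1) hYa
  obtain ⟨N2, H2⟩ := Ha ((W : ℝ) + 1) (by linarith)
  refine ⟨max (max N1 N2) Nb, fun N hN S hS δ hδ => ?_⟩
  have c1 : N1 ≤ N := (le_max_left _ _).trans ((le_max_left _ _).trans hN)
  have c2 : N2 ≤ N := (le_max_right _ _).trans ((le_max_left _ _).trans hN)
  have c3 : Nb ≤ N := (le_max_right _ _).trans hN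
  have h1 := H1 N c1 S (inv_Td hS) δ hδ
  have h2 := H2 N c2 S (inv_Td hS) δ hδ
  rw [cL_eq hs] at h1 h2
  obtain ⟨E, hE1, hE2⟩ := Hb K le_rfl ((Y : ℝ) + 1) hYb N c3
  have lo : cF s (S ∩ {x | Rch N ((Y : ℝ) + 1) x}) N ≤ cF s (S ∩ Bg N Y) N :=
    cF_mono fun n _ _ h => ⟨h.1, rch_bg h.2⟩
  have up : cF s (S ∩ Bg N Y) N ≤ cF s (S ∩ {x | Rch N ((W : ℝ) + 1) x}) N + E.card := by
    refine le_trans (cF_mono (S' := (S ∩ {x | Rch N ((W : ℝ) + 1) x}) ∪ {x | s * x ∈ E}) ?_)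
      ((cF_union _ _ _).trans (Nat.add_le_add_left (cF_fin hs E N) _))
    intro n hn1 hnN hn
    by_cases hnE : (n : ℤ) ∈ E
    · right
      show s * (s * (n : ℤ)) ∈ E
      rw [s_mul hs]; exact hnE
    · left
      refine ⟨hn.1, ?_⟩
      apply bg_rch hYW hW hn.2
      obtain ⟨t, ht, _⟩ := hE2 n (by exact_mod_cast hn1) (by exact_mod_cast hnN) hnE
      obtain ⟨i, _, hi⟩ := T_is_C hs (n : ℤ) t
      refine ⟨i, ?_⟩
      rw [abs_side hs (by exact_mod_cast hn1), hi]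
      have : (((Tz s)^[t] (n : ℤ) : ℤ) : ℝ) < ((Y + 1 : ℤ) : ℝ) := by push_cast; exact_mod_cast ht
      have h3 : (Tz s)^[t] (n : ℤ) < Y + 1 := by exact_mod_cast this
      omega
  have lo' : (cF s (S ∩ {x | Rch N ((Y : ℝ) + 1) x}) N : ℝ) ≤ cF s (S ∩ Bg N Y) N := by exact_mod_cast lo
  have up' : (cF s (S ∩ Bg N Y) N : ℝ) ≤ cF s (S ∩ {x | Rch N ((W : ℝ) + 1) x}) N + E.card := by exact_mod_cast up
  rw [abs_le] at h1 h2 ⊢
  have hN0 : (0 : ℝ) ≤ N := Nat.cast_nonneg N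
  constructor <;> nlinarith

/-- THE SIZE OF THE COMPONENT OF A FIXED INTEGER -/
theorem size {s : ℤ} (hs : s = 1 ∨ s = -1) {κ : ℝ} (hκ : Tendsto kap atTop (𝓝 κ)) {x : ℤ} (hx : 0 < s * x) {δ : ℝ}
    (hδ : HD s (Cls x) δ) : Tendsto (fun N : ℕ => ((Comp N x).ncard : ℝ) / N) atTop (𝓝 (κ * δ)) := by
  classical
  rw [Metric.tendsto_atTop]
  intro ε hε
  obtain ⟨Y0, H⟩ := share hs hκ (show 0 < ε / 2 by positivity)
  set Y : ℕ := max Y0 x.natAbs with hY
  obtain ⟨N0, HN⟩ := H Y (le_max_left _ _)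
  have hz : ∀ z : ℤ, ∃ n : ℕ, z ∈ Cls x → ∀ N ≥ n, Mt N x z := by
    intro z
    by_cases h : z ∈ Cls x
    · obtain ⟨n, hn⟩ := Mt_large h
      exact ⟨n, fun _ => hn⟩
    · exact ⟨0, fun h' => absurd h' h⟩
  choose n hn using hz
  refine ⟨max (max N0 ((Icc (-(Y : ℤ)) Y).sup n)) 1, fun N hN => ?_⟩
  have c1 : N0 ≤ N := (le_max_left _ _).trans ((le_max_left _ _).trans hN)
  have c2 : (Icc (-(Y : ℤ)) Y).sup n ≤ N := (le_max_right _ _).trans ((le_max_left _ _).trans hN)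
  have c3 : 1 ≤ N := (le_max_right _ _).trans hN
  have hNR : (0 : ℝ) < N := by exact_mod_cast c3
  have h1 := HN N c1 (Cls x) (Cls_inv x) δ hδ
  have hxY : |x| ≤ Y := by
    rw [abs_nat]
    exact_mod_cast le_max_right Y0 x.natAbs
  have e : Comp N x = {y : ℤ | 0 < s * y ∧ s * y ≤ N ∧ y ∈ Cls x ∩ Bg N Y} := by
    ext y
    constructor
    · intro hy
      have hy' := mem_Comp.1 hy
      have hc := Mt_Cls hy'
      have hpos := Cls_sign hs hx hc
      refine ⟨hpos, ?_, hc, x, ?_, hxY⟩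
      · have h2 := Mt_right hy'
        rw [abs_le] at h2
        rcases hs with rfl | rfl <;> omega
      · exact mem_Comp.2 (Mt_symm hy')
    · rintro ⟨_, _, hc, z, hz, hzY⟩
      have hz' := mem_Comp.1 hz
      have hzc : z ∈ Cls x := Cls_trans hc (Mt_Cls hz')
      have h2 : Mt N x z := by
        apply hn z hzc
        refine le_trans ?_ c2
        rw [abs_le] at hzY
        exact Finset.le_sup (f := n) (mem_Icc.2 hzY)
      exact mem_Comp.2 (Mt_trans h2 (Mt_symm hz'))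
  rw [e, cF_ncard hs, Real.dist_eq]
  have e2 : (cF s (Cls x ∩ Bg N Y) N : ℝ) / N - κ * δ = ((cF s (Cls x ∩ Bg N Y) N : ℝ) - κ * δ * N) / N := by
    field_simp
  rw [e2, abs_div, abs_of_pos hNR, div_lt_iff₀ hNR]
  nlinarith

/-! ### the small components -/

theorem pre_C (F : Finset ℤ) : ∀ (k : ℕ) (A : Finset ℤ), (F.filter (fun x => C^[k] x ∈ A)).card ≤ 2 ^ k * A.card
  | 0, A => by
    rw [pow_zero, one_mul]
    apply card_le_card
    intro x hx
    rw [mem_filter] at hx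
    exact hx.2
  | k + 1, A => by
    have h := pre_C F k (A.image (fun y => 2 * y) ∪ A.image (fun y => (y - 1) / 3))
    have h2 : (A.image (fun y => 2 * y) ∪ A.image (fun y => (y - 1) / 3)).card ≤ 2 * A.card := by
      refine (card_union_le _ _).trans ?_
      have h3 : (A.image (fun y => 2 * y)).card ≤ A.card := card_image_le
      have h4 : (A.image (fun y => (y - 1) / 3)).card ≤ A.card := card_image_le
      omega
    have hsub : F.filter (fun x => C^[k + 1] x ∈ A) ⊆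
        F.filter (fun x => C^[k] x ∈ A.image (fun y => 2 * y) ∪ A.image (fun y => (y - 1) / 3)) := by
      intro x hx
      rw [mem_filter] at hx ⊢
      refine ⟨hx.1, ?_⟩
      have h5 := hx.2
      rw [Function.iterate_succ_apply'] at h5
      rw [mem_union, mem_image, mem_image]
      by_cases hp : C^[k] x % 2 = 0
      · left
        refine ⟨_, h5, ?_⟩
        rw [C_even hp]
        omega
      · right
        refine ⟨_, h5, ?_⟩
        rw [C_odd hp]
        omega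
    calc _ ≤ _ := card_le_card hsub
      _ ≤ _ := h
      _ ≤ 2 ^ k * (2 * A.card) := Nat.mul_le_mul_left _ h2
      _ = 2 ^ (k + 1) * A.card := by rw [pow_succ]; ring

/-- the first exit -/
theorem first_exit {N k : ℕ} {x : ℤ} (hx : |x| ≤ N) (h : (N : ℤ) < |C^[k] x|) : ∃ m < k,
    (∀ a ≤ m, |C^[a] x| ≤ N) ∧ (N : ℤ) < |C^[m + 1] x| := by
  classical
  have hex : ∃ k, (N : ℤ) < |C^[k] x| := ⟨k, h⟩
  have h1 := Nat.find_spec hex
  have h2 : Nat.find hex ≤ k := Nat.find_min' hex h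
  rcases Nat.eq_zero_or_pos (Nat.find hex) with h0 | h0
  · rw [h0] at h1
    rw [Function.iterate_zero, id] at h1
    omega
  · refine ⟨Nat.find hex - 1, by omega, fun a ha => ?_, ?_⟩
    · have := Nat.find_min hex (m := a) (by omega)
      omega
    · rw [Nat.sub_add_cancel h0]; exact h1

/-- joined vertices have the same exit -/
theorem same_exit {N m m' : ℕ} {x y : ℤ} (h : Mt N x y) (h1 : ∀ a ≤ m, |C^[a] x| ≤ N) (h2 : (N : ℤ) < |C^[m + 1] x|)
    (h1' : ∀ a ≤ m', |C^[a] y| ≤ N) (h2' : (N : ℤ) < |C^[m' + 1] y|) : C^[m] x = C^[m'] y := by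
  obtain ⟨i, j, e, h3, h4⟩ := h
  have him : i ≤ m := by
    by_contra hcon
    have := h3 (m + 1) (by omega)
    omega
  have hjm : j ≤ m' := by
    by_contra hcon
    have := h4 (m' + 1) (by omega)
    omega
  obtain ⟨u, rfl⟩ := Nat.exists_eq_add_of_le him
  obtain ⟨v, rfl⟩ := Nat.exists_eq_add_of_le hjm
  have key : ∀ w, C^[w + i] x = C^[w + j] y := by
    intro w
    rw [Function.iterate_add_apply, e, ← Function.iterate_add_apply]
  have huv : u = v := by
    rcases Nat.lt_trichotomy u v with h | h | h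
    · exfalso
      have h5 := h1' (j + (u + 1)) (by omega)
      rw [add_comm j (u + 1), ← key, show u + 1 + i = i + u + 1 by ring] at h5
      omega
    · exact h
    · exfalso
      have h5 := h1 (i + (v + 1)) (by omega)
      rw [add_comm i (v + 1), key, show v + 1 + j = j + v + 1 by ring] at h5
      omega
  rw [huv, add_comm i v, add_comm j v, key]

/-- in one component few vertices exit early -/
theorem early_fiber {N L : ℕ} {x0 : ℤ} (F : Finset ℤ) (hF : ∀ y ∈ F, y ∈ Comp N x0 ∧ ∃ k < L, (N : ℤ) < |C^[k] y|) :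
    F.card ≤ 2 ^ L := by
  classical
  rcases F.eq_empty_or_nonempty with rfl | ⟨y0, hy0⟩
  · simp
  · have hdata : ∀ y ∈ F, ∃ m < L, (∀ a ≤ m, |C^[a] y| ≤ N) ∧ (N : ℤ) < |C^[m + 1] y| := by
      intro y hy
      obtain ⟨h1, k, hk, h2⟩ := hF y hy
      obtain ⟨m, hm, h3, h4⟩ := first_exit h1.1 h2
      exact ⟨m, by omega, h3, h4⟩
    obtain ⟨m0, _, h3, h4⟩ := hdata y0 hy0
    have hsub : F ⊆ (range L).biUnion (fun m => F.filter (fun y => C^[m] y ∈ ({C^[m0] y0} : Finset ℤ))) := by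
      intro y hy
      obtain ⟨m, hm, h5, h6⟩ := hdata y hy
      rw [mem_biUnion]
      refine ⟨m, mem_range.2 hm, ?_⟩
      rw [mem_filter, mem_singleton]
      refine ⟨hy, ?_⟩
      have h7 : Mt N y y0 := Mt_trans (Mt_symm (mem_Comp.1 (hF y hy).1)) (mem_Comp.1 (hF y0 hy0).1)
      exact same_exit h7 h5 h6 h3 h4
    calc F.card ≤ _ := card_le_card hsub
      _ ≤ ∑ m ∈ range L, (F.filter (fun y => C^[m] y ∈ ({C^[m0] y0} : Finset ℤ))).card := card_biUnion_le
      _ ≤ ∑ m ∈ range L, 2 ^ m := sum_le_sum fun m _ => by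
          have := pre_C F m {C^[m0] y0}
          rwa [card_singleton, mul_one] at this
      _ ≤ 2 ^ L := by
          have := Nat.geomSum_eq (le_refl 2) L
          rw [this]
          simp

/-- the vertices of the large components without small elements -/
def Odd' (N M : ℕ) : Set ℤ := {x | |x| ≤ N ∧ M < (Comp N x).ncard ∧ ∀ z ∈ Comp N x, (M : ℤ) < |z|}

theorem Odd'_fin (N M : ℕ) : (Odd' N M).Finite := by
  apply (Set.finite_Icc (-(N : ℤ)) N).subset
  rintro y ⟨hy, _⟩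
  rwa [abs_le] at hy

/-- THERE ARE FEW OTHER LARGE COMPONENTS -/
theorem tight {ε : ℝ} (hε : 0 < ε) : ∃ M N0 : ℕ, ∀ N : ℕ, N0 ≤ N → ((Odd' N M).ncard : ℝ) ≤ ε * N := by
  classical
  have hex := fun s (hs : s = 1 ∨ s = -1) => exc hs (show 0 < ε / 4 by positivity)
  obtain ⟨K1, Y1, hY1, N1, H1⟩ := hex 1 (Or.inl rfl)
  obtain ⟨K2, Y2, hY2, N2, H2⟩ := hex (-1) (Or.inr rfl)
  set K := max K1 K2 with hK
  set Y := max Y1 Y2 with hY
  obtain ⟨m1, hm1⟩ := exists_nat_ge Y
  obtain ⟨n1, hn1⟩ := exists_nat_ge (2 * Y)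
  refine ⟨max m1 (2 * 2 ^ (2 * K)), max (max N1 N2) n1, fun N hN => ?_⟩
  set M := max m1 (2 * 2 ^ (2 * K)) with hM
  have c1 : N1 ≤ N := (le_max_left _ _).trans ((le_max_left _ _).trans hN)
  have c2 : N2 ≤ N := (le_max_right _ _).trans ((le_max_left _ _).trans hN)
  have c3 : n1 ≤ N := (le_max_right _ _).trans hN
  have hNY : 2 * Y ≤ N := hn1.trans (by exact_mod_cast c3)
  obtain ⟨E1, hE1, hE1'⟩ := H1 K (le_max_left _ _) Y (le_max_left _ _) N c1
  obtain ⟨E2, hE2, hE2'⟩ := H2 K (le_max_right _ _) Y (le_max_right _ _) N c2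
  have hMY : Y ≤ M := hm1.trans (by exact_mod_cast le_max_left _ _)
  -- the early exits
  set Ey : ℤ → Prop := fun x => ∃ k < 2 * K, (N : ℤ) < |C^[k] x| with hEy
  have hlate : ∀ x ∈ Odd' N M, ¬ Ey x → x ∈ E1 ∪ E2.image (fun n => -n) := by
    intro x hx hne
    obtain ⟨hxN, _, hsm⟩ := hx
    have hx0 : x ≠ 0 := by
      rintro rfl
      have := hsm 0 (self_mem hxN)
      simp at this
      omega
    have gen : ∀ s : ℤ, (s = 1 ∨ s = -1) → ∀ n : ℤ, 1 ≤ n → x = s * n →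
        (∃ t : ℕ, (((Tz s)^[t] n : ℤ) : ℝ) < Y ∧ ∀ j : ℕ, K ≤ j → j < t → 4 * (((Tz s)^[j] n : ℤ) : ℝ) ≤ n) → False := by
      intro s hs n hn hxn h
      have hnN : n ≤ N := by
        rw [hxn, abs_mul, abs_of_pos (by omega : 0 < n)] at hxN
        rcases hs with rfl | rfl <;> simpa using hxN
      rcases low_or hs hNY hn hnN h with h1 | h1
      · rw [low_iff hs (by omega) hnN, ← hxn] at h1
        obtain ⟨i, h2, h3⟩ := h1
        have h4 := hsm (C^[i] x) (mem_Comp.2 ⟨i, 0, rfl, h3, fun b hb => by rw [Nat.le_zero.1 hb]; exact h3 i le_rfl⟩)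
        have h5 : ((M : ℤ) : ℝ) < ((|C^[i] x| : ℤ) : ℝ) := by exact_mod_cast h4
        push_cast at h5
        push_cast at h2
        linarith
      · have := exit_C hs (by omega : 0 < n) h1
        rw [← hxn] at this
        exact hne this
    rw [mem_union, mem_image]
    rcases lt_or_gt_of_ne hx0 with h | h
    · right
      by_contra hcon
      push Not at hcon
      have h2 : -x ∉ E2 := fun h' => hcon (-x) h' (by ring)
      have hxN' : -x ≤ N := by rw [abs_le] at hxN; omega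
      exact gen (-1) (Or.inr rfl) (-x) (by omega) (by ring) (hE2' (-x) (by omega) hxN' h2)
    · left
      by_contra hcon
      have hxN' : x ≤ N := by rw [abs_le] at hxN; omega
      exact gen 1 (Or.inl rfl) x (by omega) (by ring) (hE1' x (by omega) hxN' hcon)
  -- the counting
  set B : Finset ℤ := (Odd'_fin N M).toFinset with hB
  have hBm : ∀ x, x ∈ B ↔ x ∈ Odd' N M := fun x => by rw [hB, Set.Finite.mem_toFinset]
  have hcomp : ∀ x ∈ B, ∀ y ∈ Comp N x, y ∈ B := by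
    intro x hx y hy
    rw [hBm] at hx ⊢
    refine ⟨hy.1, ?_, ?_⟩
    · rw [Comp_eq hy]; exact hx.2.1
    · rw [Comp_eq hy]; exact hx.2.2
  have hfib : ∀ A ∈ B.image (Comp N), (B.filter (fun x => Comp N x = A)).card ≤
      2 * ((B.filter (fun x => ¬ Ey x)).filter (fun x => Comp N x = A)).card := by
    intro A hA
    rw [mem_image] at hA
    obtain ⟨x0, hx0, rfl⟩ := hA
    have h1 : (B.filter (fun x => Comp N x = Comp N x0)).card = (Comp N x0).ncard := by
      rw [← Set.ncard_coe_finset]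
      congr 1
      ext y
      rw [mem_coe, mem_filter]
      constructor
      · rintro ⟨hy, he⟩
        rw [← he]
        rw [hBm] at hy
        exact self_mem hy.1
      · intro hy
        exact ⟨hcomp x0 hx0 y hy, Comp_eq hy⟩
    have h2 : M < (Comp N x0).ncard := ((hBm x0).1 hx0).2.1
    have h3 : ((B.filter (fun x => Ey x)).filter (fun x => Comp N x = Comp N x0)).card ≤ 2 ^ (2 * K) := by
      apply early_fiber (N := N) (x0 := x0)
      intro y hy
      rw [mem_filter, mem_filter] at hy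
      refine ⟨?_, hy.1.2⟩
      rw [← hy.2]
      exact self_mem ((hBm y).1 hy.1.1).1
    have h4 : (B.filter (fun x => Comp N x = Comp N x0)).card =
        ((B.filter (fun x => Ey x)).filter (fun x => Comp N x = Comp N x0)).card +
        ((B.filter (fun x => ¬ Ey x)).filter (fun x => Comp N x = Comp N x0)).card := by
      rw [filter_comm, filter_comm (fun x => ¬ Ey x)]
      exact (card_filter_add_card_filter_not (fun x => Ey x)).symm
    have h5 : 2 * 2 ^ (2 * K) ≤ M := le_max_right _ _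
    omega
  have hsum1 : B.card = ∑ A ∈ B.image (Comp N), (B.filter (fun x => Comp N x = A)).card :=
    card_eq_sum_card_image (Comp N) B
  have hsum2 : ∑ A ∈ B.image (Comp N), ((B.filter (fun x => ¬ Ey x)).filter (fun x => Comp N x = A)).card
      = (B.filter (fun x => ¬ Ey x)).card := by
    rw [← card_eq_sum_card_fiberwise]
    intro x hx
    rw [mem_coe, mem_filter] at hx
    rw [mem_coe]
    exact mem_image_of_mem _ hx.1
  have hcard : B.card ≤ 2 * (B.filter (fun x => ¬ Ey x)).card := by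
    rw [hsum1, ← hsum2, mul_sum]
    exact sum_le_sum hfib
  have hlate2 : (B.filter (fun x => ¬ Ey x)).card ≤ E1.card + E2.card := by
    refine (card_le_card (t := E1 ∪ E2.image (fun n => -n)) ?_).trans
      ((card_union_le _ _).trans (Nat.add_le_add_left card_image_le _))
    intro x hx
    rw [mem_filter, hBm] at hx
    exact hlate x hx.1 hx.2
  have hfin : (Odd' N M).ncard = B.card := Set.ncard_eq_toFinset_card _ _
  rw [hfin]
  have h6 : (B.card : ℝ) ≤ ((2 * (E1.card + E2.card) : ℕ) : ℝ) := by exact_mod_cast hcard.trans (by omega)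
  push_cast at h6
  linarith

end Pool.Agent.H623.TG
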